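import Mathlib
import Pool.Agent.Q79.KvL

set_option autoImplicit false

open Finset

namespace Pool.Agent.Q79.KX

open Pool.Agent.Q79.KV

/-! ### The universal state sum

At a unit `u` with `u ^ N = -1` the `N`-coloured state sum `cj N n w u` is the value of the
truncation to `N` states of one infinite state sum, whose entries are Laurent polynomials in `u`. -/

section ring

variable {R S : Type} [CommRing R] [CommRing S]

/-- the universal positive crossing, truncated to `L` states -/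
def aP (L : ℕ) (u : Rˣ) : Matrix (Fin L × Fin L) (Fin L × Fin L) R :=
  fun p q => if (p.1 : ℕ) + p.2 = q.1 + q.2 ∧ (q.2 : ℕ) ≤ p.1 then
    (-1) ^ (1 + (q.1 : ℕ) + (q.2 : ℕ)) *
      ((u ^ (1 + (q.1 : ℤ) + (q.2 : ℤ) + 2 * (p.1 : ℤ) * (p.2 : ℤ)) : Rˣ) : R) *
      ((u ^ (((p.1 : ℕ) - q.2) * ((p.1 : ℕ) - q.2 - 1) / 2) : Rˣ) : R) *
      (gb u p.1 q.2 * ∏ t ∈ range ((p.1 : ℕ) - q.2), brR u ((q.1 : ℤ) - t))
    else 0

/-- the universal negative crossing, truncated to `L` states -/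
def aN (L : ℕ) (u : Rˣ) : Matrix (Fin L × Fin L) (Fin L × Fin L) R :=
  fun p q => if (p.1 : ℕ) + p.2 = q.1 + q.2 ∧ (q.1 : ℕ) ≤ p.2 then
    (-1) ^ ((p.2 : ℕ) - q.1) * (-1) ^ (1 + (q.1 : ℕ) + (q.2 : ℕ)) *
      ((u ^ (-(1 + (q.1 : ℤ) + (q.2 : ℤ) + 2 * (q.1 : ℤ) * (q.2 : ℤ))) : Rˣ) : R) *
      (((u ^ (((p.2 : ℕ) - q.1) * ((p.2 : ℕ) - q.1 - 1) / 2))⁻¹ : Rˣ) : R) *
      (gb u p.2 q.1 * ∏ t ∈ range ((p.2 : ℕ) - q.1), brR u ((q.2 : ℤ) - t))
    else 0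

/-- the universal state sum, truncated to `L` states -/
def G (L n : ℕ) (w : List (ℕ × Bool)) (u : Rˣ) : R :=
  if h : 0 < L then
    ∑ s : Fin n → Fin L, (∏ x, (-((u ^ (-1 - 2 * (s x : ℤ)) : Rˣ) : R))) *
      rp (aP L u) (aN L u) (n + 1) w (Fin.cons ⟨0, h⟩ s) (Fin.cons ⟨0, h⟩ s)
  else 0

theorem map_aP (f : R →+* S) (u : Rˣ) (L : ℕ) :
    f.mapMatrix (aP L u) = aP L (Units.map (f : R →* S) u) := by
  ext p q
  rw [RingHom.mapMatrix_apply, Matrix.map_apply]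
  unfold aP
  split_ifs
  · rw [map_mul, map_mul, map_mul, map_mul, map_zpow_unit, map_pow_unit, map_gb, map_prod,
      map_pow, map_neg, map_one]
    simp only [map_brR]
  · exact map_zero f

theorem map_aN (f : R →+* S) (u : Rˣ) (L : ℕ) :
    f.mapMatrix (aN L u) = aN L (Units.map (f : R →* S) u) := by
  ext p q
  rw [RingHom.mapMatrix_apply, Matrix.map_apply]
  unfold aN
  split_ifs
  · rw [map_mul, map_mul, map_mul, map_mul, map_mul, map_zpow_unit, map_pow_inv_unit, map_gb,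
      map_prod, map_pow, map_pow, map_neg, map_one]
    simp only [map_brR]
  · exact map_zero f

theorem map_G (f : R →+* S) (u : Rˣ) (L n : ℕ) (w : List (ℕ × Bool)) :
    f (G L n w u) = G L n w (Units.map (f : R →* S) u) := by
  unfold G
  split_ifs with h
  · rw [map_sum]
    apply Finset.sum_congr rfl
    intro s _
    rw [map_mul, map_prod]
    have h1 := congrFun (congrFun (map_rp f (aP L u) (aN L u) (n + 1) w)
      (Fin.cons ⟨0, h⟩ s)) (Fin.cons ⟨0, h⟩ s)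
    rw [RingHom.mapMatrix_apply, Matrix.map_apply, map_aP, map_aN] at h1
    rw [h1]
    simp only [map_zpow_unit, map_neg]
  · exact map_zero f

theorem brR_sub {u : Rˣ} {N : ℕ} (hu : u ^ N = -1) (k : ℤ) : brR u ((N : ℤ) - k) = brR u k := by
  unfold brR
  have h1 : u ^ (-((N : ℤ) - k)) = - u ^ k := by
    rw [neg_sub, zpow_sub, zpow_natCast, hu]
    simp
  have h2 : u ^ ((N : ℤ) - k) = - u ^ (-k) := by
    rw [sub_eq_add_neg, zpow_add, zpow_natCast, hu]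
    simp
  rw [h1, h2]
  push_cast
  ring

theorem pow_neg_one {u : Rˣ} {N : ℕ} (hu : u ^ N = -1) (k : ℕ) :
    u ^ ((N : ℤ) * k) = (-1) ^ k := by
  rw [zpow_mul, zpow_natCast, zpow_natCast, hu]

theorem pow_neg_one' {u : Rˣ} {N : ℕ} (hu : u ^ N = -1) (k : ℕ) :
    u ^ (-((N : ℤ) * k)) = (-1) ^ k := by
  rw [zpow_neg, pow_neg_one hu, ← inv_pow]
  simp

theorem cP_aP {u : Rˣ} {N : ℕ} (hu : u ^ N = -1) : cP N u = aP N u := by
  ext p q
  unfold cP aP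
  by_cases h : (p.1 : ℕ) + p.2 = q.1 + q.2 ∧ (q.2 : ℕ) ≤ p.1
  · rw [if_pos h, if_pos h]
    have e1 : u ^ (-((N : ℤ) - 1) * (1 + (q.1 : ℕ) + (q.2 : ℕ)) + 2 * (p.1 : ℕ) * (p.2 : ℕ)) =
        (-1) ^ (1 + (q.1 : ℕ) + (q.2 : ℕ)) *
          u ^ (1 + (q.1 : ℤ) + (q.2 : ℤ) + 2 * (p.1 : ℤ) * (p.2 : ℤ)) := by
      rw [← pow_neg_one' hu (1 + (q.1 : ℕ) + (q.2 : ℕ)), ← zpow_add]
      congr 1
      push_cast
      ring
    rw [e1]
    have e2 : ∏ t ∈ range ((p.1 : ℕ) - q.2), brR u ((N : ℤ) - (q.1 : ℕ) + t) =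
        ∏ t ∈ range ((p.1 : ℕ) - q.2), brR u ((q.1 : ℤ) - t) := by
      apply Finset.prod_congr rfl
      intro t _
      rw [← brR_sub hu]
      congr 1
      ring
    rw [e2]
    push_cast
    ring
  · rw [if_neg h, if_neg h]

theorem cN_aN {u : Rˣ} {N : ℕ} (hu : u ^ N = -1) : cN N u = aN N u := by
  ext p q
  unfold cN aN
  by_cases h : (p.1 : ℕ) + p.2 = q.1 + q.2 ∧ (q.1 : ℕ) ≤ p.2
  · rw [if_pos h, if_pos h]
    have e1 : u ^ (((N : ℤ) - 1) * (1 + (q.1 : ℕ) + (q.2 : ℕ)) - 2 * (q.1 : ℕ) * (q.2 : ℕ)) =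
        (-1) ^ (1 + (q.1 : ℕ) + (q.2 : ℕ)) *
          u ^ (-(1 + (q.1 : ℤ) + (q.2 : ℤ) + 2 * (q.1 : ℤ) * (q.2 : ℤ))) := by
      rw [← pow_neg_one hu (1 + (q.1 : ℕ) + (q.2 : ℕ)), ← zpow_add]
      congr 1
      push_cast
      ring
    rw [e1]
    have e2 : ∏ t ∈ range ((p.2 : ℕ) - q.1), brR u ((N : ℤ) - (q.2 : ℕ) + t) =
        ∏ t ∈ range ((p.2 : ℕ) - q.1), brR u ((q.2 : ℤ) - t) := by
      apply Finset.prod_congr rfl
      intro t _
      rw [← brR_sub hu]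
      congr 1
      ring
    rw [e2]
    push_cast
    ring
  · rw [if_neg h, if_neg h]

/-- **The universal state sum.** -/
theorem cj_G {u : Rˣ} {N : ℕ} (hu : u ^ N = -1) (n : ℕ) (w : List (ℕ × Bool)) :
    cj N n w u = G N n w u := by
  unfold cj G
  by_cases h : 0 < N
  · rw [dif_pos h, dif_pos h]
    apply Finset.sum_congr rfl
    intro s _
    rw [cP_aP hu, cN_aN hu]
    congr 1
    apply Finset.prod_congr rfl
    intro x _
    have e : u ^ ((N : ℤ) - 1 - 2 * (s x : ℕ)) = - u ^ (-1 - 2 * (s x : ℤ)) := by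
      have e1 : (N : ℤ) - 1 - 2 * (s x : ℕ) = (N : ℤ) + (-1 - 2 * (s x : ℤ)) := by ring
      rw [e1, zpow_add, zpow_natCast, hu]
      simp
    rw [e]
    simp
  · rw [dif_neg h, dif_neg h]

end ring

end Pool.Agent.Q79.KX
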