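import Mathlib
import Pool.Agent.Q79.KX.Def

set_option autoImplicit false

open Finset

namespace Pool.Agent.Q79.KX

open Pool.Agent.Q79.KV

/-! ### Filtrations of state sums -/

/-- distance of two naturals -/
def ds (a b : ℕ) : ℕ := (a - b) + (b - a)

theorem ds_tri (a b c : ℕ) : ds a c ≤ ds a b + ds b c := by unfold ds; omega

theorem ds_self (a : ℕ) : ds a a = 0 := by unfold ds; omega

/-- the distance of two states along a permutation -/
def dist {ι : Type} (d : ι → ℕ) {n : ℕ} (σ : Equiv.Perm (Fin n)) (s t : Fin n → ι) : ℕ :=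
  ∑ x, ds (d (s (σ x))) (d (t x))

section ring

variable {R : Type} [CommRing R]

/-- a crossing matrix compatible with the filtration by the powers of `θ` -/
def Filt {ι : Type} (θ : R) (d : ι → ℕ) (A : Matrix (ι × ι) (ι × ι) R) : Prop :=
  ∀ p q e, (e ≤ ds (d p.1) (d q.2) ∨ e ≤ ds (d p.2) (d q.1)) → θ ^ e ∣ A p q

theorem rp_cons' {ι : Type} [Fintype ι] [DecidableEq ι] (P Q : Matrix (ι × ι) (ι × ι) R) (n : ℕ)
    (g : ℕ × Bool) (w : List (ℕ × Bool)) :
    rp P Q n (g :: w) = gn (if g.2 then P else Q) n g.1 * rp P Q n w := by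
  unfold rp
  rw [List.map_cons, List.prod_cons]

theorem sum_pair {n k : ℕ} (hk : k + 1 < n) (a : Fin n → ℕ)
    (h : ∀ j : Fin n, (j : ℕ) ≠ k → (j : ℕ) ≠ k + 1 → a j = 0) :
    ∑ x, a x = a ⟨k, by omega⟩ + a ⟨k + 1, hk⟩ := by
  have hij : (⟨k, by omega⟩ : Fin n) ≠ ⟨k + 1, hk⟩ := by
    rw [Ne, Fin.mk.injEq]; omega
  rw [← Finset.sum_pair hij]
  symm
  apply Finset.sum_subset (Finset.subset_univ _)
  intro x _ hx
  rw [Finset.mem_insert, Finset.mem_singleton, not_or] at hx
  apply h
  · intro h2; exact hx.1 (Fin.ext h2)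
  · intro h2; exact hx.2 (Fin.ext h2)

theorem gn_dvd {ι : Type} [DecidableEq ι] {θ : R} {d : ι → ℕ} {A : Matrix (ι × ι) (ι × ι) R}
    (hA : Filt θ d A) (n k : ℕ) (s t : Fin n → ι) {e : ℕ}
    (he : 2 * e ≤ dist d (sw n k) s t + 1) : θ ^ e ∣ gn A n k s t := by
  unfold gn
  unfold dist sw at he
  by_cases hk : k + 1 < n
  · rw [dif_pos hk] at he ⊢
    split_ifs with hc
    · rw [sum_pair hk] at he
      · rw [Equiv.swap_apply_left, Equiv.swap_apply_right] at he
        apply hA
        simp only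
        omega
      · intro j h1 h2
        rw [Equiv.swap_apply_of_ne_of_ne, hc j h1 h2, ds_self]
        · intro h3; exact h1 (by rw [h3])
        · intro h3; exact h2 (by rw [h3])
    · exact dvd_zero _
  · rw [dif_neg hk] at he ⊢
    split_ifs with hc
    · subst hc
      have h0 : ∑ x, ds (d (s ((1 : Equiv.Perm (Fin n)) x))) (d (s x)) = 0 := by
        apply Finset.sum_eq_zero
        intro x _
        rw [Equiv.Perm.one_apply, ds_self]
      rw [h0] at he
      have : e = 0 := by omega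
      rw [this, pow_zero]
    · exact dvd_zero _

theorem dist_comp {ι : Type} {d : ι → ℕ} {n : ℕ} (τ σ : Equiv.Perm (Fin n)) (s r : Fin n → ι) :
    dist d τ s r = ∑ x, ds (d (s (τ (σ x)))) (d (r (σ x))) := by
  unfold dist
  exact (Equiv.sum_comp σ (fun x => ds (d (s (τ x))) (d (r x)))).symm

theorem dist_tri {ι : Type} {d : ι → ℕ} {n : ℕ} (τ σ : Equiv.Perm (Fin n)) (s r t : Fin n → ι) :
    dist d (τ * σ) s t ≤ dist d τ s r + dist d σ r t := by
  rw [dist_comp τ σ]
  unfold dist
  rw [← Finset.sum_add_distrib]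
  apply Finset.sum_le_sum
  intro x _
  exact ds_tri _ _ _

theorem pow_mul_dvd {θ a b : R} {e e1 e2 : ℕ} (h1 : θ ^ e1 ∣ a) (h2 : θ ^ e2 ∣ b)
    (h : e ≤ e1 + e2) : θ ^ e ∣ a * b := by
  refine (pow_dvd_pow θ h).trans ?_
  rw [pow_add]
  exact mul_dvd_mul h1 h2

theorem rp_dvd {ι : Type} [Fintype ι] [DecidableEq ι] {θ : R} {d : ι → ℕ}
    {P Q : Matrix (ι × ι) (ι × ι) R} (hP : Filt θ d P) (hQ : Filt θ d Q) {n : ℕ}
    (w : List (ℕ × Bool)) : ∀ (s t : Fin n → ι) {e : ℕ},
    2 * e ≤ dist d (permOf n w) s t + 1 → θ ^ e ∣ rp P Q n w s t := by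
  induction w with
  | nil =>
    intro s t e he
    unfold rp
    rw [List.map_nil, List.prod_nil, Matrix.one_apply]
    split_ifs with hc
    · subst hc
      have h0 : dist d (permOf n []) s s = 0 := by
        unfold dist
        apply Finset.sum_eq_zero
        intro x _
        have : permOf n [] x = x := rfl
        rw [this, ds_self]
      rw [h0] at he
      have : e = 0 := by omega
      rw [this, pow_zero]
    · exact dvd_zero _
  | cons g w ih =>
    intro s t e he
    rw [rp_cons', Matrix.mul_apply]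
    apply Finset.dvd_sum
    intro r _
    have hF : Filt θ d (if g.2 then P else Q) := by split_ifs <;> assumption
    have h1 := gn_dvd hF n g.1 s r (e := (dist d (sw n g.1) s r + 1) / 2) (by omega)
    have h2 := ih r t (e := (dist d (permOf n w) r t + 1) / 2) (by omega)
    apply pow_mul_dvd h1 h2
    have h3 := dist_tri (d := d) (sw n g.1) (permOf n w) s r t
    rw [← permOf_cons] at h3
    omega

/-- the truncated matrix -/
def cut {ι : Type} (d : ι → ℕ) (D : ℕ) (A : Matrix (ι × ι) (ι × ι) R) :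
    Matrix (ι × ι) (ι × ι) R :=
  fun p q => if (d p.1 < D ∧ d p.2 < D) ∧ (d q.1 < D ∧ d q.2 < D) then A p q else 0

theorem gn_cut {ι : Type} [DecidableEq ι] (d : ι → ℕ) (D : ℕ) (A : Matrix (ι × ι) (ι × ι) R)
    (n k : ℕ) (s r : Fin n → ι) : gn (cut d D A) n k s r = gn A n k s r ∨
      (gn (cut d D A) n k s r = 0 ∧ ∃ x, D ≤ d (r x) ∨ D ≤ d (s (sw n k x))) := by
  unfold gn
  by_cases hk : k + 1 < n
  · rw [dif_pos hk, dif_pos hk]
    by_cases hc : ∀ j : Fin n, (j : ℕ) ≠ k → (j : ℕ) ≠ k + 1 → s j = r j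
    · rw [if_pos hc, if_pos hc]
      unfold cut
      split_ifs with h
      · left; rfl
      · right
        refine ⟨rfl, ?_⟩
        simp only at h
        unfold sw
        rw [dif_pos hk]
        by_cases h1 : D ≤ d (r ⟨k, by omega⟩)
        · exact ⟨_, Or.inl h1⟩
        by_cases h2 : D ≤ d (r ⟨k + 1, hk⟩)
        · exact ⟨_, Or.inl h2⟩
        by_cases h3 : D ≤ d (s ⟨k, by omega⟩)
        · exact ⟨⟨k + 1, hk⟩, Or.inr (by rw [Equiv.swap_apply_right]; exact h3)⟩
        by_cases h4 : D ≤ d (s ⟨k + 1, hk⟩)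
        · exact ⟨⟨k, by omega⟩, Or.inr (by rw [Equiv.swap_apply_left]; exact h4)⟩
        exfalso
        apply h
        exact ⟨⟨by omega, by omega⟩, ⟨by omega, by omega⟩⟩
    · rw [if_neg hc, if_neg hc]
      left; rfl
  · rw [dif_neg hk, dif_neg hk]
    left; rfl

/-- the variation of a path from `s` to `t` whose strand `x` exceeds `D` -/
def exc {ι : Type} (d : ι → ℕ) (D : ℕ) {n : ℕ} (σ : Equiv.Perm (Fin n)) (s t : Fin n → ι)
    (x : Fin n) : ℕ :=
  (D - d (s (σ x))) + (D - d (t x)) + ∑ y ∈ univ.erase x, ds (d (s (σ y))) (d (t y))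

theorem exc_le {ι : Type} {d : ι → ℕ} {D n : ℕ} (τ σ : Equiv.Perm (Fin n)) (s r t : Fin n → ι)
    (x : Fin n) : exc d D (τ * σ) s t x ≤ dist d τ s r + exc d D σ r t x := by
  rw [dist_comp τ σ]
  unfold exc
  rw [← Finset.add_sum_erase univ _ (Finset.mem_univ x)]
  have h1 : ∑ y ∈ univ.erase x, ds (d (s ((τ * σ) y))) (d (t y)) ≤
      ∑ y ∈ univ.erase x, ds (d (s (τ (σ y)))) (d (r (σ y))) +
        ∑ y ∈ univ.erase x, ds (d (r (σ y))) (d (t y)) := by
    rw [← Finset.sum_add_distrib]
    apply Finset.sum_le_sum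
    intro y _
    exact ds_tri _ _ _
  have h2 : D - d (s ((τ * σ) x)) ≤ ds (d (s (τ (σ x)))) (d (r (σ x))) + (D - d (r (σ x))) := by
    rw [Equiv.Perm.mul_apply]
    unfold ds
    omega
  omega

theorem exc_le' {ι : Type} {d : ι → ℕ} {D n : ℕ} (τ σ : Equiv.Perm (Fin n)) (s r t : Fin n → ι)
    {x : Fin n} (hx : D ≤ d (r (σ x)) ∨ D ≤ d (s (τ (σ x)))) :
    exc d D (τ * σ) s t x ≤ dist d τ s r + dist d σ r t := by
  rw [dist_comp τ σ]
  unfold exc dist
  rw [← Finset.add_sum_erase univ (fun x => ds (d (s (τ (σ x)))) (d (r (σ x))))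
    (Finset.mem_univ x), ← Finset.add_sum_erase univ (fun x => ds (d (r (σ x))) (d (t x)))
    (Finset.mem_univ x)]
  have h1 : ∑ y ∈ univ.erase x, ds (d (s ((τ * σ) y))) (d (t y)) ≤
      ∑ y ∈ univ.erase x, ds (d (s (τ (σ y)))) (d (r (σ y))) +
        ∑ y ∈ univ.erase x, ds (d (r (σ y))) (d (t y)) := by
    rw [← Finset.sum_add_distrib]
    apply Finset.sum_le_sum
    intro y _
    exact ds_tri _ _ _
  have h2 : (D - d (s ((τ * σ) x))) + (D - d (t x)) ≤
      ds (d (s (τ (σ x)))) (d (r (σ x))) + ds (d (r (σ x))) (d (t x)) := by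
    rw [Equiv.Perm.mul_apply]
    unfold ds
    omega
  omega

/-- **Comparison of the full and the truncated operators.** -/
theorem cmp {ι : Type} [Fintype ι] [DecidableEq ι] {θ : R} {d : ι → ℕ} (D : ℕ)
    {P Q : Matrix (ι × ι) (ι × ι) R} (hP : Filt θ d P) (hQ : Filt θ d Q) {n : ℕ}
    (w : List (ℕ × Bool)) : ∀ (s t : Fin n → ι) {V e : ℕ},
    (∀ x, V ≤ exc d D (permOf n w) s t x) → 2 * e ≤ V + 1 →
    θ ^ e ∣ rp P Q n w s t - rp (cut d D P) (cut d D Q) n w s t := by
  induction w with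
  | nil =>
    intro s t V e _ _
    unfold rp
    rw [List.map_nil, List.map_nil, sub_self]
    exact dvd_zero _
  | cons g w ih =>
    intro s t V e hV he
    rw [rp_cons', rp_cons', Matrix.mul_apply, Matrix.mul_apply, ← Finset.sum_sub_distrib]
    apply Finset.dvd_sum
    intro r _
    have hF : Filt θ d (if g.2 then P else Q) := by split_ifs <;> assumption
    have hcut : (if g.2 then cut d D P else cut d D Q) = cut d D (if g.2 then P else Q) := by
      split_ifs <;> rfl
    rw [hcut]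
    have h1 := gn_dvd hF n g.1 s r (e := (dist d (sw n g.1) s r + 1) / 2) (by omega)
    rcases gn_cut d D (if g.2 then P else Q) n g.1 s r with hg | ⟨hg, x0, hx0⟩
    · rw [hg, ← mul_sub]
      have h2 := ih r t (V := V - dist d (sw n g.1) s r)
        (e := (V - dist d (sw n g.1) s r + 1) / 2) (by
          intro x
          have h3 := hV x
          have h4 := exc_le (d := d) (D := D) (sw n g.1) (permOf n w) s r t x
          rw [← permOf_cons] at h4
          omega) (by omega)
      exact pow_mul_dvd h1 h2 (by omega)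
    · rw [hg, zero_mul, sub_zero]
      have h2 := rp_dvd hP hQ w r t (e := (dist d (permOf n w) r t + 1) / 2) (by omega)
      apply pow_mul_dvd h1 h2
      have h3 := hV ((permOf n w).symm x0)
      have h4 := exc_le' (d := d) (D := D) (sw n g.1) (permOf n w) s r t
        (x := (permOf n w).symm x0) (by rw [Equiv.apply_symm_apply]; exact hx0)
      rw [← permOf_cons] at h4
      omega

theorem gn_cut_range {ι κ : Type} [DecidableEq κ] {e : ι → κ} {d : κ → ℕ} {D : ℕ}
    (hd : ∀ x, d x < D ↔ x ∈ Set.range e) {A : Matrix (κ × κ) (κ × κ) R} {n k : ℕ}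
    {s : Fin n → ι} {r : Fin n → κ} (h1 : gn (cut d D A) n k (e ∘ s) r ≠ 0) (x : Fin n) :
    r x ∈ Set.range e := by
  unfold gn at h1
  by_cases hk : k + 1 < n
  · rw [dif_pos hk] at h1
    split_ifs at h1 with hc
    · by_cases hx1 : (x : ℕ) = k
      · have hx : x = ⟨k, by omega⟩ := Fin.ext hx1
        unfold cut at h1
        split_ifs at h1 with hd2
        · rw [hx]
          exact (hd _).1 hd2.2.1
        · exact absurd rfl h1
      · by_cases hx2 : (x : ℕ) = k + 1
        · have hx : x = ⟨k + 1, hk⟩ := Fin.ext hx2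
          unfold cut at h1
          split_ifs at h1 with hd2
          · rw [hx]
            exact (hd _).1 hd2.2.2
          · exact absurd rfl h1
        · rw [← hc x hx1 hx2]
          exact ⟨_, rfl⟩
    · exact absurd rfl h1
  · rw [dif_neg hk] at h1
    split_ifs at h1 with hc
    · rw [← hc]
      exact ⟨_, rfl⟩
    · exact absurd rfl h1

/-- the truncated operator on the small states -/
theorem rp_cut {ι κ : Type} [Fintype ι] [DecidableEq ι] [Fintype κ] [DecidableEq κ] {e : ι → κ}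
    (he : Function.Injective e) {d : κ → ℕ} {D : ℕ} (hd : ∀ x, d x < D ↔ x ∈ Set.range e)
    {P Q : Matrix (κ × κ) (κ × κ) R} {P' Q' : Matrix (ι × ι) (ι × ι) R}
    (hPP : ∀ p q : ι × ι, P (e p.1, e p.2) (e q.1, e q.2) = P' p q)
    (hQQ : ∀ p q : ι × ι, Q (e p.1, e p.2) (e q.1, e q.2) = Q' p q)
    (n : ℕ) (w : List (ℕ × Bool)) :
    ∀ s t : Fin n → ι, rp (cut d D P) (cut d D Q) n w (e ∘ s) (e ∘ t) = rp P' Q' n w s t := by
  have hlt : ∀ x, d (e x) < D := fun x => (hd _).2 ⟨x, rfl⟩
  induction w with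
  | nil =>
    intro s t
    unfold rp
    rw [List.map_nil, List.map_nil, List.prod_nil, List.prod_nil]
    by_cases hc : s = t
    · rw [hc, Matrix.one_apply_eq, Matrix.one_apply_eq]
    · rw [Matrix.one_apply_ne hc, Matrix.one_apply_ne (fun h => hc (he.comp_left h))]
  | cons g w ih =>
    intro s t
    rw [rp_cons', rp_cons', Matrix.mul_apply, Matrix.mul_apply]
    have hcut : (if g.2 then cut d D P else cut d D Q) = cut d D (if g.2 then P else Q) := by
      split_ifs <;> rfl
    rw [hcut]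
    symm
    apply Fintype.sum_of_injective (fun r : Fin n → ι => e ∘ r) he.comp_left
    · intro r hr
      by_contra hne
      apply hr
      have h2 : ∀ x, r x ∈ Set.range e := gn_cut_range hd (left_ne_zero_of_mul hne)
      choose r' hr' using h2
      exact ⟨r', funext hr'⟩
    · intro r
      rw [ih r t]
      congr 1
      unfold gn
      have hA : ∀ p q : ι × ι, cut d D (if g.2 then P else Q) (e p.1, e p.2) (e q.1, e q.2) =
          (if g.2 then P' else Q') p q := by
        intro p q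
        unfold cut
        rw [if_pos ⟨⟨hlt _, hlt _⟩, ⟨hlt _, hlt _⟩⟩]
        split_ifs
        · exact hPP p q
        · exact hQQ p q
      by_cases hk : g.1 + 1 < n
      · rw [dif_pos hk, dif_pos hk]
        by_cases hc : ∀ j : Fin n, (j : ℕ) ≠ g.1 → (j : ℕ) ≠ g.1 + 1 → s j = r j
        · rw [if_pos hc, if_pos (fun j h1 h2 => by simp only [Function.comp_apply]; rw [hc j h1 h2])]
          exact (hA (s ⟨g.1, by omega⟩, s ⟨g.1 + 1, hk⟩) (r ⟨g.1, by omega⟩, r ⟨g.1 + 1, hk⟩)).symm
        · rw [if_neg hc, if_neg]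
          intro h
          exact hc (fun j h1 h2 => he (h j h1 h2))
      · rw [dif_neg hk, dif_neg hk]
        by_cases hc : s = r
        · rw [if_pos hc, if_pos (by rw [hc])]
        · rw [if_neg hc, if_neg (fun h => hc (he.comp_left h))]

end ring

end Pool.Agent.Q79.KX
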