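import Mathlib
import Pool.Agent.Q79.KX.Def
import Pool.Agent.Q79.KvK
import Pool.Agent.Q79.KwA

/-!
# Project KX (helper79): the Kashaev invariants of every knot are non-zero at almost all levels

For every knot `K` the number of levels `N ≤ x` with `⟨K⟩_N = 0` is at most
`x exp(-c sqrt(log x loglog x))`.  The statements `S_XXX` below are lemma jobs; each is independent
of the others unless the docstring says so.
-/

set_option autoImplicit false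

open Finset Polynomial

namespace Pool.Agent.Q79.KX

open Pool.Agent.Q79.KV

/-- **JOB NTa** (Mathlib only).  Numbers with many prime factors.
Proof: for `N ≥ 1`, `z ^ ω(N) = ∏_{p ∣ N} (1 + (z - 1)) = ∑_{T ⊆ primeFactors N} (z - 1) ^ #T`
(`Finset.prod_one_add` / `Finset.prod_add_one`); summing over `N ≤ x` and interchanging,
`∑_{N ≤ x} z ^ ω(N) = ∑_{T ⊆ primes ≤ x} (z - 1) ^ #T #{N ≤ x : ∏ T ∣ N}
≤ ∑_T (z - 1) ^ #T x / ∏ T = x ∏_{p ≤ x} (1 + (z - 1) / p) ≤ x exp(z ∑ 1 / p)`.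
The left side of the claim is at most `∑_{N ≤ x} z ^ ω(N)` because `z ≥ 1`. -/
def S_NTa : Prop := ∀ (x W : ℕ) (z : ℝ), 1 ≤ z →
  (Nat.card {N : ℕ // 1 ≤ N ∧ N ≤ x ∧ W ≤ N.primeFactors.card} : ℝ) * z ^ W ≤
    x * Real.exp (z * ∑ p ∈ (Finset.Icc 1 x).filter Nat.Prime, 1 / (p : ℝ))

/-- the abstract recursion between vanishing orders `I m`, norms `exp (φ(2m) Z m)` and
bad levels -/
def Hyp (C : ℝ) (I : ℕ → ℕ) (Z : ℕ → ℝ) (Bad : ℕ → Prop) : Prop :=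
  I 1 = 0 ∧
  (∀ m : ℕ, 1 ≤ m → ∀ T : Finset ℕ, (∀ p ∈ T, p.Prime ∧ ¬ p ∣ m ∧ Bad (m * p)) →
    ∑ p ∈ T, Real.log p ≤ Z m) ∧
  (∀ m l a : ℕ, 1 ≤ m → l.Prime → ¬ l ∣ m → 1 ≤ a →
    (I (m * l ^ a) : ℝ) * Real.log l ≤ Z m) ∧
  (∀ m : ℕ, 1 ≤ m → Z m ≤ C * ((m.primeFactors.card : ℝ) + 1) * ((I m : ℝ) + 1) *
    Real.log ((m : ℝ) + 2) ^ 2 * Real.log ((I m : ℝ) + 2))

/-- **JOB NTb** (Mathlib only).  The orders grow slowly for numbers with few prime factors.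
Proof: put `l = log x`, `ll = log l`; for `x` large (depending on `C` only) `4 C (√l + 1) ≤ l`,
`log (x + 2) ≤ 2 l`, `W ≤ √l` and `log 2 + 6 W ll ≤ l` (because `W ll ≤ √(l ll) / 8`).
By induction on `ω(m) ≤ W` (`m ≤ x`): `I m + 1 ≤ l ^ (6 ω(m))` and hence
`Z m ≤ C (W + 1) l ^ (6 ω(m)) (2 l) ^ 2 l ≤ l ^ (6 ω(m) + 4)`.
Step: `m = m' p ^ a`, `p ∤ m'` (for instance `Nat.recOnPosPrimePosCoprime`, or `p = m.minFac` and
`a = m.factorization p`): `I m ≤ Z m' / log p ≤ Z m' / log 2`, so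
`I m + 1 ≤ 1.45 l ^ (6 ω(m') + 4) + 1 ≤ l ^ (6 ω(m') + 6)`. -/
def S_NTb : Prop := ∀ C : ℝ, 1 ≤ C → ∃ x₀ : ℕ, ∀ (I : ℕ → ℕ) (Z : ℕ → ℝ) (Bad : ℕ → Prop),
  Hyp C I Z Bad → ∀ x : ℕ, x₀ ≤ x → ∀ W : ℕ,
  (W : ℝ) ≤ Real.sqrt (Real.log x / Real.log (Real.log x)) / 8 →
  ∀ m : ℕ, 1 ≤ m → m ≤ x → m.primeFactors.card ≤ W →
    Z m ≤ Real.log x ^ (6 * W + 4)

/-- the counting theorem -/
def S_NT : Prop := ∀ C : ℝ, 1 ≤ C → ∃ x₀ : ℕ, ∀ (I : ℕ → ℕ) (Z : ℕ → ℝ) (Bad : ℕ → Prop),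
  Hyp C I Z Bad → ∀ x : ℕ, x₀ ≤ x →
  (Nat.card {N : ℕ // 1 ≤ N ∧ N ≤ x ∧ Bad N} : ℝ) ≤
    x * Real.exp (-(1 / 100) * Real.sqrt (Real.log x * Real.log (Real.log x)))

/-- **JOB NTJ.**  The counting theorem from `S_NTa`, `S_NTb` and Mertens
(`Pool.Agent.Erdos456.Mert.mertens_inv`, module `Pool.Agent.Erdos456.Mertens`, is the bound
`∑_{p ≤ x} 1/p ≤ loglog x + C₀`).
Proof: put `l = log x`, `ll = log l`, `W = ⌊√(l / ll) / 8⌋`, `y = l ^ (8 W + 8)` (so that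
`y = exp((8 W + 8) ll)`).  Every bad `N ≤ x` belongs to one of four classes.
(1) `ω(N) > W`: by `S_NTa` with `z = max 1 (W / ll)` at most
`x exp(z (ll + C₀) - W log z) ≤ x exp(-W ll / 8)` for large `x` (`log (W / ll) ≥ ll / 4`).
(2) `p ^ 2 ∣ N` for some prime `p > y`: at most `∑_{p > y} x / p ^ 2 ≤ 2 x / y`.
(3) `N` has a prime factor `p > y` with `p ^ 2 ∤ N`, and `ω(N) ≤ W`: `N = m p`, `p ∤ m`,
`m ≤ x / y`, `ω(m) ≤ W` and `Bad (m p)`.  For each `m` the number of such `p` is at most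
`Z m / log 2` (second clause of `Hyp` for the finite set `T` of these `p ≤ x`), which is
`≤ 2 l ^ (6 W + 4)` by `S_NTb`.  Total at most `(x / y) 2 l ^ (6 W + 4) ≤ 2 x l ^ (-2 W - 4)`.
(4) all prime factors of `N` are `≤ y` and `ω(N) ≤ W`: `N` is determined by a set of at most `W`
pairs (prime `≤ y`, exponent `≤ log x / log 2`), so there are at most `(1 + 2 y l) ^ W` such `N`
(for instance: an injection into `Fin W → Option (pairs)` or a bound by the sum of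
`card ^ j`, `j ≤ W`), which is at most `exp((8 W ^ 2 + 10 W) ll) ≤ √x`.
The sum of the four bounds is at most `x exp(-(1/100) √(l ll))` for large `x`, because
`W ll ≥ √(l ll) / 8 - ll`. -/
def S_NTJ : Prop := S_NTa → S_NTb → S_NT

/-- **JOB NL.**  Norms and cyclotomic factors.
Proof: let `Ψ_c = cyclotomic (2 c) ℤ`.  The polynomials `Ψ_(m p^a(p))`, `p ∈ T`, are irreducible
(`cyclotomic.irreducible`), pairwise different and primitive, so the product of the powers divides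
`A` (`Finset.prod_dvd_of_isRelPrime`, irreducible elements of the UFD `ℤ[X]`, or via `ℚ[X]`,
`cyclotomic.isCoprime_rat`, and Gauss): `A = Q ∏_p Ψ_p ^ e(p)`.  So
`∏_v ‖A(v)‖ = ∏_v ‖Q(v)‖ ∏_p (∏_v ‖Ψ_p(v)‖) ^ e(p)`, the first product is `≥ 1`
(`Pool.Agent.Q79.KV.prod_norm_gen`, module `Pool.Agent.Q79.KvI`; `Q(v) ≠ 0` at the given root).
For each `p`: `Ψ_(m p^a) ≡ Ψ_m ^ k (mod p)` with `k ≥ 1` (Mathlib
`cyclotomic_mul_prime_pow_eq` over `ZMod p`: for `p ≠ 2` directly with `n = 2 m`; for `p = 2`,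
`m` odd, `cyclotomic (2^(a+1) m) = cyclotomic m ^ (2^a)` and `cyclotomic (2 m) = cyclotomic m`
mod 2), so `Ψ_(m p^a) = Ψ_m ^ k + p R` in `ℤ[X]`, hence `Ψ_(m p^a)(v) = p R(v)` and
`∏_v ‖Ψ_(m p^a)(v)‖ = p ^ φ(2m) ∏_v ‖R(v)‖ ≥ p ^ φ(2m)` (again `prod_norm_gen`; `R(v) ≠ 0`
because `v` is not a primitive root of order `2 m p^a`; number of `v`:
`Complex.card_primitiveRoots`). -/
def S_NL : Prop := ∀ m : ℕ, 1 ≤ m → ∀ (A : ℤ[X]) (v : ℂ), IsPrimitiveRoot v (2 * m) →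
  aeval v A ≠ 0 → ∀ (T : Finset ℕ) (a e : ℕ → ℕ),
  (∀ p ∈ T, p.Prime ∧ ¬ p ∣ m ∧ 1 ≤ a p ∧ cyclotomic (2 * (m * p ^ a p)) ℤ ^ e p ∣ A) →
  (Nat.totient (2 * m) : ℝ) * ∑ p ∈ T, (e p : ℝ) * Real.log p ≤
    Real.log (∏ v ∈ primitiveRoots (2 * m) ℂ, ‖aeval v A‖)

/-- **JOB MM** (Mathlib only, helpful: `Pool.Agent.Q79.KV.norm_ge`, module
`Pool.Agent.Q79.KvI`).  Value of `H = g / Ψ ^ i`, `Ψ = cyclotomic (2 m) ℤ`, from a bound of `g` on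
a small curve around `v`.
Proof: `F(s) = aeval (v e^s) H / (v e^s) ^ K` is entire; by the maximum principle on the disc
`‖s‖ ≤ ρ` (`Complex.norm_le_of_forall_mem_frontier_norm_le`) `‖F(0)‖ ≤ max_{‖s‖ = ρ} ‖F(s)‖` and
`‖F(0)‖ = ‖aeval v H‖`.  For `‖s‖ = ρ` with `x = v e^s`:
`‖F(s)‖ = ‖g(x)‖ / (‖x‖ ^ K ‖Ψ(x)‖ ^ i) ≤ B / ‖Ψ(x)‖ ^ i`, and `‖Ψ(x)‖ ≥ (ρ / 4) ‖Ψ'(v)‖`:
over `ℂ`, `Ψ = ∏_{v'} (X - v')` (primitive `2m`-th roots, `cyclotomic_eq_prod_X_sub_primitiveRoots`)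
and `Ψ'(v) = ∏_{v' ≠ v} (v - v')`; `‖x - v‖ = ‖e^s - 1‖ ≥ ρ / 2` and
`‖x - v'‖ ≥ ‖v - v'‖ - 2 ρ ≥ ‖v - v'‖ (1 - 2 ρ m)` since `‖v - v'‖ ≥ 1 / m` for different `2m`-th
roots of unity; there are fewer than `2 m` such `v'` and `(1 - 2 ρ m) ^ (2 m) ≥ 1 - 4 m² ρ ≥ 1/2`
(Bernoulli). -/
def S_MM : Prop := ∀ (m i K : ℕ) (g H : ℤ[X]) (v : ℂ) (ρ B : ℝ), 1 ≤ m →
  IsPrimitiveRoot v (2 * m) → g = cyclotomic (2 * m) ℤ ^ i * H → 0 < ρ →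
  ρ ≤ 1 / (16 * (m : ℝ) ^ 2) →
  (∀ s : ℂ, ‖s‖ = ρ → ‖aeval (v * Complex.exp s) g‖ ≤ B * ‖v * Complex.exp s‖ ^ K) →
  ‖aeval v H‖ ≤ B * (4 / (ρ * ‖aeval v (derivative (cyclotomic (2 * m) ℤ))‖)) ^ i

/-- **JOB SZ1.**  Quantum factorials near a root of unity (`brR`, `gb`: module
`Pool.Agent.Q79.KvA`; `Fac`, `brf`: `Pool.Agent.Q79.KvE`, `KvB`).
Let `L = m (i + 1)`, `ρ = 1 / (16 L³)`, `u = v e^s`, `‖s‖ = ρ`.
(a) `0 < k < L`, `m ∤ k`: `‖brR u k - brR v k‖ ≤ ‖e^{ks} - 1‖ + ‖e^{-ks} - 1‖ ≤ 4 k ρ` and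
`‖brR v k‖ = ‖1 - (v²)^k‖ ≥ 2 / m` (`Pool.Agent.Q79.KV.norm_br`, `norm_ge`), so
`‖brR u k‖ / ‖brR v k‖` is in `[1 - 1/(8L), 1 + 1/(8L)] ⊆ [e^{-1/(4L)}, e^{1/(4L)}]`.
(b) `0 < k < L`, `m ∣ k`: `v^k = v^{-k} = ±1`, so `‖brR u k‖ = ‖e^{ks} - e^{-ks}‖`, and
`‖e^{ks} - e^{-ks} - 2ks‖ ≤ 2 (kρ)²`, so `‖brR u k‖ / (2 k ρ)` is in the same interval.
(c) So for `a < L`, `Π(a) = ∏_{k=1}^a ‖brR u k‖` is, up to a factor in `[e^{-1/4}, e^{1/4}]`, equal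
to `(2 m² ρ) ^ q q! ‖brf v r‖`, `q = a / m`, `r = a % m`: the product of `‖brR v k‖` over the
`k` not divisible by `m` of a full block is `∏_{k=1}^{m-1} ‖1 - (v²)^k‖ = m`
(`Pool.Agent.Q79.KV.norm_brf` and Mathlib's product of `1 - ζ^k`), `‖brR v (k + m)‖ = ‖brR v k‖`.
In particular `Π(a)` lies in `(2m²ρ)^q q! [e^{-D-1/4}, e^{D+1/4}]` and is not `0`.
(d) `gb u (j + n) j ∏_{t<n} brR u (t + 1) = ∏_{t<n} brR u (j + 1 + t)`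
(`Pool.Agent.Q79.KV.gb_prod`, module `KvK`), so with `a = j + n`,
`‖gb u a j‖ = Π(a) / (Π(j) Π(n)) ≤ (2m²ρ)^c (q_j + q_n + c)! / (q_j! q_n!) e^{3D + 3/4}` with
`c = q_a - q_j - q_n ∈ {0, 1}`; `2m²ρ ≤ 1` and the quotient of factorials is at most
`2^i (i + 1) ≤ 4^i`.  (`gb u a b = 0` for `a < b`: `gb_of_lt`.)
(e) `∏_{t<k} brR u (c - t) = Π(c) / Π(c - k)` in norm, at most
`(2m²ρ i)^{q_c - q_{c-k}} e^{2D + 1/2} ≤ e^{2D+1}`. -/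
def S_SZ1 : Prop := ∀ (m i : ℕ) (v s : ℂ) (D : ℝ) (u : ℂˣ), 1 ≤ m →
  IsPrimitiveRoot v (2 * m) → Fac m v D → ‖s‖ = 1 / (16 * ((m * (i + 1) : ℕ) : ℝ) ^ 3) →
  (u : ℂ) = v * Complex.exp s →
  (∀ a b : ℕ, a < m * (i + 1) → ‖gb u a b‖ ≤ 4 ^ (i + 1) * Real.exp (3 * D + 1)) ∧
  (∀ c k : ℕ, k ≤ c → c < m * (i + 1) →
    ‖∏ t ∈ range k, brR u ((c : ℤ) - t)‖ ≤ Real.exp (2 * D + 1))

/-- **JOB SZ2.**  Size of the state sum from the size of the entries (`G`, `aP`, `aN`: module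
`Pool.Agent.Q79.KX.Def`).
Proof: as `Pool.Agent.Q79.KV.cjones_le` (module `KvE`): entries have norm at most `γ² β²` (the
exponents of `u` are at most `10 L²` in absolute value), a row has at most `L` non-zero entries
(weight conservation: `Ent.row`), row sums of a generator and of the operator of the word:
`gen_row`, `rep_row` of `KvE` (`gen`, `rep` there are `gn`, `rp` over `ℂ`, by `rfl` or by
unfolding; the versions `gen_row'`, `rep_row'` of module `Pool.Agent.Q79.KuD` hold for any finite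
index type), so the operator has entries at most `(L γ² β²) ^ w.length`; there are `L ^ n` terms
with weights at most `γ ^ n`. -/
def S_SZ2 : Prop := ∀ (L n : ℕ) (w : List (ℕ × Bool)) (u : ℂˣ) (β γ : ℝ), 1 ≤ L → 1 ≤ β → 1 ≤ γ →
  (∀ k : ℤ, |k| ≤ 10 * (L : ℤ) ^ 2 → ‖((u ^ k : ℂˣ) : ℂ)‖ ≤ γ) →
  (∀ a b : ℕ, a < L → ‖gb u a b‖ ≤ β) →
  (∀ c k : ℕ, k ≤ c → c < L → ‖∏ t ∈ range k, brR u ((c : ℤ) - t)‖ ≤ β) →
  ‖G L n w u‖ ≤ (L * γ) ^ n * (L * (γ ^ 2 * β ^ 2)) ^ w.length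

/-- **JOB TH.**  `θ = Φ_m(u²)` divides `u^k - u^(-k)` for `m ∣ k`, and the Gaussian binomial
coefficient `gb u a b` when there is a carry.
Proof: `brR u k = u^(-k) (u^(2k) - 1)` and `Φ_m ∣ X^m - 1 ∣ X^k - 1` (`k ≥ 0`; `brR` is odd).
Second part: `Pool.Agent.Q79.KU.ga_gb` (module `KuC`): `gb u a b` is a unit times
`ga (u²) a b`; `ga (X : ℤ[X]) a b` is an integral polynomial with
`ga t a b = (ga X a b).eval₂ _ t` (`KU.map_ga`, module `KuA`); at a primitive `m`-th root `ζ ∈ ℂ` it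
vanishes if `a % m < b % m` (`Pool.Agent.Q79.KW.lucas` or `mod_le_of_ne`, module `KwA`, with a square
root `u₀` of `ζ`), so `cyclotomic m ℤ ∣ ga X a b` (`Pool.Agent.Q79.KV.cyc_dvd`, module `KvL`). -/
def S_TH : Prop := ∀ (R : Type) [CommRing R] (u : Rˣ) (m : ℕ), 1 ≤ m →
  (∀ k : ℤ, (m : ℤ) ∣ k →
    (cyclotomic m ℤ).eval₂ (Int.castRingHom R) ((u : R) ^ 2) ∣ brR u k) ∧
  (∀ a b : ℕ, a % m < b % m →
    (cyclotomic m ℤ).eval₂ (Int.castRingHom R) ((u : R) ^ 2) ∣ gb u a b)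

/-- **JOB EN.**  Divisibility of the entries of the crossings.
Proof: let `β = c / m - (c - k) / m`, the number of multiples of `m` in `(c - k, c]`, and
`α = (b + k) / m - b / m`.  `θ ^ β` divides the product.  Always `α ≤ β + 1`; if `α = β + 1` then
with `k = m κ + r` we have `α = κ + 1`, `b % m + r ≥ m`, so `(b + k) % m < b % m` and `θ` divides
`gb u (b + k) b`. -/
def S_EN : Prop := ∀ (R : Type) [CommRing R] (u : Rˣ) (m : ℕ) (θ : R), 1 ≤ m →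
  (∀ k : ℤ, (m : ℤ) ∣ k → θ ∣ brR u k) → (∀ a b : ℕ, a % m < b % m → θ ∣ gb u a b) →
  ∀ b k c e : ℕ, k ≤ c → (e ≤ (b + k) / m - b / m ∨ e ≤ c / m - (c - k) / m) →
    θ ^ e ∣ gb u (b + k) b * ∏ t ∈ range k, brR u ((c : ℤ) - t)

end Pool.Agent.Q79.KX
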