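import Mathlib
import Pool.Agent.Q79.KX.FilA
import Pool.Agent.Q79.KX.Stm

set_option autoImplicit false

open Finset

namespace Pool.Agent.Q79.KX

open Pool.Agent.Q79.KV

/-! ### Variation along a cycle -/

theorem path_le (f : ℕ → ℕ) (a b : ℕ) (hab : a ≤ b) :
    f b ≤ f a + ∑ i ∈ Ico a b, ds (f (i + 1)) (f i) ∧
    f a ≤ f b + ∑ i ∈ Ico a b, ds (f (i + 1)) (f i) := by
  induction b, hab using Nat.le_induction with
  | base => simp
  | succ b hab ih =>
    rw [Finset.sum_Ico_succ_top hab]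
    unfold ds at ih ⊢
    omega

theorem cycle_le {n : ℕ} {σ : Equiv.Perm (Fin (n + 1))}
    (hσ : ∀ x : Fin (n + 1), ∃ k : ℕ, (σ ^ k) 0 = x) (f : Fin (n + 1) → ℕ) (h0 : f 0 = 0)
    (x : Fin (n + 1)) :
    f (σ x) + f x ≤ ∑ y ∈ univ.erase x, ds (f (σ y)) (f y) := by
  classical
  have hper : ∃ K, 0 < K ∧ (σ ^ K) 0 = 0 := by
    refine ⟨orderOf σ, orderOf_pos σ, ?_⟩
    rw [pow_orderOf_eq_one]; rfl
  set K := Nat.find hper with hK
  have hK0 : 0 < K := (Nat.find_spec hper).1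
  have hKz : (σ ^ K) 0 = 0 := (Nat.find_spec hper).2
  have hKmin : ∀ i, 0 < i → i < K → (σ ^ i) 0 ≠ 0 := by
    intro i h1 h2 h3
    exact Nat.find_min hper h2 ⟨h1, h3⟩
  set g : ℕ → Fin (n + 1) := fun i => (σ ^ i) 0 with hg
  have hgs : ∀ i, g (i + 1) = σ (g i) := by
    intro i
    simp only [hg]
    rw [pow_succ', Equiv.Perm.mul_apply]
  have hinj : Set.InjOn g (range K) := by
    intro i hi j hj hij
    rw [Finset.coe_range, Set.mem_Iio] at hi hj
    by_contra hne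
    wlog hlt : i < j generalizing i j
    · exact this hj hi hij.symm (Ne.symm hne) (by omega)
    have h1 : (σ ^ i) ((σ ^ (j - i)) 0) = (σ ^ i) 0 := by
      rw [← Equiv.Perm.mul_apply, ← pow_add]
      have : i + (j - i) = j := by omega
      rw [this]
      exact hij.symm
    exact hKmin (j - i) (by omega) (by omega) ((σ ^ i).injective h1)
  have hmod : ∀ k, g k = g (k % K) := by
    intro k
    simp only [hg]
    conv_lhs => rw [← Nat.mod_add_div k K]
    rw [pow_add, Equiv.Perm.mul_apply, pow_mul]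
    have h1 : ∀ q : ℕ, ((σ ^ K) ^ q) 0 = 0 := by
      intro q
      induction q with
      | zero => rfl
      | succ q ih => rw [pow_succ, Equiv.Perm.mul_apply, hKz, ih]
    rw [h1]
  have himg : (range K).image g = univ := by
    rw [Finset.eq_univ_iff_forall]
    intro y
    obtain ⟨k, hk⟩ := hσ y
    rw [Finset.mem_image]
    exact ⟨k % K, Finset.mem_range.2 (Nat.mod_lt _ hK0), by rw [← hmod]; exact hk⟩
  have hxm : x ∈ (range K).image g := by rw [himg]; exact Finset.mem_univ _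
  rw [Finset.mem_image] at hxm
  obtain ⟨j, hj, hjx⟩ := hxm
  rw [Finset.mem_range] at hj
  have hA : ∑ y, ds (f (σ y)) (f y) = ∑ i ∈ range K, ds (f (g (i + 1))) (f (g i)) := by
    rw [← himg, Finset.sum_image hinj]
    apply Finset.sum_congr rfl
    intro i _
    rw [hgs]
  have hB : ∑ i ∈ range K, ds (f (g (i + 1))) (f (g i)) =
      ∑ i ∈ Ico 0 j, ds (f (g (i + 1))) (f (g i)) + ds (f (g (j + 1))) (f (g j)) +
        ∑ i ∈ Ico (j + 1) K, ds (f (g (i + 1))) (f (g i)) := by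
    rw [Finset.range_eq_Ico, ← Finset.sum_Ico_consecutive _ (Nat.zero_le j) (by omega : j ≤ K),
      Finset.sum_eq_sum_Ico_succ_bot (by omega : j < K), add_assoc]
  have hC := Finset.add_sum_erase univ (fun y => ds (f (σ y)) (f y)) (Finset.mem_univ x)
  have h1 := (path_le (fun i => f (g i)) 0 j (Nat.zero_le j)).1
  have h2 := (path_le (fun i => f (g i)) (j + 1) K (by omega)).2
  have e0 : f (g 0) = 0 := by
    have : g 0 = 0 := rfl
    rw [this, h0]
  have eK : f (g K) = 0 := by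
    have : g K = 0 := hKz
    rw [this, h0]
  have ej : g j = x := hjx
  have ej1 : g (j + 1) = σ x := by rw [hgs, ej]
  rw [e0, ej] at h1
  rw [eK, ej1] at h2
  rw [ej, ej1] at hB
  omega

theorem cycle_le' {n : ℕ} {σ : Equiv.Perm (Fin (n + 1))}
    (hσ : ∀ x : Fin (n + 1), ∃ k : ℕ, (σ ^ k) 0 = x) (f : Fin (n + 1) → ℕ) (h0 : f 0 = 0)
    (x : Fin (n + 1)) : 2 * f x ≤ ∑ y, ds (f (σ y)) (f y) := by
  have h1 := cycle_le hσ f h0 x
  rw [← Finset.add_sum_erase univ (fun y => ds (f (σ y)) (f y)) (Finset.mem_univ x)]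
  have h2 : f x ≤ f (σ x) + ds (f (σ x)) (f x) := by unfold ds; omega
  omega

section ring

variable {R : Type} [CommRing R]

theorem filt_aP (hEN : S_EN) {u : Rˣ} {m : ℕ} {θ : R} (hm : 1 ≤ m)
    (ha : ∀ k : ℤ, (m : ℤ) ∣ k → θ ∣ brR u k) (hb : ∀ a b : ℕ, a % m < b % m → θ ∣ gb u a b)
    (L : ℕ) : Filt θ (fun x : Fin L => (x : ℕ) / m) (aP L u) := by
  intro p q e he
  unfold aP
  split_ifs with hc
  · apply Dvd.dvd.mul_left
    obtain ⟨k, hk⟩ : ∃ k, (p.1 : ℕ) = q.2 + k := ⟨(p.1 : ℕ) - q.2, by omega⟩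
    have e1 : (p.1 : ℕ) - q.2 = k := by omega
    have e2 : (p.2 : ℕ) = q.1 - k := by omega
    have h1 := hEN R u m θ hm ha hb q.2 k q.1 e (by omega) (by
      simp only [e2, hk] at he
      unfold ds at he
      have h3 : (q.2 : ℕ) / m ≤ ((q.2 : ℕ) + k) / m := Nat.div_le_div_right (by omega)
      have h4 : ((q.1 : ℕ) - k) / m ≤ (q.1 : ℕ) / m := Nat.div_le_div_right (by omega)
      omega)
    rw [e1, hk]
    exact h1
  · exact dvd_zero _

theorem filt_aN (hEN : S_EN) {u : Rˣ} {m : ℕ} {θ : R} (hm : 1 ≤ m)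
    (ha : ∀ k : ℤ, (m : ℤ) ∣ k → θ ∣ brR u k) (hb : ∀ a b : ℕ, a % m < b % m → θ ∣ gb u a b)
    (L : ℕ) : Filt θ (fun x : Fin L => (x : ℕ) / m) (aN L u) := by
  intro p q e he
  unfold aN
  split_ifs with hc
  · apply Dvd.dvd.mul_left
    obtain ⟨k, hk⟩ : ∃ k, (p.2 : ℕ) = q.1 + k := ⟨(p.2 : ℕ) - q.1, by omega⟩
    have e1 : (p.2 : ℕ) - q.1 = k := by omega
    have e2 : (p.1 : ℕ) = q.2 - k := by omega
    have h1 := hEN R u m θ hm ha hb q.1 k q.2 e (by omega) (by
      simp only [e2, hk] at he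
      unfold ds at he
      have h3 : (q.1 : ℕ) / m ≤ ((q.1 : ℕ) + k) / m := Nat.div_le_div_right (by omega)
      have h4 : ((q.2 : ℕ) - k) / m ≤ (q.2 : ℕ) / m := Nat.div_le_div_right (by omega)
      omega)
    rw [e1, hk]
    exact h1
  · exact dvd_zero _

/-- **The truncated state sums of a knot converge in the `θ`-adic topology.** -/
theorem filt_G (hEN : S_EN) {u : Rˣ} {m : ℕ} {θ : R} (hm : 1 ≤ m)
    (ha : ∀ k : ℤ, (m : ℤ) ∣ k → θ ∣ brR u k) (hb : ∀ a b : ℕ, a % m < b % m → θ ∣ gb u a b)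
    {D L' n : ℕ} (hD : 1 ≤ D) (hL : m * D ≤ L') {w : List (ℕ × Bool)} (hw : IsKnot n w) :
    θ ^ D ∣ G L' n w u - G (m * D) n w u := by
  classical
  have hL0 : 0 < m * D := Nat.mul_pos hm hD
  have hL'0 : 0 < L' := lt_of_lt_of_le hL0 hL
  set d : Fin L' → ℕ := fun x => (x : ℕ) / m with hd
  have hP := filt_aP hEN hm ha hb L'
  have hQ := filt_aN hEN hm ha hb L'
  set e : Fin (m * D) → Fin L' := Fin.castLE hL with he
  have hinj : Function.Injective e := Fin.castLE_injective hL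
  have heq : ∀ x : Fin (m * D), ((e x : Fin L') : ℕ) = (x : ℕ) := fun x => rfl
  have hde : ∀ x : Fin L', d x < D ↔ x ∈ Set.range e := by
    intro x
    simp only [hd]
    rw [Nat.div_lt_iff_lt_mul hm, mul_comm]
    constructor
    · intro h
      exact ⟨⟨x, h⟩, Fin.ext rfl⟩
    · rintro ⟨y, rfl⟩
      rw [heq]
      exact y.2
  have hPP : ∀ p q : Fin (m * D) × Fin (m * D),
      aP L' u (e p.1, e p.2) (e q.1, e q.2) = aP (m * D) u p q := fun p q => rfl
  have hQQ : ∀ p q : Fin (m * D) × Fin (m * D),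
      aN L' u (e p.1, e p.2) (e q.1, e q.2) = aN (m * D) u p q := fun p q => rfl
  have hrp := rp_cut hinj hde hPP hQQ (n + 1) w
  have hcons : ∀ s : Fin n → Fin (m * D),
      (Fin.cons (⟨0, hL'0⟩ : Fin L') (e ∘ s) : Fin (n + 1) → Fin L') =
      e ∘ (Fin.cons (⟨0, hL0⟩ : Fin (m * D)) s : Fin (n + 1) → Fin (m * D)) := by
    intro s
    funext x
    refine Fin.cases ?_ (fun i => ?_) x
    · rfl
    · rfl
  -- the small sum as a sum over all states
  have hsmall : G (m * D) n w u = ∑ s : Fin n → Fin L', if (∀ x, d (s x) < D) then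
      (∏ x, (-((u ^ (-1 - 2 * (s x : ℤ)) : Rˣ) : R))) *
        rp (cut d D (aP L' u)) (cut d D (aN L' u)) (n + 1) w (Fin.cons ⟨0, hL'0⟩ s)
          (Fin.cons ⟨0, hL'0⟩ s) else 0 := by
    unfold G
    rw [dif_pos hL0]
    apply Fintype.sum_of_injective (fun s : Fin n → Fin (m * D) => e ∘ s) hinj.comp_left
    · intro s hs
      rw [if_neg]
      intro hall
      apply hs
      have h2 : ∀ x, s x ∈ Set.range e := fun x => (hde _).1 (hall x)
      choose r hr using h2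
      exact ⟨r, funext hr⟩
    · intro s
      have hall : ∀ x, d ((e ∘ s) x) < D := fun x => (hde _).2 ⟨s x, rfl⟩
      rw [if_pos hall, hcons, hrp]
      rfl
  rw [hsmall]
  unfold G
  rw [dif_pos hL'0, ← Finset.sum_sub_distrib]
  apply Finset.dvd_sum
  intro s _
  set s' : Fin (n + 1) → Fin L' := Fin.cons ⟨0, hL'0⟩ s with hs'
  have hf0 : (fun x => d (s' x)) 0 = 0 := by
    show (0 : ℕ) / m = 0
    exact Nat.zero_div m
  by_cases hall : ∀ x, d (s x) < D
  · rw [if_pos hall, ← mul_sub]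
    apply Dvd.dvd.mul_left
    apply cmp D hP hQ w s' s' (V := 2 * D) _ (by omega)
    intro x
    have h1 : d (s' ((permOf (n + 1) w) x)) + d (s' x) ≤
      ∑ y ∈ univ.erase x, ds (d (s' ((permOf (n + 1) w) y))) (d (s' y)) :=
      cycle_le hw.2 (fun x => d (s' x)) hf0 x
    show 2 * D ≤ (D - d (s' ((permOf (n + 1) w) x))) + (D - d (s' x)) +
      ∑ y ∈ univ.erase x, ds (d (s' ((permOf (n + 1) w) y))) (d (s' y))
    omega
  · rw [if_neg hall, sub_zero]
    apply Dvd.dvd.mul_left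
    push Not at hall
    obtain ⟨x, hx⟩ := hall
    apply rp_dvd hP hQ
    have h1 : 2 * d (s' x.succ) ≤ ∑ y, ds (d (s' ((permOf (n + 1) w) y))) (d (s' y)) :=
      cycle_le' hw.2 (fun x => d (s' x)) hf0 x.succ
    have h2 : D ≤ d (s' x.succ) := hx
    show 2 * D ≤ (∑ y, ds (d (s' ((permOf (n + 1) w) y))) (d (s' y))) + 1
    omega

end ring

end Pool.Agent.Q79.KX
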