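import Mathlib
import Pool.Agent.Q79.KX.FilB
import Pool.Agent.Q79.KvL
import Pool.Agent.Q79.KsD

set_option autoImplicit false

open Finset Polynomial

namespace Pool.Agent.Q79.KX

open Pool.Agent.Q79.KV

/-! ### The truncated state sums as polynomials -/

theorem exists_g (n : ℕ) (w : List (ℕ × Bool)) (L : ℕ) : ∃ (K : ℕ) (g : ℤ[X]),
    ∀ (S : Type) [CommRing S] (u : Sˣ),
      g.eval₂ (Int.castRingHom S) (u : S) = (u : S) ^ K * G L n w u := by
  obtain ⟨e0, P0, hP0⟩ := LaurentPolynomial.exists_T_pow (G L n w KS.TL)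
  refine ⟨e0, P0, ?_⟩
  intro S _ x
  have h1 := congrArg (LaurentPolynomial.eval₂ (Int.castRingHom S) x) hP0
  rw [LaurentPolynomial.eval₂_toLaurent, map_mul, LaurentPolynomial.eval₂_T_n] at h1
  have h2 := map_G (LaurentPolynomial.eval₂ (Int.castRingHom S) x) KS.TL L n w
  rw [KS.map_TL] at h2
  rw [h2] at h1
  rw [h1, mul_comm]

/-- the exponent -/
noncomputable def gK (n : ℕ) (w : List (ℕ × Bool)) (L : ℕ) : ℕ := (exists_g n w L).choose

/-- the polynomial of the truncated state sum -/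
noncomputable def gp (n : ℕ) (w : List (ℕ × Bool)) (L : ℕ) : ℤ[X] :=
  (exists_g n w L).choose_spec.choose

theorem gp_spec (n : ℕ) (w : List (ℕ × Bool)) (L : ℕ) (S : Type) [CommRing S] (u : Sˣ) :
    (gp n w L).eval₂ (Int.castRingHom S) (u : S) = (u : S) ^ gK n w L * G L n w u :=
  (exists_g n w L).choose_spec.choose_spec S u

/-- the cyclotomic polynomial of the primitive `2m`-th roots -/
noncomputable def Ps (m : ℕ) : ℤ[X] := cyclotomic (2 * m) ℤ

theorem Ps_root {m : ℕ} (hm : 1 ≤ m) {v : ℂ} (hv : IsPrimitiveRoot v (2 * m)) :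
    aeval v (Ps m) = 0 := by
  unfold Ps
  have i1 : NeZero ((2 * m : ℕ) : ℂ) := ⟨by exact_mod_cast (by omega : 2 * m ≠ 0)⟩
  rw [aeval_def, ← eval_map, algebraMap_int_eq, map_cyclotomic]
  exact (isRoot_cyclotomic_iff (R := ℂ)).2 hv

theorem prim_of_Ps {m : ℕ} (hm : 1 ≤ m) {v : ℂ} (h : aeval v (Ps m) = 0) :
    IsPrimitiveRoot v (2 * m) := by
  unfold Ps at h
  have i1 : NeZero ((2 * m : ℕ) : ℂ) := ⟨by exact_mod_cast (by omega : 2 * m ≠ 0)⟩
  rw [aeval_def, ← eval_map, algebraMap_int_eq, map_cyclotomic] at h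
  exact (isRoot_cyclotomic_iff (R := ℂ)).1 h

theorem Ps_prime {m : ℕ} (hm : 1 ≤ m) : Prime (Ps m) :=
  (cyclotomic.irreducible (by omega : 0 < 2 * m)).prime

theorem Ps_not_dvd {c m : ℕ} (hc : 1 ≤ c) (hm : 1 ≤ m) (hcm : c ≠ m) : ¬ Ps c ∣ Ps m := by
  intro h
  obtain ⟨Q, hQ⟩ := h
  have hv := Complex.isPrimitiveRoot_exp (2 * c) (by omega)
  have h1 := Ps_root hc hv
  have h2 : aeval (Complex.exp (2 * Real.pi * Complex.I / ((2 * c : ℕ) : ℂ))) (Ps m) = 0 := by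
    rw [hQ, map_mul, h1, zero_mul]
  have h3 := prim_of_Ps hm h2
  have := hv.unique h3
  omega

theorem Ps_coprime_X {m : ℕ} (hm : 1 ≤ m) (a e : ℕ) :
    IsCoprime (Ps m ^ e) ((X : ℤ[X]) ^ a) := by
  apply IsCoprime.pow
  have h0 : (Ps m).coeff 0 = 1 := cyclotomic_coeff_zero ℤ (by omega)
  have h1 : (X : ℤ[X]) ∣ Ps m - C 1 := by
    rw [X_dvd_iff, coeff_sub, h0, coeff_C_zero, sub_self]
  obtain ⟨Q, hQ⟩ := h1
  refine ⟨1, -Q, ?_⟩
  rw [C_1] at hQ
  linear_combination hQ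

/-- the filtration in the ring of polynomials -/
theorem filt_poly (hTH : S_TH) (hEN : S_EN) {m D L' n : ℕ} (hm : 1 ≤ m) (hD : 1 ≤ D)
    (hL : m * D ≤ L') {w : List (ℕ × Bool)} (hw : IsKnot n w) :
    Ps m ^ D ∣ X ^ gK n w (m * D) * gp n w L' - X ^ gK n w L' * gp n w (m * D) := by
  set A := AdjoinRoot (Ps m ^ D) with hA
  set r : A := AdjoinRoot.root (Ps m ^ D) with hr
  have hΨ : (aeval r (Ps m)) ^ D = 0 := by
    rw [← map_pow]
    have h1 := AdjoinRoot.aeval_eq (f := Ps m ^ D) (Ps m ^ D)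
    rw [AdjoinRoot.mk_self] at h1
    exact h1
  obtain ⟨Q, hQ⟩ : (X : ℤ[X]) ∣ Ps m - C 1 := by
    have h0 : (Ps m).coeff 0 = 1 := cyclotomic_coeff_zero ℤ (by omega)
    rw [X_dvd_iff, coeff_sub, h0, coeff_C_zero, sub_self]
  have hunit : IsUnit r := by
    have h1 : r * aeval r Q = aeval r (Ps m) - 1 := by
      have h2 := congrArg (aeval r) hQ
      rw [map_sub, map_mul, aeval_X, C_1, map_one] at h2
      exact h2.symm
    have h3 : IsUnit (aeval r (Ps m) - 1) := by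
      apply IsNilpotent.isUnit_sub_one
      exact ⟨D, hΨ⟩
    rw [← h1] at h3
    exact isUnit_of_mul_isUnit_left h3
  obtain ⟨u, hu⟩ := hunit
  obtain ⟨hth1, hth2⟩ := hTH A u m hm
  have hfil := filt_G hEN hm hth1 hth2 hD hL hw (n := n)
  -- `θ` is divisible by `Ψ`
  have hθ : aeval r (Ps m) ∣ (cyclotomic m ℤ).eval₂ (Int.castRingHom A) ((u : A) ^ 2) := by
    have hdv : Ps m ∣ (cyclotomic m ℤ).comp (X ^ 2) := by
      have hv := Complex.isPrimitiveRoot_exp (2 * m) (by omega)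
      apply cyc_dvd (by omega) hv
      rw [aeval_comp, map_pow, aeval_X]
      have i1 : NeZero ((m : ℕ) : ℂ) := ⟨by exact_mod_cast (by omega : m ≠ 0)⟩
      rw [aeval_def, ← eval_map, algebraMap_int_eq, map_cyclotomic]
      exact (isRoot_cyclotomic_iff (R := ℂ)).2 (hv.pow (by omega) rfl)
    obtain ⟨T, hT⟩ := hdv
    refine ⟨aeval r T, ?_⟩
    rw [← map_mul, ← hT, aeval_comp, map_pow, aeval_X, hu]
    rfl
  have hzero : G L' n w u - G (m * D) n w u = 0 := by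
    have h1 : (aeval r (Ps m)) ^ D ∣ G L' n w u - G (m * D) n w u :=
      (pow_dvd_pow_of_dvd hθ D).trans hfil
    rw [hΨ] at h1
    exact zero_dvd_iff.1 h1
  have h1 := gp_spec n w L' A u
  have h2 := gp_spec n w (m * D) A u
  have hmk : AdjoinRoot.mk (Ps m ^ D)
      (X ^ gK n w (m * D) * gp n w L' - X ^ gK n w L' * gp n w (m * D)) = 0 := by
    rw [← AdjoinRoot.aeval_eq, map_sub, map_mul, map_mul, map_pow, map_pow, aeval_X]
    have e1 : aeval r (gp n w L') = (gp n w L').eval₂ (Int.castRingHom A) (u : A) := by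
      rw [hu]; rfl
    have e2 : aeval r (gp n w (m * D)) = (gp n w (m * D)).eval₂ (Int.castRingHom A) (u : A) := by
      rw [hu]; rfl
    rw [← hr, e1, e2, h1, h2, ← hu]
    linear_combination ((u : A) ^ gK n w (m * D) * (u : A) ^ gK n w L') * hzero
  exact AdjoinRoot.mk_eq_zero.1 hmk

theorem dvd_up (hTH : S_TH) (hEN : S_EN) {m D e L' n : ℕ} (hm : 1 ≤ m) (hD : 1 ≤ D)
    (hL : m * D ≤ L') (he : e ≤ D) {w : List (ℕ × Bool)} (hw : IsKnot n w) :
    Ps m ^ e ∣ gp n w L' ↔ Ps m ^ e ∣ gp n w (m * D) := by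
  have h1 := (pow_dvd_pow (Ps m) he).trans (filt_poly hTH hEN hm hD hL hw)
  constructor
  · intro h
    have h2 : Ps m ^ e ∣ X ^ gK n w L' * gp n w (m * D) := by
      have h3 := dvd_sub (h.mul_left (X ^ gK n w (m * D))) h1
      rwa [sub_sub_cancel] at h3
    exact (Ps_coprime_X hm _ e).dvd_of_dvd_mul_left h2
  · intro h
    have h2 : Ps m ^ e ∣ X ^ gK n w (m * D) * gp n w L' := by
      have h3 := dvd_add h1 (h.mul_left (X ^ gK n w L'))
      rwa [sub_add_cancel] at h3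
    exact (Ps_coprime_X hm _ e).dvd_of_dvd_mul_left h2

/-- the vanishing order at the primitive `2m`-th roots is `i` -/
def Ord (n : ℕ) (w : List (ℕ × Bool)) (m i : ℕ) : Prop :=
  Ps m ^ i ∣ gp n w (m * (i + 1)) ∧ ¬ Ps m ^ (i + 1) ∣ gp n w (m * (i + 1))

/-- the key inequality -/
theorem key (hTH : S_TH) (hEN : S_EN) (hNL : S_NL) {m i L' n : ℕ} (hm : 1 ≤ m)
    {w : List (ℕ × Bool)} (hw : IsKnot n w) (ho : Ord n w m i) {H : ℤ[X]}
    (hH : gp n w (m * (i + 1)) = Ps m ^ i * H) (hL : m * (i + 1) ≤ L') (T : Finset ℕ)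
    (a e : ℕ → ℕ) (hT : ∀ p ∈ T, p.Prime ∧ ¬ p ∣ m ∧ 1 ≤ a p ∧
      Ps (m * p ^ a p) ^ e p ∣ gp n w L') :
    (Nat.totient (2 * m) : ℝ) * ∑ p ∈ T, (e p : ℝ) * Real.log p ≤
      Real.log (∏ v ∈ primitiveRoots (2 * m) ℂ, ‖aeval v H‖) := by
  have hΨ0 : Ps m ^ i ≠ 0 := pow_ne_zero _ (Ps_prime hm).ne_zero
  have hnd : ¬ Ps m ∣ H := by
    intro h
    apply ho.2
    rw [hH, pow_succ]
    exact mul_dvd_mul_left _ h
  obtain ⟨H', hH'⟩ := (dvd_up hTH hEN hm (Nat.succ_pos i) hL (Nat.le_succ i) hw).2 ho.1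
  have hcong : Ps m ∣ X ^ gK n w (m * (i + 1)) * H' - X ^ gK n w L' * H := by
    have h1 := filt_poly hTH hEN hm (Nat.succ_pos i) hL hw
    rw [Nat.succ_eq_add_one, hH, hH', pow_succ] at h1
    have e1 : X ^ gK n w (m * (i + 1)) * (Ps m ^ i * H') - X ^ gK n w L' * (Ps m ^ i * H) =
        Ps m ^ i * (X ^ gK n w (m * (i + 1)) * H' - X ^ gK n w L' * H) := by ring
    rw [e1] at h1
    exact (mul_dvd_mul_iff_left hΨ0).1 h1
  have hnorm : ∀ v : ℂ, IsPrimitiveRoot v (2 * m) → ‖aeval v H'‖ = ‖aeval v H‖ := by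
    intro v hv
    obtain ⟨Q, hQ⟩ := hcong
    have h1 := congrArg (aeval v) hQ
    rw [map_mul, Ps_root hm hv, zero_mul, map_sub, map_mul, map_mul, map_pow, map_pow, aeval_X,
      sub_eq_zero] at h1
    have h2 := congrArg (fun z : ℂ => ‖z‖) h1
    simp only [norm_mul, norm_pow] at h2
    have hvn : ‖v‖ = 1 := hv.norm'_eq_one (by omega)
    rwa [hvn, one_pow, one_pow, one_mul, one_mul] at h2
  have hv0 := Complex.isPrimitiveRoot_exp (2 * m) (by omega)
  set v0 : ℂ := Complex.exp (2 * Real.pi * Complex.I / ((2 * m : ℕ) : ℂ)) with hv0d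
  have hne : aeval v0 H' ≠ 0 := by
    rw [← norm_ne_zero_iff, hnorm v0 hv0, norm_ne_zero_iff]
    intro h
    exact hnd (cyc_dvd (by omega) hv0 h)
  have h1 := hNL m hm H' v0 hv0 hne T a e (fun p hp => by
    obtain ⟨h2, h3, h4, h5⟩ := hT p hp
    refine ⟨h2, h3, h4, ?_⟩
    have hc1 : 1 ≤ m * p ^ a p := Nat.mul_pos hm (pow_pos h2.pos _)
    have hcne : m * p ^ a p ≠ m := by
      intro h
      have h6 : 1 < p ^ a p := Nat.one_lt_pow (by omega) h2.one_lt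
      nlinarith
    rw [hH'] at h5
    exact (Ps_prime hc1).pow_dvd_of_dvd_mul_left (e p)
      (fun h => Ps_not_dvd hc1 hm hcne ((Ps_prime hc1).dvd_of_dvd_pow h)) h5)
  refine h1.trans (le_of_eq ?_)
  congr 1
  apply Finset.prod_congr rfl
  intro v hv
  rw [mem_primitiveRoots (by omega)] at hv
  exact hnorm v hv

end Pool.Agent.Q79.KX
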