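import Mathlib
import Pool.Agent.Q79.KX.Stm
import Pool.Agent.Q79.KuD

set_option autoImplicit false

open Finset

namespace Pool.Agent.Q79.KX

open Pool.Agent.Q79.KV

/-! ### Size of the universal state sum -/

theorem exp_bound {L a b : ℕ} (ha : a < L) (hb : b < L) {c d : ℕ} (hc : c < L) (hd : d < L) :
    |1 + (a : ℤ) + (b : ℤ) + 2 * (c : ℤ) * (d : ℤ)| ≤ 10 * (L : ℤ) ^ 2 := by
  have h1 : (a : ℤ) ≤ L := by omega
  have h2 : (b : ℤ) ≤ L := by omega
  have h3 : (c : ℤ) ≤ L := by omega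
  have h4 : (d : ℤ) ≤ L := by omega
  have h5 : (1 : ℤ) ≤ L := by omega
  have h6 : (c : ℤ) * d ≤ L * L := mul_le_mul h3 h4 (by omega) (by omega)
  have h7 : (0 : ℤ) ≤ (c : ℤ) * d := by positivity
  rw [abs_of_nonneg (by nlinarith)]
  nlinarith

theorem tri_bound {L k : ℕ} (hk : k < L) : |((k * (k - 1) / 2 : ℕ) : ℤ)| ≤ 10 * (L : ℤ) ^ 2 := by
  rw [abs_of_nonneg (by positivity)]
  have h1 : k * (k - 1) / 2 ≤ L * L :=
    (Nat.div_le_self _ _).trans (Nat.mul_le_mul hk.le (by omega))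
  have h2 : ((k * (k - 1) / 2 : ℕ) : ℤ) ≤ (L : ℤ) * L := by exact_mod_cast h1
  nlinarith

theorem sz2 : S_SZ2 := by
  intro L n w u β γ hL hβ hγ hu hgb hpr
  have hL0 : 0 < L := hL
  have hLr : (1 : ℝ) ≤ L := by exact_mod_cast hL
  have hnat : ∀ k : ℕ, |((k : ℕ) : ℤ)| ≤ 10 * (L : ℤ) ^ 2 → ‖((u ^ k : ℂˣ) : ℂ)‖ ≤ γ := by
    intro k hk
    have := hu (k : ℤ) hk
    rwa [zpow_natCast] at this
  have hinv : ∀ k : ℕ, |((k : ℕ) : ℤ)| ≤ 10 * (L : ℤ) ^ 2 → ‖(((u ^ k)⁻¹ : ℂˣ) : ℂ)‖ ≤ γ := by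
    intro k hk
    have := hu (-(k : ℤ)) (by rwa [abs_neg])
    rwa [zpow_neg, zpow_natCast] at this
  have hentry : ∀ x y z t : ℂ, ‖x‖ ≤ 1 → ‖y‖ ≤ γ → ‖z‖ ≤ γ → ‖t‖ ≤ β ^ 2 →
      ‖x * y * z * t‖ ≤ γ ^ 2 * β ^ 2 := by
    intro x y z t h1 h2 h3 h4
    rw [norm_mul, norm_mul, norm_mul]
    have e : γ ^ 2 * β ^ 2 = 1 * γ * γ * β ^ 2 := by ring
    rw [e]
    gcongr
  have hgp : ∀ x y : ℂ, ‖x‖ ≤ β → ‖y‖ ≤ β → ‖x * y‖ ≤ β ^ 2 := by
    intro x y h1 h2
    rw [norm_mul, sq]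
    gcongr
  have hsign : ∀ k : ℕ, ‖((-1 : ℂ)) ^ k‖ ≤ 1 := by
    intro k
    rw [norm_pow, norm_neg, norm_one, one_pow]
  have hEP : Ent L (aP L u) (γ ^ 2 * β ^ 2) := by
    refine ⟨fun p q hne => ?_, fun p q => ?_, by positivity⟩
    · unfold aP at hne
      split_ifs at hne with hc
      · exact hc.1
      · exact absurd rfl hne
    · unfold aP
      split_ifs with hc
      · apply hentry _ _ _ _ (hsign _)
        · exact hu _ (exp_bound q.1.2 q.2.2 p.1.2 p.2.2)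
        · exact hnat _ (tri_bound (by have := p.1.2; omega))
        · exact hgp _ _ (hgb _ _ p.1.2) (hpr _ _ (by omega) q.1.2)
      · rw [norm_zero]; positivity
  have hEN : Ent L (aN L u) (γ ^ 2 * β ^ 2) := by
    refine ⟨fun p q hne => ?_, fun p q => ?_, by positivity⟩
    · unfold aN at hne
      split_ifs at hne with hc
      · exact hc.1
      · exact absurd rfl hne
    · unfold aN
      split_ifs with hc
      · apply hentry _ _ _ _
        · rw [norm_mul]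
          have h1 := hsign ((p.2 : ℕ) - q.1)
          have h2 := hsign (1 + (q.1 : ℕ) + (q.2 : ℕ))
          calc _ ≤ (1 : ℝ) * 1 := by gcongr
            _ = 1 := by norm_num
        · exact hu _ (by rw [abs_neg]; exact exp_bound q.1.2 q.2.2 q.1.2 q.2.2)
        · exact hinv _ (tri_bound (by have := p.2.2; omega))
        · exact hgp _ _ (hgb _ _ p.2.2) (hpr _ _ (by omega) q.2.2)
      · rw [norm_zero]; positivity
  set B : ℝ := L * (γ ^ 2 * β ^ 2) with hB
  have hβ2 : 1 ≤ β ^ 2 := one_le_pow₀ hβ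
  have hγ2 : 1 ≤ γ ^ 2 := one_le_pow₀ hγ
  have hB1 : 1 ≤ B := by
    rw [hB]
    have h1 : 1 ≤ γ ^ 2 * β ^ 2 := by nlinarith
    nlinarith
  have hrpgen : ∀ (m : ℕ), rp (aP L u) (aN L u) m w = rep (aP L u) (aN L u) m w := fun m => rfl
  unfold G
  rw [dif_pos hL0]
  refine (norm_sum_le _ _).trans ?_
  calc ∑ s : Fin n → Fin L, ‖(∏ x, (-((u ^ (-1 - 2 * (s x : ℤ)) : ℂˣ) : ℂ))) *
        rp (aP L u) (aN L u) (n + 1) w (Fin.cons ⟨0, hL0⟩ s) (Fin.cons ⟨0, hL0⟩ s)‖ ≤
        ∑ s : Fin n → Fin L, γ ^ n * B ^ w.length := by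
        apply Finset.sum_le_sum
        intro s _
        rw [norm_mul, norm_prod]
        apply mul_le_mul _ _ (norm_nonneg _) (by positivity)
        · calc ∏ x, ‖(-((u ^ (-1 - 2 * (s x : ℤ)) : ℂˣ) : ℂ))‖ ≤ ∏ x : Fin n, γ := by
                apply Finset.prod_le_prod
                · intro x _; exact norm_nonneg _
                · intro x _
                  rw [norm_neg]
                  apply hu
                  have h1 : ((s x : ℕ) : ℤ) < L := by exact_mod_cast (s x).2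
                  have h2 : (0 : ℤ) ≤ ((s x : ℕ) : ℤ) := by positivity
                  rw [abs_le]
                  constructor <;> nlinarith
            _ = γ ^ n := by rw [Finset.prod_const, Finset.card_univ, Fintype.card_fin]
        · rw [hrpgen]
          refine le_trans ?_ (rep_row hB1 hEP.row hEN.row (n + 1) w (Fin.cons ⟨0, hL0⟩ s))
          exact Finset.single_le_sum (f := fun t => ‖rep (aP L u) (aN L u) (n + 1) w
            (Fin.cons ⟨0, hL0⟩ s) t‖) (fun t _ => norm_nonneg _) (Finset.mem_univ _)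
    _ = (L * γ) ^ n * B ^ w.length := by
        rw [Finset.sum_const, Finset.card_univ, Fintype.card_fun, Fintype.card_fin,
          Fintype.card_fin, nsmul_eq_mul, mul_pow]
        push_cast
        ring

end Pool.Agent.Q79.KX
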