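import Mathlib
import Pool.Agent.Q79.KX.PolA
import Pool.Agent.Q79.KX.SzB

set_option autoImplicit false

open Finset Polynomial

namespace Pool.Agent.Q79.KX

open Pool.Agent.Q79.KV

theorem prod_le_card (k : ℕ) : ∀ S : Finset ℕ, S.card = k → (∀ p ∈ S, 2 ≤ p) →
    ∏ p ∈ S, p ≤ (k + 1) * ∏ p ∈ S, (p - 1) := by
  induction k with
  | zero =>
    intro S hS _
    rw [Finset.card_eq_zero] at hS
    subst hS
    simp
  | succ k ih =>
    intro S hS h2
    have hne : S.Nonempty := by
      rw [← Finset.card_pos]; omega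
    set M := S.max' hne with hM
    have hMS : M ∈ S := Finset.max'_mem _ _
    have hcard : (S.erase M).card = k := by
      rw [Finset.card_erase_of_mem hMS]; omega
    have h3 := ih (S.erase M) hcard (fun p hp => h2 p (Finset.mem_of_mem_erase hp))
    have hMk : k + 2 ≤ M := by
      have h4 : S ⊆ Finset.Icc 2 M := by
        intro p hp
        rw [Finset.mem_Icc]
        exact ⟨h2 p hp, Finset.le_max' _ _ hp⟩
      have h5 := Finset.card_le_card h4
      rw [Nat.card_Icc] at h5
      omega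
    rw [← Finset.mul_prod_erase S (fun p => p) hMS, ← Finset.mul_prod_erase S (fun p => p - 1) hMS]
    have h6 : M * (k + 1) ≤ (k + 2) * (M - 1) := by
      obtain ⟨c, hc⟩ : ∃ c, M = k + 2 + c := ⟨M - (k + 2), by omega⟩
      rw [hc]
      have : k + 2 + c - 1 = k + 1 + c := by omega
      rw [this]
      nlinarith
    calc M * ∏ x ∈ S.erase M, x ≤ M * ((k + 1) * ∏ x ∈ S.erase M, (x - 1)) :=
          Nat.mul_le_mul_left _ h3
      _ = (M * (k + 1)) * ∏ x ∈ S.erase M, (x - 1) := by ring
      _ ≤ ((k + 2) * (M - 1)) * ∏ x ∈ S.erase M, (x - 1) := Nat.mul_le_mul_right _ h6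
      _ = (k + 1 + 1) * ((M - 1) * ∏ x ∈ S.erase M, (x - 1)) := by ring

theorem totient_ge (m : ℕ) : m ≤ (m.primeFactors.card + 1) * Nat.totient m := by
  have h1 := Nat.totient_mul_prod_primeFactors m
  have h2 := prod_le_card _ m.primeFactors rfl
    (fun p hp => (Nat.prime_of_mem_primeFactors hp).two_le)
  have hpos : 0 < ∏ p ∈ m.primeFactors, (p - 1) := by
    apply Finset.prod_pos
    intro p hp
    have := (Nat.prime_of_mem_primeFactors hp).two_le
    omega
  have h3 : m * ∏ p ∈ m.primeFactors, (p - 1) ≤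
      ((m.primeFactors.card + 1) * Nat.totient m) * ∏ p ∈ m.primeFactors, (p - 1) := by
    rw [← h1]
    calc Nat.totient m * ∏ p ∈ m.primeFactors, p ≤
          Nat.totient m * ((m.primeFactors.card + 1) * ∏ p ∈ m.primeFactors, (p - 1)) :=
          Nat.mul_le_mul_left _ h2
      _ = _ := by ring
  exact Nat.le_of_mul_le_mul_right h3 hpos

theorem totient_two_ge (m : ℕ) : m ≤ (m.primeFactors.card + 1) * Nat.totient (2 * m) := by
  rcases Nat.eq_zero_or_pos m with h | h
  · omega
  · refine (totient_ge m).trans (Nat.mul_le_mul_left _ ?_)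
    exact Nat.le_of_dvd (Nat.totient_pos.2 (by omega))
      (Nat.totient_dvd_of_dvd (Dvd.intro_left 2 rfl))

theorem der_ne {m : ℕ} (hm : 1 ≤ m) {v : ℂ} (hv : IsPrimitiveRoot v (2 * m)) :
    aeval v (derivative (cyclotomic (2 * m) ℤ)) ≠ 0 := by
  intro h
  have h1 := cyc_dvd (by omega) hv h
  have hmon : (cyclotomic (2 * m) ℤ).Monic := cyclotomic.monic _ _
  have hdeg : (cyclotomic (2 * m) ℤ).degree ≠ 0 := by
    rw [degree_cyclotomic]
    have := Nat.totient_pos.2 (by omega : 0 < 2 * m)
    exact_mod_cast this.ne'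
  have hne : cyclotomic (2 * m) ℤ ≠ 0 := cyclotomic_ne_zero _ _
  have h2 : derivative (cyclotomic (2 * m) ℤ) = 0 := by
    by_contra hd
    have h3 := degree_le_of_dvd h1 hd
    have h4 := degree_derivative_lt hne
    exact absurd h4 (not_lt.2 h3)
  have h3 := derivative_eq_zero.1 h2
  apply hdeg
  rw [degree_eq_natDegree hne, h3]
  rfl

end Pool.Agent.Q79.KX
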