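import Mathlib
import Pool.Agent.Q79.KX.AsmA

set_option autoImplicit false

open Finset Polynomial

namespace Pool.Agent.Q79.KX

open Pool.Agent.Q79.KV

theorem u_bound {L : ℕ} (hL : 1 ≤ L) {v s : ℂ} (hv : ‖v‖ = 1)
    (hs : ‖s‖ = 1 / (16 * (L : ℝ) ^ 3)) {u : ℂˣ} (hu : (u : ℂ) = v * Complex.exp s) :
    ∀ k : ℤ, |k| ≤ 10 * (L : ℤ) ^ 2 → ‖((u ^ k : ℂˣ) : ℂ)‖ ≤ Real.exp 1 := by
  intro k hk
  have hLr : (1 : ℝ) ≤ L := by exact_mod_cast hL
  have hn : ‖(u : ℂ)‖ = Real.exp s.re := by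
    rw [hu, norm_mul, hv, one_mul, Complex.norm_exp]
  have hn2 : Real.exp s.re ^ k = Real.exp (k * s.re) := by
    rw [← Real.rpow_intCast, ← Real.exp_mul, mul_comm]
  rw [Units.val_zpow_eq_zpow_val, norm_zpow, hn, hn2]
  apply Real.exp_le_exp.2
  have h1 : |s.re| ≤ 1 / (16 * (L : ℝ) ^ 3) := by
    rw [← hs]; exact Complex.abs_re_le_norm s
  have h2 : |(k : ℝ)| ≤ 10 * (L : ℝ) ^ 2 := by
    have : ((|k| : ℤ) : ℝ) ≤ ((10 * (L : ℤ) ^ 2 : ℤ) : ℝ) := by exact_mod_cast hk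
    rw [Int.cast_abs] at this
    push_cast at this
    exact this
  calc (k : ℝ) * s.re ≤ |(k : ℝ) * s.re| := le_abs_self _
    _ = |(k : ℝ)| * |s.re| := abs_mul _ _
    _ ≤ (10 * (L : ℝ) ^ 2) * (1 / (16 * (L : ℝ) ^ 3)) := by
        apply mul_le_mul h2 h1 (abs_nonneg _) (by positivity)
    _ = (10 / 16) * (1 / L) := by
        field_simp
    _ ≤ 1 := by
        have : 1 / (L : ℝ) ≤ 1 := by
          rw [div_le_one (by linarith)]; exact hLr
        linarith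

theorem log_four_le : Real.log 4 ≤ 1.4 := by
  have h1 : Real.log 4 = 2 * Real.log 2 := by
    have : (4 : ℝ) = 2 ^ 2 := by norm_num
    rw [this, Real.log_pow]; norm_num
  have h2 := Real.log_two_lt_d9
  rw [h1]; linarith

theorem G_bound (hSZ : S_SZ1) {m i : ℕ} (n : ℕ) (w : List (ℕ × Bool)) (hm : 1 ≤ m) {v s : ℂ}
    {D : ℝ} {u : ℂˣ} (hv : IsPrimitiveRoot v (2 * m)) (hF : Fac m v D)
    (hs : ‖s‖ = 1 / (16 * ((m * (i + 1) : ℕ) : ℝ) ^ 3)) (hu : (u : ℂ) = v * Complex.exp s) :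
    ‖G (m * (i + 1)) n w u‖ ≤ Real.exp ((n + w.length) *
      (Real.log ((m * (i + 1) : ℕ) : ℝ) + 4 + 6 * D + 3 * (i + 1))) := by
  have hL : 1 ≤ m * (i + 1) := Nat.mul_pos hm (Nat.succ_pos i)
  set L := m * (i + 1) with hLd
  have hLr : (1 : ℝ) ≤ (L : ℝ) := by exact_mod_cast hL
  have hD : 0 ≤ D := by
    have h1 := (hF.2 0 hm).2
    unfold brf at h1
    rw [Finset.prod_range_zero, norm_one] at h1
    by_contra hcon
    have := Real.exp_lt_one_iff.2 (not_le.1 hcon)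
    linarith
  obtain ⟨h1, h2⟩ := hSZ m i v s D u hm hv hF hs hu
  set β : ℝ := 4 ^ (i + 1) * Real.exp (3 * D + 1) with hβ
  have h4 : (1 : ℝ) ≤ 4 ^ (i + 1) := one_le_pow₀ (by norm_num)
  have hβ1 : Real.exp (2 * D + 1) ≤ β := by
    have h5 : Real.exp (2 * D + 1) ≤ Real.exp (3 * D + 1) := Real.exp_le_exp.2 (by linarith)
    have h6 := Real.exp_pos (3 * D + 1)
    rw [hβ]
    nlinarith
  have hβ0 : 1 ≤ β := le_trans (Real.one_le_exp (by linarith)) hβ1
  have h3 := sz2 L n w u β (Real.exp 1) hL hβ0 (Real.one_le_exp (by norm_num))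
    (u_bound hL hF.1 hs hu) h1 (fun c k hk hc => (h2 c k hk hc).trans hβ1)
  refine h3.trans ?_
  have hexpL : Real.exp (Real.log L) = L := Real.exp_log (by linarith)
  have hA : (L : ℝ) * Real.exp 1 = Real.exp (Real.log L + 1) := by
    rw [Real.exp_add, hexpL]
  have hB : (L : ℝ) * (Real.exp 1 ^ 2 * β ^ 2) ≤
      Real.exp (Real.log L + 4 + 6 * D + 3 * (i + 1)) := by
    have h5 : (4 : ℝ) ^ (i + 1) = Real.exp (((i + 1 : ℕ) : ℝ) * Real.log 4) := by
      rw [Real.exp_nat_mul, Real.exp_log (by norm_num)]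
    have h6 : (L : ℝ) * (Real.exp 1 ^ 2 * β ^ 2) =
        Real.exp (Real.log L + 4 + 6 * D + 2 * ((i + 1 : ℕ) * Real.log 4)) := by
      rw [hβ, h5, ← Real.exp_add, ← Real.exp_nat_mul, ← Real.exp_nat_mul, ← Real.exp_add,
        ← hexpL, ← Real.exp_add, hexpL]
      congr 1
      push_cast
      ring
    rw [h6]
    apply Real.exp_le_exp.2
    have h7 := log_four_le
    push_cast
    have h8 : (0 : ℝ) ≤ i := Nat.cast_nonneg i
    nlinarith
  rw [hA]
  calc Real.exp (Real.log L + 1) ^ n * ((L : ℝ) * (Real.exp 1 ^ 2 * β ^ 2)) ^ w.length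
      ≤ Real.exp (Real.log L + 4 + 6 * D + 3 * (i + 1)) ^ n *
        Real.exp (Real.log L + 4 + 6 * D + 3 * (i + 1)) ^ w.length := by
        have h8 : (0 : ℝ) ≤ i := Nat.cast_nonneg i
        have h9 : Real.exp (Real.log L + 1) ≤ Real.exp (Real.log L + 4 + 6 * D + 3 * (i + 1)) :=
          Real.exp_le_exp.2 (by linarith)
        gcongr
    _ = _ := by
        rw [← pow_add, ← Real.exp_nat_mul]
        push_cast
        ring_nf

/-- the value of the quotient at one root -/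
theorem H_bound (hMM : S_MM) (hSZ : S_SZ1) {m i n : ℕ} {w : List (ℕ × Bool)} (hm : 1 ≤ m)
    {H : ℤ[X]} (hH : gp n w (m * (i + 1)) = Ps m ^ i * H) {v : ℂ} {D : ℝ}
    (hv : IsPrimitiveRoot v (2 * m)) (hF : Fac m v D) (hne : aeval v H ≠ 0) :
    Real.log ‖aeval v H‖ ≤ (n + w.length) *
      (Real.log ((m * (i + 1) : ℕ) : ℝ) + 4 + 6 * D + 3 * (i + 1)) +
      i * (Real.log 64 + 3 * Real.log ((m * (i + 1) : ℕ) : ℝ)) -
      i * Real.log ‖aeval v (derivative (cyclotomic (2 * m) ℤ))‖ := by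
  have hL : 1 ≤ m * (i + 1) := Nat.mul_pos hm (Nat.succ_pos i)
  set L := m * (i + 1) with hLd
  have hLr : (1 : ℝ) ≤ (L : ℝ) := by exact_mod_cast hL
  have hmr : (1 : ℝ) ≤ (m : ℝ) := by exact_mod_cast hm
  have hmL : (m : ℝ) ≤ L := by
    exact_mod_cast (Nat.le_mul_of_pos_right m (Nat.succ_pos i))
  set ρ : ℝ := 1 / (16 * (L : ℝ) ^ 3) with hρ
  have hρ0 : 0 < ρ := by positivity
  have hρm : ρ ≤ 1 / (16 * (m : ℝ) ^ 2) := by
    rw [hρ]
    apply one_div_le_one_div_of_le (by positivity)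
    have h1 : (m : ℝ) ^ 2 ≤ (L : ℝ) ^ 2 := by gcongr
    have h2 : (L : ℝ) ^ 2 ≤ (L : ℝ) ^ 3 := pow_le_pow_right₀ hLr (by norm_num)
    linarith
  set B : ℝ := Real.exp ((n + w.length) *
      (Real.log (L : ℝ) + 4 + 6 * D + 3 * (i + 1))) with hB
  have h1 := hMM m i (gK n w L) (gp n w L) H v ρ B hm hv hH hρ0 hρm (by
    intro s hs
    have hv0 : v ≠ 0 := hv.ne_zero (by omega)
    have hx0 : v * Complex.exp s ≠ 0 := mul_ne_zero hv0 (Complex.exp_ne_zero s)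
    have h2 := gp_spec n w L ℂ (Units.mk0 _ hx0)
    have h3 : aeval (v * Complex.exp s) (gp n w L) =
        (gp n w L).eval₂ (Int.castRingHom ℂ) ((Units.mk0 _ hx0 : ℂˣ) : ℂ) := rfl
    rw [h3, h2, norm_mul, norm_pow, Units.val_mk0, mul_comm]
    apply mul_le_mul_of_nonneg_right _ (by positivity)
    exact G_bound hSZ n w hm hv hF hs rfl)
  have hpos : 0 < ‖aeval v H‖ := norm_pos_iff.2 hne
  have hd : 0 < ‖aeval v (derivative (cyclotomic (2 * m) ℤ))‖ := norm_pos_iff.2 (der_ne hm hv)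
  have h2 := Real.log_le_log hpos h1
  rw [Real.log_mul (Real.exp_pos _).ne' (by positivity), Real.log_exp, Real.log_pow,
    Real.log_div (by norm_num) (by positivity), Real.log_mul hρ0.ne' hd.ne'] at h2
  have h3 : Real.log ρ = - (Real.log 16 + 3 * Real.log L) := by
    rw [hρ, one_div, Real.log_inv, Real.log_mul (by norm_num) (by positivity), Real.log_pow]
    norm_num
  have h4 : Real.log 64 = Real.log 4 + Real.log 16 := by
    rw [← Real.log_mul (by norm_num) (by norm_num)]; norm_num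
  rw [h3] at h2
  rw [h4]
  linarith

end Pool.Agent.Q79.KX
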