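import Mathlib
import Pool.Agent.Q79.KX.AsmB

set_option autoImplicit false

open Finset Polynomial

namespace Pool.Agent.Q79.KX

open Pool.Agent.Q79.KV

/-! ### The vanishing orders -/

theorem ord_unique (hTH : S_TH) (hEN : S_EN) {m i j n : ℕ} (hm : 1 ≤ m) {w : List (ℕ × Bool)}
    (hw : IsKnot n w) (hi : Ord n w m i) (hj : Ord n w m j) : i = j := by
  wlog hij : i < j generalizing i j
  · rcases Nat.lt_trichotomy i j with h | h | h
    · exact this hi hj h
    · exact h
    · exact (this hj hi h).symm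
  exfalso
  apply hi.2
  have hle : m * (i + 1) ≤ m * (j + 1) := Nat.mul_le_mul_left m (by omega)
  rw [← dvd_up hTH hEN hm (Nat.succ_pos i) hle le_rfl hw]
  exact (pow_dvd_pow _ hij).trans hj.1

theorem G_one_unit {n : ℕ} {w : List (ℕ × Bool)} (hw : IsKnot n w) :
    IsUnit (G 1 n w (-1 : ℤˣ)) := by
  rw [← cj_G (by simp)]
  exact cj_unit (by simp) one_pos hw

theorem ord_one {n : ℕ} {w : List (ℕ × Bool)} (hw : IsKnot n w) : Ord n w 1 0 := by
  refine ⟨by rw [pow_zero]; exact one_dvd _, ?_⟩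
  intro h
  obtain ⟨Q, hQ⟩ := h
  have h1 := gp_spec n w (1 * (0 + 1)) ℤ (-1 : ℤˣ)
  rw [hQ, eval₂_mul, eval₂_pow] at h1
  have h2 : (Ps 1).eval₂ (Int.castRingHom ℤ) (((-1 : ℤˣ)) : ℤ) = 0 := by
    unfold Ps
    rw [mul_one, cyclotomic_two, eval₂_add, eval₂_X, eval₂_one]
    simp
  rw [h2, zero_add, pow_one, zero_mul] at h1
  have h3 : IsUnit ((((-1 : ℤˣ) : ℤ)) ^ gK n w (1 * (0 + 1)) * G (1 * (0 + 1)) n w (-1 : ℤˣ)) := by
    apply IsUnit.mul
    · exact (Units.isUnit _).pow _
    · exact G_one_unit hw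
  rw [← h1] at h3
  exact not_isUnit_zero h3

theorem exists_ord (hTH : S_TH) (hEN : S_EN) (hNL : S_NL) {n : ℕ} {w : List (ℕ × Bool)}
    (hw : IsKnot n w) : ∀ m : ℕ, 1 ≤ m → ∃ i, Ord n w m i := by
  intro m
  induction m using Nat.strong_induction_on with
  | _ m ih =>
    intro hm
    rcases Nat.lt_or_ge 1 m with h1 | h1
    · set p := m.minFac with hp
      have hpp : p.Prime := Nat.minFac_prime (by omega)
      set a := m.factorization p with ha
      set m' := m / p ^ a with hm'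
      have hmm : m' * p ^ a = m := Nat.div_mul_cancel (Nat.ordProj_dvd m p)
      have hpm' : ¬ p ∣ m' := Nat.not_dvd_ordCompl hpp (by omega)
      have ha1 : 1 ≤ a := by
        have : p ∣ m := Nat.minFac_dvd m
        exact (hpp.dvd_iff_one_le_factorization (by omega)).1 this
      have hm'1 : 1 ≤ m' := Nat.pos_of_ne_zero (by
        intro h
        rw [h, zero_mul] at hmm
        omega)
      have hlt : m' < m := by
        have : 1 < p ^ a := Nat.one_lt_pow (by omega) hpp.one_lt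
        nlinarith
      obtain ⟨i', hi'⟩ := ih m' hlt hm'1
      obtain ⟨H, hH⟩ := hi'.1
      by_contra hcon
      push Not at hcon
      have hall : ∀ i, Ps m ^ i ∣ gp n w (m * (i + 1)) := by
        intro i
        induction i with
        | zero => rw [pow_zero]; exact one_dvd _
        | succ i ihi =>
          have h2 : Ps m ^ (i + 1) ∣ gp n w (m * (i + 1)) := by
            by_contra h3
            exact hcon i ⟨ihi, h3⟩
          rw [dvd_up hTH hEN hm (Nat.succ_pos i) (Nat.mul_le_mul_left m (by omega)) le_rfl hw]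
          exact h2
      set Z := Real.log (∏ v ∈ primitiveRoots (2 * m') ℂ, ‖aeval v H‖) with hZ
      have hlog : 0 < Real.log p := Real.log_pos (by exact_mod_cast hpp.one_lt)
      have hφ : (1 : ℝ) ≤ (Nat.totient (2 * m') : ℝ) := by
        exact_mod_cast Nat.totient_pos.2 (by omega : 0 < 2 * m')
      have hbound : ∀ i : ℕ, i' ≤ i → (i : ℝ) * Real.log p ≤ Z := by
        intro i hi
        have hL : m' * (i' + 1) ≤ m * (i + 1) := Nat.mul_le_mul hlt.le (by omega)
        have h2 := key hTH hEN hNL hm'1 hw hi' hH hL {p} (fun _ => a) (fun _ => i) (by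
          intro q hq
          rw [Finset.mem_singleton] at hq
          subst hq
          refine ⟨hpp, hpm', ha1, ?_⟩
          rw [hmm]
          exact hall i)
        rw [Finset.sum_singleton] at h2
        have h3 : (i : ℝ) * Real.log p ≤ (Nat.totient (2 * m') : ℝ) * ((i : ℝ) * Real.log p) := by
          have : 0 ≤ (i : ℝ) * Real.log p := by positivity
          nlinarith
        exact h3.trans h2
      obtain ⟨i, hi⟩ := exists_nat_gt (Z / Real.log p)
      have h2 := hbound (i' + i) (by omega)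
      rw [div_lt_iff₀ hlog] at hi
      push_cast at h2
      have h3 : 0 ≤ (i' : ℝ) * Real.log p := by positivity
      nlinarith
    · have : m = 1 := by omega
      subst this
      exact ⟨0, ord_one hw⟩

open Classical in
/-- the vanishing order -/
noncomputable def II (n : ℕ) (w : List (ℕ × Bool)) (m : ℕ) : ℕ :=
  if h : ∃ i, Ord n w m i then h.choose else 0

theorem II_spec (hTH : S_TH) (hEN : S_EN) (hNL : S_NL) {n : ℕ} {w : List (ℕ × Bool)}
    (hw : IsKnot n w) {m : ℕ} (hm : 1 ≤ m) : Ord n w m (II n w m) := by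
  have h := exists_ord hTH hEN hNL hw m hm
  unfold II
  rw [dif_pos h]
  exact h.choose_spec

open Classical in
/-- the quotient -/
noncomputable def HH (n : ℕ) (w : List (ℕ × Bool)) (m : ℕ) : ℤ[X] :=
  if h : ∃ H, gp n w (m * (II n w m + 1)) = Ps m ^ (II n w m) * H then h.choose else 0

theorem HH_spec (hTH : S_TH) (hEN : S_EN) (hNL : S_NL) {n : ℕ} {w : List (ℕ × Bool)}
    (hw : IsKnot n w) {m : ℕ} (hm : 1 ≤ m) :
    gp n w (m * (II n w m + 1)) = Ps m ^ (II n w m) * HH n w m := by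
  have h : ∃ H, gp n w (m * (II n w m + 1)) = Ps m ^ (II n w m) * H :=
    (II_spec hTH hEN hNL hw hm).1
  unfold HH
  rw [dif_pos h]
  exact h.choose_spec

theorem HH_ne (hTH : S_TH) (hEN : S_EN) (hNL : S_NL) {n : ℕ} {w : List (ℕ × Bool)}
    (hw : IsKnot n w) {m : ℕ} (hm : 1 ≤ m) {v : ℂ} (hv : IsPrimitiveRoot v (2 * m)) :
    aeval v (HH n w m) ≠ 0 := by
  intro h
  have h1 : Ps m ∣ HH n w m := cyc_dvd (by omega) hv h
  apply (II_spec hTH hEN hNL hw hm).2
  rw [HH_spec hTH hEN hNL hw hm, pow_succ]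
  exact mul_dvd_mul_left _ h1

/-- the normalised logarithm of the norm -/
noncomputable def ZZ (n : ℕ) (w : List (ℕ × Bool)) (m : ℕ) : ℝ :=
  Real.log (∏ v ∈ primitiveRoots (2 * m) ℂ, ‖aeval v (HH n w m)‖) / (Nat.totient (2 * m) : ℝ)

/-- a level at which the Kashaev invariant vanishes -/
def Bad (n : ℕ) (w : List (ℕ × Bool)) (N : ℕ) : Prop :=
  1 ≤ N ∧ ∃ v : ℂ, IsPrimitiveRoot v (2 * N) ∧ cjones N n w v = 0

theorem prim_pow {N : ℕ} (hN : 1 ≤ N) {v : ℂ} (hv : IsPrimitiveRoot v (2 * N)) : v ^ N = -1 := by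
  have h1 : (v ^ N) ^ 2 = 1 := by rw [← pow_mul, mul_comm, hv.pow_eq_one]
  have h2 : (v ^ N - 1) * (v ^ N + 1) = 0 := by linear_combination h1
  rcases mul_eq_zero.1 h2 with h | h
  · exfalso
    exact hv.pow_ne_one_of_pos_of_lt (by omega) (by omega) (sub_eq_zero.1 h)
  · exact eq_neg_of_add_eq_zero_left h

theorem bad_dvd {n : ℕ} {w : List (ℕ × Bool)} {N : ℕ} (h : Bad n w N) :
    Ps N ∣ gp n w (N * (0 + 1)) := by
  obtain ⟨hN, v, hv, h0⟩ := h
  apply cyc_dvd (by omega) hv
  have hv0 : v ≠ 0 := hv.ne_zero (by omega)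
  have h1 := gp_spec n w (N * (0 + 1)) ℂ (Units.mk0 v hv0)
  have h2 : aeval v (gp n w (N * (0 + 1))) =
      (gp n w (N * (0 + 1))).eval₂ (Int.castRingHom ℂ) ((Units.mk0 v hv0 : ℂˣ) : ℂ) := rfl
  rw [h2, h1]
  have h3 := cj_eq hv0 (fun k h1 h2 => br_ne hv hN h1 (by omega)) n w
  have hu : (Units.mk0 v hv0) ^ N = -1 := by
    ext
    rw [Units.val_pow_eq_pow_val, Units.val_mk0, prim_pow hN hv]
    simp
  have h4 := cj_G hu n w
  have e : N * (0 + 1) = N := by ring
  rw [e, ← h4, h3, h0, mul_zero]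

end Pool.Agent.Q79.KX
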