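import Mathlib
import Pool.Agent.Q79.KX.AsmC

set_option autoImplicit false

open Finset Polynomial

namespace Pool.Agent.Q79.KX

open Pool.Agent.Q79.KV

/-! ### The recursion -/

theorem fac_one {v : ℂ} (hv : ‖v‖ = 1) : Fac 1 v 0 := by
  refine ⟨hv, fun m hm => ?_⟩
  have : m = 0 := by omega
  subst this
  unfold brf
  simp

/-- bounds `D` for all roots with a small sum -/
theorem exists_D {m : ℕ} (hm : 1 ≤ m) : ∃ D : ℂ → ℝ,
    (∀ v, IsPrimitiveRoot v (2 * m) → Fac m v (D v)) ∧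
    ∑ v ∈ primitiveRoots (2 * m) ℂ, D v ≤ 27 * m * (Real.log m) ^ 2 := by
  rcases Nat.lt_or_ge m 2 with h | h
  · have : m = 1 := by omega
    subst this
    refine ⟨fun _ => 0, fun v hv => fac_one (hv.norm'_eq_one (by omega)), ?_⟩
    simp
  · exact ⟨fun v => DD m (v ^ 2), fun v hv => fac_DD h hv, sum_DD h⟩

theorem Z_bound (hTH : S_TH) (hEN : S_EN) (hNL : S_NL) (hMM : S_MM) (hSZ : S_SZ1) {n : ℕ}
    {w : List (ℕ × Bool)} (hw : IsKnot n w) {m : ℕ} (hm : 1 ≤ m) :
    ZZ n w m ≤ (n + w.length) *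
      (Real.log ((m * (II n w m + 1) : ℕ) : ℝ) + 4 + 3 * (II n w m + 1)) +
      (II n w m) * (Real.log 64 + 3 * Real.log ((m * (II n w m + 1) : ℕ) : ℝ)) +
      162 * (n + w.length) * ((m.primeFactors.card : ℝ) + 1) * (Real.log m) ^ 2 := by
  set i := II n w m with hi
  obtain ⟨D, hD1, hD2⟩ := exists_D hm
  have hφ : 0 < Nat.totient (2 * m) := Nat.totient_pos.2 (by omega)
  have hφr : (0 : ℝ) < (Nat.totient (2 * m) : ℝ) := by exact_mod_cast hφ
  have hcard : ((primitiveRoots (2 * m) ℂ).card : ℝ) = (Nat.totient (2 * m) : ℝ) := by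
    rw [Complex.card_primitiveRoots]
  have hv0 := Complex.isPrimitiveRoot_exp (2 * m) (by omega)
  have hder : 0 ≤ ∑ v ∈ primitiveRoots (2 * m) ℂ,
      Real.log ‖aeval v (derivative (cyclotomic (2 * m) ℤ))‖ := by
    rw [← Real.log_prod (fun v hv => norm_ne_zero_iff.2
      (der_ne hm ((mem_primitiveRoots (by omega)).1 hv)))]
    exact Real.log_nonneg (prod_norm_gen (by omega) hv0 (der_ne hm hv0))
  have hsum : Real.log (∏ v ∈ primitiveRoots (2 * m) ℂ, ‖aeval v (HH n w m)‖) ≤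
      (Nat.totient (2 * m) : ℝ) * ((n + w.length) *
      (Real.log ((m * (i + 1) : ℕ) : ℝ) + 4 + 3 * (i + 1)) +
      i * (Real.log 64 + 3 * Real.log ((m * (i + 1) : ℕ) : ℝ))) +
      162 * (n + w.length) * m * (Real.log m) ^ 2 := by
    rw [Real.log_prod (fun v hv => norm_ne_zero_iff.2
      (HH_ne hTH hEN hNL hw hm ((mem_primitiveRoots (by omega)).1 hv)))]
    have h1 : ∀ v ∈ primitiveRoots (2 * m) ℂ, Real.log ‖aeval v (HH n w m)‖ ≤
        ((n + w.length) * (Real.log ((m * (i + 1) : ℕ) : ℝ) + 4 + 3 * (i + 1)) +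
          i * (Real.log 64 + 3 * Real.log ((m * (i + 1) : ℕ) : ℝ))) +
        (6 * (n + w.length) * D v -
          i * Real.log ‖aeval v (derivative (cyclotomic (2 * m) ℤ))‖) := by
      intro v hv
      rw [mem_primitiveRoots (by omega)] at hv
      have h2 := H_bound hMM hSZ hm (HH_spec hTH hEN hNL hw hm) hv (hD1 v hv)
        (HH_ne hTH hEN hNL hw hm hv)
      refine h2.trans (le_of_eq ?_)
      ring
    refine (Finset.sum_le_sum h1).trans ?_
    rw [Finset.sum_add_distrib, Finset.sum_const, nsmul_eq_mul, hcard, Finset.sum_sub_distrib,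
      ← Finset.mul_sum, ← Finset.mul_sum]
    have h3 : 6 * ((n : ℝ) + w.length) * ∑ v ∈ primitiveRoots (2 * m) ℂ, D v ≤
        6 * ((n : ℝ) + w.length) * (27 * m * (Real.log m) ^ 2) :=
      mul_le_mul_of_nonneg_left hD2 (by positivity)
    have h4 : 0 ≤ (i : ℝ) * ∑ v ∈ primitiveRoots (2 * m) ℂ,
        Real.log ‖aeval v (derivative (cyclotomic (2 * m) ℤ))‖ :=
      mul_nonneg (Nat.cast_nonneg i) hder
    linarith
  unfold ZZ
  rw [div_le_iff₀ hφr]
  refine hsum.trans ?_
  have h5 : (m : ℝ) ≤ ((m.primeFactors.card : ℝ) + 1) * (Nat.totient (2 * m) : ℝ) := by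
    exact_mod_cast totient_two_ge m
  have h6 : 162 * ((n : ℝ) + w.length) * m * (Real.log m) ^ 2 ≤
      162 * ((n : ℝ) + w.length) * (((m.primeFactors.card : ℝ) + 1) *
        (Nat.totient (2 * m) : ℝ)) * (Real.log m) ^ 2 := by
    gcongr
  linarith

theorem numeric {c ω s A B lm : ℝ} (hc : 0 ≤ c) (hω : 1 ≤ ω) (hs : 1 ≤ s) (hA : 1 ≤ A)
    (hB : 0.69 ≤ B) (hlm0 : 0 ≤ lm) (hlm : lm ≤ A) :
    c * (A + B + 4 + 3 * s) + s * (4.2 + 3 * (A + B)) + 162 * c * ω * lm ^ 2 ≤
      (256 * (c + 1)) * ω * s * A ^ 2 * B := by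
  have hB0 : 0 < B := by linarith
  set P : ℝ := ω * s * A ^ 2 * B with hP
  have hA2 : A ≤ A ^ 2 := by nlinarith
  have hA1 : 1 ≤ A ^ 2 := by nlinarith
  have hωs : 1 ≤ ω * s := by nlinarith
  have hsω : s ≤ ω * s := by nlinarith
  have h1 : s * A * 0.69 ≤ P := by
    rw [hP]
    have h2 : s * A ≤ ω * s * A ^ 2 := mul_le_mul hsω hA2 (by linarith) (by positivity)
    exact mul_le_mul h2 hB (by norm_num) (by positivity)
  have h2 : ω * A ^ 2 * 0.69 ≤ P := by
    rw [hP]
    have h3 : ω * A ^ 2 ≤ ω * s * A ^ 2 := by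
      apply mul_le_mul_of_nonneg_right _ (by positivity)
      nlinarith
    exact mul_le_mul h3 hB (by norm_num) (by positivity)
  have h3 : s * B ≤ P := by
    rw [hP]
    apply mul_le_mul_of_nonneg_right _ hB0.le
    calc s ≤ ω * s := hsω
      _ = ω * s * 1 := by ring
      _ ≤ ω * s * A ^ 2 := by gcongr
  have h4 : A ≤ s * A := by nlinarith
  have h5 : 1 ≤ s * A := by nlinarith
  have h6 : s ≤ s * A := by nlinarith
  have h7 : B ≤ s * B := by nlinarith
  have h8 : lm ^ 2 ≤ A ^ 2 := by gcongr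
  have h9 : ω * lm ^ 2 ≤ ω * A ^ 2 := by gcongr
  have hP0 : 0 ≤ P := by linarith [mul_nonneg (by linarith : (0:ℝ) ≤ s) (by linarith : (0:ℝ) ≤ A)]
  have hsA : s * A ≤ 1.5 * P := by linarith
  have hωA : ω * A ^ 2 ≤ 1.5 * P := by linarith
  have e : (256 * (c + 1)) * ω * s * A ^ 2 * B = 256 * (c * P) + 256 * P := by rw [hP]; ring
  rw [e]
  have k1 : c * (A + B + 4 + 3 * s) ≤ c * (13 * P) := by
    apply mul_le_mul_of_nonneg_left _ hc
    linarith
  have k2 : s * (4.2 + 3 * (A + B)) ≤ 14 * P := by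
    have : s * (4.2 + 3 * (A + B)) = 4.2 * s + 3 * (s * A) + 3 * (s * B) := by ring
    rw [this]
    linarith
  have k3 : 162 * c * ω * lm ^ 2 ≤ c * (243 * P) := by
    have : 162 * c * ω * lm ^ 2 = c * (162 * (ω * lm ^ 2)) := by ring
    rw [this]
    apply mul_le_mul_of_nonneg_left _ hc
    linarith
  have hcP : 0 ≤ c * P := mul_nonneg hc hP0
  linarith

/-- **The recursion between vanishing orders, norms and bad levels.** -/
theorem hyp (hTH : S_TH) (hEN : S_EN) (hNL : S_NL) (hMM : S_MM) (hSZ : S_SZ1) {n : ℕ}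
    {w : List (ℕ × Bool)} (hw : IsKnot n w) :
    Hyp (256 * ((n : ℝ) + w.length + 1)) (II n w) (ZZ n w) (Bad n w) := by
  refine ⟨?_, ?_, ?_, ?_⟩
  · exact ord_unique hTH hEN le_rfl hw (II_spec hTH hEN hNL hw le_rfl) (ord_one hw)
  · intro m hm T hT
    have hφ : (0 : ℝ) < (Nat.totient (2 * m) : ℝ) := by
      exact_mod_cast Nat.totient_pos.2 (by omega : 0 < 2 * m)
    unfold ZZ
    rw [le_div_iff₀ hφ, mul_comm]
    have h1 := key hTH hEN hNL hm hw (II_spec hTH hEN hNL hw hm) (HH_spec hTH hEN hNL hw hm)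
      (L' := m * (II n w m + 1) + ∑ p ∈ T, m * p) (Nat.le_add_right _ _) T (fun _ => 1)
      (fun _ => 1) (by
        intro p hp
        obtain ⟨h1, h2, h3⟩ := hT p hp
        refine ⟨h1, h2, le_rfl, ?_⟩
        rw [pow_one p, dvd_up hTH hEN (Nat.mul_pos hm h1.pos) (D := 1) (e := 1) le_rfl _ le_rfl hw,
          pow_one]
        · exact bad_dvd h3
        · rw [mul_one]
          refine le_trans ?_ (Nat.le_add_left _ _)
          exact Finset.single_le_sum (f := fun p => m * p) (fun _ _ => Nat.zero_le _) hp)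
    simp only [Nat.cast_one, one_mul] at h1
    exact h1
  · intro m l a hm hl hlm ha
    have hφ : (0 : ℝ) < (Nat.totient (2 * m) : ℝ) := by
      exact_mod_cast Nat.totient_pos.2 (by omega : 0 < 2 * m)
    have hc : 1 ≤ m * l ^ a := Nat.mul_pos hm (pow_pos hl.pos _)
    unfold ZZ
    rw [le_div_iff₀ hφ, mul_comm]
    have h1 := key hTH hEN hNL hm hw (II_spec hTH hEN hNL hw hm) (HH_spec hTH hEN hNL hw hm)
      (L' := m * (II n w m + 1) + m * l ^ a * (II n w (m * l ^ a) + 1)) (Nat.le_add_right _ _)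
      {l} (fun _ => a) (fun _ => II n w (m * l ^ a)) (by
        intro p hp
        rw [Finset.mem_singleton] at hp
        subst hp
        refine ⟨hl, hlm, ha, ?_⟩
        rw [dvd_up hTH hEN hc (Nat.succ_pos _) (Nat.le_add_left _ _) (Nat.le_succ _) hw]
        exact (II_spec hTH hEN hNL hw hc).1)
    rw [Finset.sum_singleton] at h1
    exact h1
  · intro m hm
    have h1 := Z_bound hTH hEN hNL hMM hSZ hw hm
    set i := II n w m with hi
    have hmr : (1 : ℝ) ≤ (m : ℝ) := by exact_mod_cast hm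
    have hir : (0 : ℝ) ≤ (i : ℝ) := Nat.cast_nonneg i
    have hlogL : Real.log ((m * (i + 1) : ℕ) : ℝ) ≤
        Real.log ((m : ℝ) + 2) + Real.log ((i : ℝ) + 2) := by
      rw [← Real.log_mul (by positivity) (by positivity)]
      apply Real.log_le_log
      · push_cast; positivity
      · push_cast
        nlinarith
    have h3 : (1 : ℝ) ≤ Real.log ((m : ℝ) + 2) := by
      rw [Real.le_log_iff_exp_le (by linarith)]
      have := Real.exp_one_lt_d9
      linarith
    have h4 : (0.69 : ℝ) ≤ Real.log ((i : ℝ) + 2) := by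
      have h5 : Real.log 2 ≤ Real.log ((i : ℝ) + 2) := Real.log_le_log (by norm_num) (by linarith)
      have := Real.log_two_gt_d9
      linarith
    have h5 : Real.log 64 ≤ 4.2 := by
      have h6 : Real.log 64 = 6 * Real.log 2 := by
        have : (64 : ℝ) = 2 ^ 6 := by norm_num
        rw [this, Real.log_pow]; norm_num
      have := Real.log_two_lt_d9
      rw [h6]; linarith
    have h6 : Real.log m ≤ Real.log ((m : ℝ) + 2) := Real.log_le_log (by linarith) (by linarith)
    have h7 : 0 ≤ Real.log (m : ℝ) := Real.log_nonneg hmr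
    have h8 := numeric (c := (n : ℝ) + w.length) (ω := (m.primeFactors.card : ℝ) + 1)
      (s := (i : ℝ) + 1) (by positivity) (by
        have : (0 : ℝ) ≤ (m.primeFactors.card : ℝ) := Nat.cast_nonneg _
        linarith) (by linarith) h3 h4 h7 h6
    refine h1.trans (le_trans ?_ h8)
    have k1 : ((n : ℝ) + w.length) *
        (Real.log ((m * (i + 1) : ℕ) : ℝ) + 4 + 3 * ((i : ℝ) + 1)) ≤
        ((n : ℝ) + w.length) * (Real.log ((m : ℝ) + 2) + Real.log ((i : ℝ) + 2) + 4 +
          3 * ((i : ℝ) + 1)) := by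
      apply mul_le_mul_of_nonneg_left _ (by positivity)
      linarith
    have k2 : (i : ℝ) * (Real.log 64 + 3 * Real.log ((m * (i + 1) : ℕ) : ℝ)) ≤
        ((i : ℝ) + 1) * (4.2 + 3 * (Real.log ((m : ℝ) + 2) + Real.log ((i : ℝ) + 2))) := by
      have k3 : Real.log 64 + 3 * Real.log ((m * (i + 1) : ℕ) : ℝ) ≤
        4.2 + 3 * (Real.log ((m : ℝ) + 2) + Real.log ((i : ℝ) + 2)) := by linarith
      calc (i : ℝ) * (Real.log 64 + 3 * Real.log ((m * (i + 1) : ℕ) : ℝ)) ≤
          (i : ℝ) * (4.2 + 3 * (Real.log ((m : ℝ) + 2) + Real.log ((i : ℝ) + 2))) :=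
            mul_le_mul_of_nonneg_left k3 hir
        _ ≤ _ := by
            apply mul_le_mul_of_nonneg_right (by linarith)
            linarith
    linarith

end Pool.Agent.Q79.KX
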