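import Mathlib
import Pool.Agent.Q79.KX.AsmD
import Pool.Agent.Q84.KX.NTb
import Pool.Agent.Q84.KX.NTJ
import Pool.Agent.Q84.KX.EN
import Pool.Agent.Q198.KX.NTa
import Pool.Agent.Q198.KX.MM
import Pool.Agent.Q198.KX.TH
import Pool.Agent.Q128.KX.NL
import Pool.Agent.Q128.KX.SZ1

set_option autoImplicit false

namespace Pool.Agent.Q79.KX

theorem nt : S_NT := Pool.Agent.Q84.KX.ntj Pool.Agent.Q198.KX.nta Pool.Agent.Q84.KX.ntb

end Pool.Agent.Q79.KX

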