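import Mathlib
import Pool.Agent.Q79.KX.AsmD
import Pool.Agent.Q79.KX.All

set_option autoImplicit false

open Finset Polynomial

namespace Pool.Agent.Q79.KX

open Pool.Agent.Q79.KV

/-! ### Systems

A system is a compatible family of truncated state sums: the classes of the truncations modulo the
powers of `Φ_m(u²)` stabilise, and the size near the primitive `2m`-th roots of unity is controlled
by the quantum factorials.  Systems form a ring which contains `ℤ[u, u⁻¹]` and the state sums of all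
knots. -/

/-- families -/
abbrev Fam : Type 1 := (L : ℕ) → (R : Type) → [CommRing R] → Rˣ → R

/-- systems -/
structure IsSys (F : Fam) : Prop where
  nat : ∀ (L : ℕ) (R S : Type) [CommRing R] [CommRing S] (f : R →+* S) (u : Rˣ),
    f (F L R u) = F L S (Units.map (f : R →* S) u)
  fil : ∀ (R : Type) [CommRing R] (u : Rˣ) (m D L' : ℕ), 1 ≤ m → 1 ≤ D → m * D ≤ L' →
    ((cyclotomic m ℤ).eval₂ (Int.castRingHom R) ((u : R) ^ 2)) ^ D ∣ F L' R u - F (m * D) R u
  siz : ∃ A : ℝ, 0 ≤ A ∧ ∀ (m i : ℕ) (v s : ℂ) (D : ℝ) (u : ℂˣ), 1 ≤ m →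
    IsPrimitiveRoot v (2 * m) → Fac m v D → ‖s‖ = 1 / (16 * ((m * (i + 1) : ℕ) : ℝ) ^ 3) →
    (u : ℂ) = v * Complex.exp s →
    ‖F (m * (i + 1)) ℂ u‖ ≤
      Real.exp (A * (Real.log ((m * (i + 1) : ℕ) : ℝ) + 4 + 6 * D + 3 * (i + 1)))

/-- the state sums of a knot -/
def FG (n : ℕ) (w : List (ℕ × Bool)) : Fam := fun L _ _ u => G L n w u

theorem sys_G {n : ℕ} {w : List (ℕ × Bool)} (hw : IsKnot n w) : IsSys (FG n w) where
  nat := fun L R S _ _ f u => map_G f u L n w
  fil := fun R _ u m D L' hm hD hL => by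
    obtain ⟨h1, h2⟩ := Pool.Agent.Q198.KX.th R u m hm
    exact filt_G Pool.Agent.Q84.KX.en hm h1 h2 hD hL hw
  siz := ⟨(n : ℝ) + w.length, by positivity, fun m i v s D u hm hv hF hs hu =>
    G_bound Pool.Agent.Q128.KX.sz1 n w hm hv hF hs hu⟩

theorem D_nonneg {m : ℕ} (hm : 1 ≤ m) {v : ℂ} {D : ℝ} (hF : Fac m v D) : 0 ≤ D := by
  have h1 := (hF.2 0 hm).2
  unfold brf at h1
  rw [Finset.prod_range_zero, norm_one] at h1
  by_contra hcon
  have := Real.exp_lt_one_iff.2 (not_le.1 hcon)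
  linarith

theorem X_ge {m i : ℕ} (hm : 1 ≤ m) {D : ℝ} (hD : 0 ≤ D) :
    7 ≤ Real.log ((m * (i + 1) : ℕ) : ℝ) + 4 + 6 * D + 3 * (i + 1) := by
  have hL : 1 ≤ m * (i + 1) := Nat.mul_pos hm (Nat.succ_pos i)
  have h1 : 0 ≤ Real.log ((m * (i + 1) : ℕ) : ℝ) := Real.log_natCast_nonneg _
  have h2 : (0 : ℝ) ≤ i := Nat.cast_nonneg i
  linarith

theorem sys_const (c : ℤ) : IsSys (fun _ _ _ _ => (c : _)) where
  nat := fun L R S _ _ f u => map_intCast f c
  fil := fun R _ u m D L' hm hD hL => by rw [sub_self]; exact dvd_zero _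
  siz := by
    refine ⟨Real.log (|(c : ℝ)| + 1), Real.log_nonneg (by
      have := abs_nonneg (c : ℝ)
      linarith), fun m i v s D u hm hv hF hs hu => ?_⟩
    have h1 := X_ge (i := i) hm (D_nonneg hm hF)
    have h0 : 0 ≤ Real.log (|(c : ℝ)| + 1) := Real.log_nonneg (by
      have := abs_nonneg (c : ℝ)
      linarith)
    have h2 : ‖((c : ℤ) : ℂ)‖ = |(c : ℝ)| := Complex.norm_intCast c
    rw [h2]
    calc |(c : ℝ)| ≤ |(c : ℝ)| + 1 := by linarith
      _ = Real.exp (Real.log (|(c : ℝ)| + 1)) := by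
          rw [Real.exp_log]
          have := abs_nonneg (c : ℝ)
          linarith
      _ ≤ _ := by
          apply Real.exp_le_exp.2
          nlinarith

theorem sys_unit (k : ℤ) : IsSys (fun _ _ _ u => ((u ^ k : _) : _)) where
  nat := fun L R S _ _ f u => map_zpow_unit f u k
  fil := fun R _ u m D L' hm hD hL => by rw [sub_self]; exact dvd_zero _
  siz := by
    refine ⟨|(k : ℝ)|, abs_nonneg _, fun m i v s D u hm hv hF hs hu => ?_⟩
    have h1 := X_ge (i := i) hm (D_nonneg hm hF)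
    have hL : 1 ≤ m * (i + 1) := Nat.mul_pos hm (Nat.succ_pos i)
    have hLr : (1 : ℝ) ≤ ((m * (i + 1) : ℕ) : ℝ) := by exact_mod_cast hL
    have hn : ‖(u : ℂ)‖ = Real.exp s.re := by
      rw [hu, norm_mul, hF.1, one_mul, Complex.norm_exp]
    have hn2 : Real.exp s.re ^ k = Real.exp (k * s.re) := by
      rw [← Real.rpow_intCast, ← Real.exp_mul, mul_comm]
    rw [Units.val_zpow_eq_zpow_val, norm_zpow, hn, hn2]
    apply Real.exp_le_exp.2
    have h2 : |s.re| ≤ 1 := by
      refine (Complex.abs_re_le_norm s).trans ?_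
      rw [hs, div_le_one (by positivity)]
      have h3 : (1 : ℝ) ≤ ((m * (i + 1) : ℕ) : ℝ) ^ 3 := one_le_pow₀ hLr
      linarith
    calc (k : ℝ) * s.re ≤ |(k : ℝ) * s.re| := le_abs_self _
      _ = |(k : ℝ)| * |s.re| := abs_mul _ _
      _ ≤ |(k : ℝ)| * (Real.log ((m * (i + 1) : ℕ) : ℝ) + 4 + 6 * D + 3 * (i + 1)) :=
          mul_le_mul_of_nonneg_left (by linarith) (abs_nonneg _)

theorem IsSys.add {F F' : Fam} (h : IsSys F) (h' : IsSys F') :
    IsSys (fun L R _ u => F L R u + F' L R u) where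
  nat := fun L R S _ _ f u => by rw [map_add, h.nat, h'.nat]
  fil := fun R _ u m D L' hm hD hL => by
    have h1 := dvd_add (h.fil R u m D L' hm hD hL) (h'.fil R u m D L' hm hD hL)
    have e : F L' R u + F' L' R u - (F (m * D) R u + F' (m * D) R u) =
        F L' R u - F (m * D) R u + (F' L' R u - F' (m * D) R u) := by ring
    rw [e]
    exact h1
  siz := by
    obtain ⟨A, hA0, hA⟩ := h.siz
    obtain ⟨B, hB0, hB⟩ := h'.siz
    refine ⟨A + B + 1, by positivity, fun m i v s D u hm hv hF hs hu => ?_⟩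
    have h1 := X_ge (i := i) hm (D_nonneg hm hF)
    have h2 := hA m i v s D u hm hv hF hs hu
    have h3 := hB m i v s D u hm hv hF hs hu
    set X := Real.log ((m * (i + 1) : ℕ) : ℝ) + 4 + 6 * D + 3 * (i + 1) with hX
    have hAX : 0 ≤ A * X := by positivity
    have hBX : 0 ≤ B * X := by positivity
    have h4 : Real.exp (A * X) ≤ Real.exp (A * X + B * X) := Real.exp_le_exp.2 (by linarith)
    have h5 : Real.exp (B * X) ≤ Real.exp (A * X + B * X) := Real.exp_le_exp.2 (by linarith)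
    have h6 : (2 : ℝ) ≤ Real.exp X := by
      have := Real.add_one_le_exp X
      linarith
    calc ‖F (m * (i + 1)) ℂ u + F' (m * (i + 1)) ℂ u‖ ≤
          ‖F (m * (i + 1)) ℂ u‖ + ‖F' (m * (i + 1)) ℂ u‖ := norm_add_le _ _
      _ ≤ 2 * Real.exp (A * X + B * X) := by linarith
      _ ≤ Real.exp X * Real.exp (A * X + B * X) :=
          mul_le_mul_of_nonneg_right h6 (Real.exp_pos _).le
      _ = Real.exp ((A + B + 1) * X) := by
          rw [← Real.exp_add]; congr 1; ring

theorem IsSys.mul {F F' : Fam} (h : IsSys F) (h' : IsSys F') :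
    IsSys (fun L R _ u => F L R u * F' L R u) where
  nat := fun L R S _ _ f u => by rw [map_mul, h.nat, h'.nat]
  fil := fun R _ u m D L' hm hD hL => by
    have h1 := dvd_add ((h.fil R u m D L' hm hD hL).mul_right (F' L' R u))
      ((h'.fil R u m D L' hm hD hL).mul_left (F (m * D) R u))
    have e : F L' R u * F' L' R u - F (m * D) R u * F' (m * D) R u =
        (F L' R u - F (m * D) R u) * F' L' R u +
          F (m * D) R u * (F' L' R u - F' (m * D) R u) := by ring
    rw [e]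
    exact h1
  siz := by
    obtain ⟨A, hA0, hA⟩ := h.siz
    obtain ⟨B, hB0, hB⟩ := h'.siz
    refine ⟨A + B, by positivity, fun m i v s D u hm hv hF hs hu => ?_⟩
    have h2 := hA m i v s D u hm hv hF hs hu
    have h3 := hB m i v s D u hm hv hF hs hu
    set X := Real.log ((m * (i + 1) : ℕ) : ℝ) + 4 + 6 * D + 3 * (i + 1) with hX
    calc ‖F (m * (i + 1)) ℂ u * F' (m * (i + 1)) ℂ u‖ =
          ‖F (m * (i + 1)) ℂ u‖ * ‖F' (m * (i + 1)) ℂ u‖ := norm_mul _ _
      _ ≤ Real.exp (A * X) * Real.exp (B * X) :=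
          mul_le_mul h2 h3 (norm_nonneg _) (Real.exp_pos _).le
      _ = Real.exp ((A + B) * X) := by
          rw [← Real.exp_add]; congr 1; ring

end Pool.Agent.Q79.KX
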