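import Mathlib
import Pool.Agent.Q79.KX.SysA

set_option autoImplicit false

open Finset Polynomial

namespace Pool.Agent.Q79.KX

open Pool.Agent.Q79.KV

/-! ### The polynomials of a system -/

theorem exists_sg {F : Fam} (hF : IsSys F) (L : ℕ) : ∃ (K : ℕ) (g : ℤ[X]),
    ∀ (S : Type) [CommRing S] (u : Sˣ),
      g.eval₂ (Int.castRingHom S) (u : S) = (u : S) ^ K * F L S u := by
  obtain ⟨e0, P0, hP0⟩ := LaurentPolynomial.exists_T_pow (F L _ KS.TL)
  refine ⟨e0, P0, ?_⟩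
  intro S _ x
  have h1 := congrArg (LaurentPolynomial.eval₂ (Int.castRingHom S) x) hP0
  rw [LaurentPolynomial.eval₂_toLaurent, map_mul, LaurentPolynomial.eval₂_T_n] at h1
  have h2 := hF.nat L _ S (LaurentPolynomial.eval₂ (Int.castRingHom S) x) KS.TL
  rw [KS.map_TL] at h2
  rw [h2] at h1
  rw [h1, mul_comm]

/-- the exponent -/
noncomputable def sK {F : Fam} (hF : IsSys F) (L : ℕ) : ℕ := (exists_sg hF L).choose

/-- the polynomial of the truncation -/
noncomputable def sg {F : Fam} (hF : IsSys F) (L : ℕ) : ℤ[X] :=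
  (exists_sg hF L).choose_spec.choose

theorem sg_spec {F : Fam} (hF : IsSys F) (L : ℕ) (S : Type) [CommRing S] (u : Sˣ) :
    (sg hF L).eval₂ (Int.castRingHom S) (u : S) = (u : S) ^ sK hF L * F L S u :=
  (exists_sg hF L).choose_spec.choose_spec S u

/-- the filtration in the ring of polynomials -/
theorem sfilt {F : Fam} (hF : IsSys F) {m D L' : ℕ} (hm : 1 ≤ m) (hD : 1 ≤ D)
    (hL : m * D ≤ L') :
    Ps m ^ D ∣ X ^ sK hF (m * D) * sg hF L' - X ^ sK hF L' * sg hF (m * D) := by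
  set A := AdjoinRoot (Ps m ^ D) with hA
  set r : A := AdjoinRoot.root (Ps m ^ D) with hr
  have hΨ : (aeval r (Ps m)) ^ D = 0 := by
    rw [← map_pow]
    have h1 := AdjoinRoot.aeval_eq (f := Ps m ^ D) (Ps m ^ D)
    rw [AdjoinRoot.mk_self] at h1
    exact h1
  obtain ⟨Q, hQ⟩ : (X : ℤ[X]) ∣ Ps m - C 1 := by
    have h0 : (Ps m).coeff 0 = 1 := cyclotomic_coeff_zero ℤ (by omega)
    rw [X_dvd_iff, coeff_sub, h0, coeff_C_zero, sub_self]
  have hunit : IsUnit r := by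
    have h1 : r * aeval r Q = aeval r (Ps m) - 1 := by
      have h2 := congrArg (aeval r) hQ
      rw [map_sub, map_mul, aeval_X, C_1, map_one] at h2
      exact h2.symm
    have h3 : IsUnit (aeval r (Ps m) - 1) := by
      apply IsNilpotent.isUnit_sub_one
      exact ⟨D, hΨ⟩
    rw [← h1] at h3
    exact isUnit_of_mul_isUnit_left h3
  obtain ⟨u, hu⟩ := hunit
  have hfil := hF.fil A u m D L' hm hD hL
  have hθ : aeval r (Ps m) ∣ (cyclotomic m ℤ).eval₂ (Int.castRingHom A) ((u : A) ^ 2) := by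
    have hdv : Ps m ∣ (cyclotomic m ℤ).comp (X ^ 2) := by
      have hv := Complex.isPrimitiveRoot_exp (2 * m) (by omega)
      apply cyc_dvd (by omega) hv
      rw [aeval_comp, map_pow, aeval_X]
      have i1 : NeZero ((m : ℕ) : ℂ) := ⟨by exact_mod_cast (by omega : m ≠ 0)⟩
      rw [aeval_def, ← eval_map, algebraMap_int_eq, map_cyclotomic]
      exact (isRoot_cyclotomic_iff (R := ℂ)).2 (hv.pow (by omega) rfl)
    obtain ⟨T, hT⟩ := hdv
    refine ⟨aeval r T, ?_⟩
    rw [← map_mul, ← hT, aeval_comp, map_pow, aeval_X, hu]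
    rfl
  have hzero : F L' A u - F (m * D) A u = 0 := by
    have h1 : (aeval r (Ps m)) ^ D ∣ F L' A u - F (m * D) A u :=
      (pow_dvd_pow_of_dvd hθ D).trans hfil
    rw [hΨ] at h1
    exact zero_dvd_iff.1 h1
  have h1 := sg_spec hF L' A u
  have h2 := sg_spec hF (m * D) A u
  have hmk : AdjoinRoot.mk (Ps m ^ D)
      (X ^ sK hF (m * D) * sg hF L' - X ^ sK hF L' * sg hF (m * D)) = 0 := by
    rw [← AdjoinRoot.aeval_eq, map_sub, map_mul, map_mul, map_pow, map_pow, aeval_X]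
    have e1 : aeval r (sg hF L') = (sg hF L').eval₂ (Int.castRingHom A) (u : A) := by
      rw [hu]; rfl
    have e2 : aeval r (sg hF (m * D)) = (sg hF (m * D)).eval₂ (Int.castRingHom A) (u : A) := by
      rw [hu]; rfl
    rw [← hr, e1, e2, h1, h2, ← hu]
    linear_combination ((u : A) ^ sK hF (m * D) * (u : A) ^ sK hF L') * hzero
  exact AdjoinRoot.mk_eq_zero.1 hmk

theorem sdvd_up {F : Fam} (hF : IsSys F) {m D e L' : ℕ} (hm : 1 ≤ m) (hD : 1 ≤ D)
    (hL : m * D ≤ L') (he : e ≤ D) :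
    Ps m ^ e ∣ sg hF L' ↔ Ps m ^ e ∣ sg hF (m * D) := by
  have h1 := (pow_dvd_pow (Ps m) he).trans (sfilt hF hm hD hL)
  constructor
  · intro h
    have h2 : Ps m ^ e ∣ X ^ sK hF L' * sg hF (m * D) := by
      have h3 := dvd_sub (h.mul_left (X ^ sK hF (m * D))) h1
      rwa [sub_sub_cancel] at h3
    exact (Ps_coprime_X hm _ e).dvd_of_dvd_mul_left h2
  · intro h
    have h2 : Ps m ^ e ∣ X ^ sK hF (m * D) * sg hF L' := by
      have h3 := dvd_add h1 (h.mul_left (X ^ sK hF L'))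
      rwa [sub_add_cancel] at h3
    exact (Ps_coprime_X hm _ e).dvd_of_dvd_mul_left h2

/-- the vanishing order at the primitive `2m`-th roots is `i` -/
def SOrd {F : Fam} (hF : IsSys F) (m i : ℕ) : Prop :=
  Ps m ^ i ∣ sg hF (m * (i + 1)) ∧ ¬ Ps m ^ (i + 1) ∣ sg hF (m * (i + 1))

/-- comparison of the quotients at different truncations -/
theorem squot {F : Fam} (hF : IsSys F) {m i L' : ℕ} (hm : 1 ≤ m) (ho : SOrd hF m i) {H : ℤ[X]}
    (hH : sg hF (m * (i + 1)) = Ps m ^ i * H) (hL : m * (i + 1) ≤ L') :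
    ∃ H' : ℤ[X], sg hF L' = Ps m ^ i * H' ∧
      (∀ v : ℂ, IsPrimitiveRoot v (2 * m) → ‖aeval v H'‖ = ‖aeval v H‖) ∧
      (∀ v : ℂ, IsPrimitiveRoot v (2 * m) → aeval v H' ≠ 0) := by
  have hΨ0 : Ps m ^ i ≠ 0 := pow_ne_zero _ (Ps_prime hm).ne_zero
  have hnd : ¬ Ps m ∣ H := by
    intro h
    apply ho.2
    rw [hH, pow_succ]
    exact mul_dvd_mul_left _ h
  obtain ⟨H', hH'⟩ := (sdvd_up hF hm (Nat.succ_pos i) hL (Nat.le_succ i)).2 ho.1
  have hcong : Ps m ∣ X ^ sK hF (m * (i + 1)) * H' - X ^ sK hF L' * H := by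
    have h1 := sfilt hF hm (Nat.succ_pos i) hL
    rw [Nat.succ_eq_add_one, hH, hH', pow_succ] at h1
    have e1 : X ^ sK hF (m * (i + 1)) * (Ps m ^ i * H') - X ^ sK hF L' * (Ps m ^ i * H) =
        Ps m ^ i * (X ^ sK hF (m * (i + 1)) * H' - X ^ sK hF L' * H) := by ring
    rw [e1] at h1
    exact (mul_dvd_mul_iff_left hΨ0).1 h1
  have hnorm : ∀ v : ℂ, IsPrimitiveRoot v (2 * m) → ‖aeval v H'‖ = ‖aeval v H‖ := by
    intro v hv
    obtain ⟨Q, hQ⟩ := hcong
    have h1 := congrArg (aeval v) hQ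
    rw [map_mul, Ps_root hm hv, zero_mul, map_sub, map_mul, map_mul, map_pow, map_pow, aeval_X,
      sub_eq_zero] at h1
    have h2 := congrArg (fun z : ℂ => ‖z‖) h1
    simp only [norm_mul, norm_pow] at h2
    have hvn : ‖v‖ = 1 := hv.norm'_eq_one (by omega)
    rwa [hvn, one_pow, one_pow, one_mul, one_mul] at h2
  refine ⟨H', hH', hnorm, ?_⟩
  intro v hv
  rw [← norm_ne_zero_iff, hnorm v hv, norm_ne_zero_iff]
  intro h
  exact hnd (cyc_dvd (by omega) hv h)

/-- the key inequality -/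
theorem skey {F : Fam} (hF : IsSys F) {m i L' : ℕ} (hm : 1 ≤ m) (ho : SOrd hF m i) {H : ℤ[X]}
    (hH : sg hF (m * (i + 1)) = Ps m ^ i * H) (hL : m * (i + 1) ≤ L') (T : Finset ℕ)
    (a e : ℕ → ℕ) (hT : ∀ p ∈ T, p.Prime ∧ ¬ p ∣ m ∧ 1 ≤ a p ∧
      Ps (m * p ^ a p) ^ e p ∣ sg hF L') :
    (Nat.totient (2 * m) : ℝ) * ∑ p ∈ T, (e p : ℝ) * Real.log p ≤
      Real.log (∏ v ∈ primitiveRoots (2 * m) ℂ, ‖aeval v H‖) := by
  obtain ⟨H', hH', hnorm, hne⟩ := squot hF hm ho hH hL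
  have hv0 := Complex.isPrimitiveRoot_exp (2 * m) (by omega)
  have h1 := Pool.Agent.Q128.KX.nl m hm H' _ hv0 (hne _ hv0) T a e (fun p hp => by
    obtain ⟨h2, h3, h4, h5⟩ := hT p hp
    refine ⟨h2, h3, h4, ?_⟩
    have hc1 : 1 ≤ m * p ^ a p := Nat.mul_pos hm (pow_pos h2.pos _)
    have hcne : m * p ^ a p ≠ m := by
      intro h
      have h6 : 1 < p ^ a p := Nat.one_lt_pow (by omega) h2.one_lt
      nlinarith
    rw [hH'] at h5
    exact (Ps_prime hc1).pow_dvd_of_dvd_mul_left (e p)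
      (fun h => Ps_not_dvd hc1 hm hcne ((Ps_prime hc1).dvd_of_dvd_pow h)) h5)
  refine h1.trans (le_of_eq ?_)
  congr 1
  apply Finset.prod_congr rfl
  intro v hv
  rw [mem_primitiveRoots (by omega)] at hv
  exact hnorm v hv

/-! ### The descent -/

theorem prod_swap {m c : ℕ} (hm : 1 ≤ m) (hc : 1 ≤ c) :
    ∏ v ∈ primitiveRoots (2 * c) ℂ, ‖aeval v (Ps m)‖ =
      ∏ v ∈ primitiveRoots (2 * m) ℂ, ‖aeval v (Ps c)‖ := by
  have h : ∀ (k : ℕ) (_ : 1 ≤ k) (x : ℂ), ‖aeval x (Ps k)‖ =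
      ∏ y ∈ primitiveRoots (2 * k) ℂ, ‖x - y‖ := by
    intro k hk x
    have hk2 := Complex.isPrimitiveRoot_exp (2 * k) (by omega)
    unfold Ps
    rw [aeval_def, ← eval_map, algebraMap_int_eq, map_cyclotomic,
      cyclotomic_eq_prod_X_sub_primitiveRoots hk2, eval_prod, norm_prod]
    apply Finset.prod_congr rfl
    intro y _
    rw [eval_sub, eval_X, eval_C]
  have e1 : ∏ v ∈ primitiveRoots (2 * c) ℂ, ‖aeval v (Ps m)‖ =
      ∏ v ∈ primitiveRoots (2 * c) ℂ, ∏ y ∈ primitiveRoots (2 * m) ℂ, ‖v - y‖ :=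
    Finset.prod_congr rfl (fun v _ => h m hm v)
  have e2 : ∏ v ∈ primitiveRoots (2 * m) ℂ, ‖aeval v (Ps c)‖ =
      ∏ v ∈ primitiveRoots (2 * m) ℂ, ∏ y ∈ primitiveRoots (2 * c) ℂ, ‖v - y‖ :=
    Finset.prod_congr rfl (fun v _ => h c hc v)
  rw [e1, e2, Finset.prod_comm]
  apply Finset.prod_congr rfl
  intro x _
  apply Finset.prod_congr rfl
  intro y _
  exact norm_sub_rev _ _

theorem two_le_prod {m p a : ℕ} (hm : 1 ≤ m) (hp : p.Prime) (hpm : ¬ p ∣ m) (ha : 1 ≤ a) :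
    2 ≤ ∏ v ∈ primitiveRoots (2 * (m * p ^ a)) ℂ, ‖aeval v (Ps m)‖ := by
  have hc : 1 ≤ m * p ^ a := Nat.mul_pos hm (pow_pos hp.pos _)
  rw [prod_swap hm hc]
  have hcne : m * p ^ a ≠ m := by
    intro h
    have h6 : 1 < p ^ a := Nat.one_lt_pow (by omega) hp.one_lt
    nlinarith
  have hv0 := Complex.isPrimitiveRoot_exp (2 * m) (by omega)
  have hne : ∀ v : ℂ, IsPrimitiveRoot v (2 * m) → aeval v (Ps (m * p ^ a)) ≠ 0 := by
    intro v hv h
    have h1 := prim_of_Ps hc h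
    have := hv.unique h1
    omega
  have h1 := Pool.Agent.Q128.KX.nl m hm (Ps (m * p ^ a)) _ hv0 (hne _ hv0) {p} (fun _ => a)
    (fun _ => 1) (by
      intro q hq
      rw [Finset.mem_singleton] at hq
      subst hq
      refine ⟨hp, hpm, ha, ?_⟩
      rw [pow_one (cyclotomic _ ℤ)]
      exact dvd_rfl)
  rw [Finset.sum_singleton, Nat.cast_one, one_mul] at h1
  have hφ : (1 : ℝ) ≤ (Nat.totient (2 * m) : ℝ) := by
    exact_mod_cast Nat.totient_pos.2 (by omega : 0 < 2 * m)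
  have hp2 : Real.log 2 ≤ Real.log p :=
    Real.log_le_log (by norm_num) (by exact_mod_cast hp.two_le)
  have hl2 : 0 < Real.log 2 := Real.log_pos (by norm_num)
  have h2 : Real.log 2 ≤ Real.log (∏ v ∈ primitiveRoots (2 * m) ℂ, ‖aeval v (Ps (m * p ^ a))‖) := by
    nlinarith
  have hpos : 0 < ∏ v ∈ primitiveRoots (2 * m) ℂ, ‖aeval v (Ps (m * p ^ a))‖ := by
    apply Finset.prod_pos
    intro v hv
    rw [mem_primitiveRoots (by omega)] at hv
    exact norm_pos_iff.2 (hne v hv)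
  exact (Real.log_le_log_iff (by norm_num) hpos).1 h2

/-- all truncations vanish to infinite order at the primitive `2m`-th roots -/
def Inf {F : Fam} (hF : IsSys F) (m : ℕ) : Prop := ∀ i, Ps m ^ i ∣ sg hF (m * (i + 1))

theorem inf_or {F : Fam} (hF : IsSys F) {m : ℕ} (hm : 1 ≤ m) : Inf hF m ∨ ∃ i, SOrd hF m i := by
  by_cases h : ∃ i, SOrd hF m i
  · exact Or.inr h
  · left
    push Not at h
    intro i
    induction i with
    | zero => rw [pow_zero]; exact one_dvd _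
    | succ i ihi =>
      have h2 : Ps m ^ (i + 1) ∣ sg hF (m * (i + 1)) := by
        by_contra h3
        exact h i ⟨ihi, h3⟩
      rw [sdvd_up hF hm (Nat.succ_pos i) (Nat.mul_le_mul_left m (by omega)) le_rfl]
      exact h2

theorem inf_dvd {F : Fam} (hF : IsSys F) {m : ℕ} (hm : 1 ≤ m) (h : Inf hF m) (e : ℕ) {L' : ℕ}
    (hL : m * (e + 1) ≤ L') : Ps m ^ e ∣ sg hF L' :=
  (sdvd_up hF hm (Nat.succ_pos e) hL (Nat.le_succ e)).2 (h e)

/-- infinite order goes up -/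
theorem inf_up {F : Fam} (hF : IsSys F) {m p a : ℕ} (hm : 1 ≤ m) (hp : p.Prime) (hpm : ¬ p ∣ m)
    (ha : 1 ≤ a) (h : Inf hF m) : Inf hF (m * p ^ a) := by
  have hc : 1 ≤ m * p ^ a := Nat.mul_pos hm (pow_pos hp.pos _)
  rcases inf_or hF hc with h1 | ⟨i, hi⟩
  · exact h1
  exfalso
  have hcne : m ≠ m * p ^ a := by
    intro h
    have h6 : 1 < p ^ a := Nat.one_lt_pow (by omega) hp.one_lt
    nlinarith
  obtain ⟨H, hH⟩ := hi.1
  set c := m * p ^ a with hcd
  set Z : ℝ := ∏ v ∈ primitiveRoots (2 * c) ℂ, ‖aeval v H‖ with hZ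
  have hbound : ∀ e : ℕ, (2 : ℝ) ^ e ≤ Z := by
    intro e
    obtain ⟨H', hH', hnorm, hne⟩ := squot hF hc hi hH (L' := c * (i + 1) + m * (e + 1))
      (Nat.le_add_right _ _)
    have h2 := inf_dvd hF hm h e (L' := c * (i + 1) + m * (e + 1)) (Nat.le_add_left _ _)
    rw [hH'] at h2
    obtain ⟨Q, hQ⟩ := (Ps_prime hm).pow_dvd_of_dvd_mul_left e
      (fun h => Ps_not_dvd hm hc hcne ((Ps_prime hm).dvd_of_dvd_pow h)) h2
    have hv0 := Complex.isPrimitiveRoot_exp (2 * c) (by omega)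
    have hQ0 : aeval (Complex.exp (2 * Real.pi * Complex.I / ((2 * c : ℕ) : ℂ))) Q ≠ 0 := by
      intro h3
      apply hne _ hv0
      rw [hQ, map_mul, h3, mul_zero]
    have h4 := prod_norm_gen (by omega : 0 < 2 * c) hv0 hQ0
    have h5 := two_le_prod hm hp hpm ha
    have h6 : Z = (∏ v ∈ primitiveRoots (2 * c) ℂ, ‖aeval v (Ps m)‖) ^ e *
        ∏ v ∈ primitiveRoots (2 * c) ℂ, ‖aeval v Q‖ := by
      rw [hZ, ← Finset.prod_pow, ← Finset.prod_mul_distrib]
      apply Finset.prod_congr rfl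
      intro v hv
      rw [mem_primitiveRoots (by omega)] at hv
      rw [← hnorm v hv, hQ, map_mul, map_pow, norm_mul, norm_pow]
    rw [h6]
    calc (2 : ℝ) ^ e = 2 ^ e * 1 := by ring
      _ ≤ _ := mul_le_mul (pow_le_pow_left₀ (by norm_num) h5 e) h4 (by norm_num) (by positivity)
  obtain ⟨e, he⟩ := pow_unbounded_of_one_lt Z (by norm_num : (1 : ℝ) < 2)
  have := hbound e
  linarith

/-- finite order goes up -/
theorem fin_up {F : Fam} (hF : IsSys F) {m p a : ℕ} (hm : 1 ≤ m) (hp : p.Prime) (hpm : ¬ p ∣ m)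
    (ha : 1 ≤ a) (h : ∃ i, SOrd hF m i) : ∃ i, SOrd hF (m * p ^ a) i := by
  have hc : 1 ≤ m * p ^ a := Nat.mul_pos hm (pow_pos hp.pos _)
  rcases inf_or hF hc with h1 | h1
  · exfalso
    obtain ⟨i', hi'⟩ := h
    obtain ⟨H, hH⟩ := hi'.1
    set Z := Real.log (∏ v ∈ primitiveRoots (2 * m) ℂ, ‖aeval v H‖) with hZ
    have hlog : 0 < Real.log p := Real.log_pos (by exact_mod_cast hp.one_lt)
    have hφ : (1 : ℝ) ≤ (Nat.totient (2 * m) : ℝ) := by
      exact_mod_cast Nat.totient_pos.2 (by omega : 0 < 2 * m)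
    have hbound : ∀ i : ℕ, (i : ℝ) * Real.log p ≤ Z := by
      intro i
      have h2 := skey hF hm hi' hH (L' := m * (i' + 1) + m * p ^ a * (i + 1))
        (Nat.le_add_right _ _) {p} (fun _ => a) (fun _ => i) (by
        intro q hq
        rw [Finset.mem_singleton] at hq
        subst hq
        exact ⟨hp, hpm, ha, inf_dvd hF hc h1 i (Nat.le_add_left _ _)⟩)
      rw [Finset.sum_singleton] at h2
      have h3 : (i : ℝ) * Real.log p ≤ (Nat.totient (2 * m) : ℝ) * ((i : ℝ) * Real.log p) := by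
        have : 0 ≤ (i : ℝ) * Real.log p := by positivity
        nlinarith
      exact h3.trans h2
    obtain ⟨i, hi⟩ := exists_nat_gt (Z / Real.log p)
    have h2 := hbound i
    rw [div_lt_iff₀ hlog] at hi
    linarith
  · exact h1

/-- the part of `m` prime to its least prime factor -/
theorem split {m : ℕ} (h1 : 1 < m) : ∃ m' p a : ℕ, m' * p ^ a = m ∧ p.Prime ∧ ¬ p ∣ m' ∧ 1 ≤ a ∧
    1 ≤ m' ∧ m' < m := by
  set p := m.minFac with hp
  have hpp : p.Prime := Nat.minFac_prime (by omega)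
  set a := m.factorization p with ha
  set m' := m / p ^ a with hm'
  have hmm : m' * p ^ a = m := Nat.div_mul_cancel (Nat.ordProj_dvd m p)
  have hpm' : ¬ p ∣ m' := Nat.not_dvd_ordCompl hpp (by omega)
  have ha1 : 1 ≤ a := by
    have : p ∣ m := Nat.minFac_dvd m
    exact (hpp.dvd_iff_one_le_factorization (by omega)).1 this
  have hm'1 : 1 ≤ m' := Nat.pos_of_ne_zero (by
    intro h
    rw [h, zero_mul] at hmm
    omega)
  have hlt : m' < m := by
    have : 1 < p ^ a := Nat.one_lt_pow (by omega) hpp.one_lt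
    nlinarith
  exact ⟨m', p, a, hmm, hpp, hpm', ha1, hm'1, hlt⟩

/-- **The alternative.**  A system vanishes to infinite order at all roots of unity or has finite
order at all roots of unity. -/
theorem alternative {F : Fam} (hF : IsSys F) :
    (∀ m, 1 ≤ m → Inf hF m) ∨ (∀ m, 1 ≤ m → ∃ i, SOrd hF m i) := by
  rcases inf_or hF (le_refl 1) with h | h
  · left
    intro m
    induction m using Nat.strong_induction_on with
    | _ m ih =>
      intro hm
      rcases Nat.lt_or_ge 1 m with h1 | h1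
      · obtain ⟨m', p, a, hmm, hpp, hpm', ha1, hm'1, hlt⟩ := split h1
        rw [← hmm]
        exact inf_up hF hm'1 hpp hpm' ha1 (ih m' hlt hm'1)
      · have : m = 1 := by omega
        subst this
        exact h
  · right
    intro m
    induction m using Nat.strong_induction_on with
    | _ m ih =>
      intro hm
      rcases Nat.lt_or_ge 1 m with h1 | h1
      · obtain ⟨m', p, a, hmm, hpp, hpm', ha1, hm'1, hlt⟩ := split h1
        rw [← hmm]
        exact fin_up hF hm'1 hpp hpm' ha1 (ih m' hlt hm'1)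
      · have : m = 1 := by omega
        subst this
        exact h

end Pool.Agent.Q79.KX
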