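import Mathlib
import Pool.Agent.Q79.KX.SysB

set_option autoImplicit false

open Finset Polynomial

namespace Pool.Agent.Q79.KX

open Pool.Agent.Q79.KV

/-! ### Explicit bounds -/

theorem omega_le {m : ℕ} (hm : 1 ≤ m) :
    (m.primeFactors.card : ℝ) ≤ 1.4428 * Real.log ((m : ℝ) + 2) := by
  have h1 : 2 ^ m.primeFactors.card ≤ m := by
    calc 2 ^ m.primeFactors.card = ∏ _p ∈ m.primeFactors, 2 := by rw [Finset.prod_const]
      _ ≤ ∏ p ∈ m.primeFactors, p :=
          Finset.prod_le_prod' (fun p hp => (Nat.prime_of_mem_primeFactors hp).two_le)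
      _ ≤ m := Nat.le_of_dvd hm (Nat.prod_primeFactors_dvd m)
  have h2 : (m.primeFactors.card : ℝ) * Real.log 2 ≤ Real.log ((m : ℝ) + 2) := by
    rw [← Real.log_pow]
    apply Real.log_le_log (by positivity)
    have : ((2 ^ m.primeFactors.card : ℕ) : ℝ) ≤ (m : ℝ) := by exact_mod_cast h1
    push_cast at this
    linarith
  have h3 := Real.log_two_gt_d9
  have h4 : (0 : ℝ) ≤ (m.primeFactors.card : ℝ) := Nat.cast_nonneg _
  nlinarith

theorem zstep {C X s ω : ℝ} (hC : 1 ≤ C) (hX : 1.09 ≤ X) (hω : ω ≤ 1.4428 * X)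
    {k : ℕ} (hk : (k : ℝ) = ω) (hs1 : 1 ≤ s) (hs : s ≤ (10 * C * X) ^ (5 * k)) :
    C * (ω + 1) * s * X ^ 2 * Real.log (s + 1) ≤ (10 * C * X) ^ (5 * (k + 1)) / 10 := by
  set Y := 10 * C * X with hY
  have hY1 : 10.9 ≤ Y := by nlinarith
  have hXY : X ≤ Y / 10 := by rw [hY]; nlinarith
  have hCX : C * X ^ 3 ≤ Y ^ 3 / 1000 := by
    rw [hY]
    have h1 : C ≤ C ^ 3 := by nlinarith [sq_nonneg C, mul_self_nonneg (C - 1)]
    have h2 : 0 ≤ X ^ 3 := by positivity
    nlinarith
  have hlogY : Real.log Y ≤ Y := by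
    have := Real.log_le_sub_one_of_pos (by linarith : 0 < Y)
    linarith
  have hlogY0 : 0 ≤ Real.log Y := Real.log_nonneg (by linarith)
  have hlog : Real.log (s + 1) ≤ Y ^ 2 := by
    have h1 : Real.log (s + 1) ≤ Real.log (2 * Y ^ (5 * k)) := by
      apply Real.log_le_log (by linarith)
      have : (1 : ℝ) ≤ Y ^ (5 * k) := hs1.trans hs
      linarith
    rw [Real.log_mul (by norm_num) (by positivity), Real.log_pow] at h1
    have h2 := Real.log_two_lt_d9
    push_cast at h1
    rw [hk] at h1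
    have h3 : 5 * ω * Real.log Y ≤ 7.214 * X * Y := by
      have h4 : 5 * ω ≤ 7.214 * X := by linarith
      exact mul_le_mul h4 hlogY hlogY0 (by linarith)
    have h5 : 7.214 * X * Y ≤ 0.7214 * Y ^ 2 := by nlinarith
    nlinarith
  have hlog0 : 0 ≤ Real.log (s + 1) := Real.log_nonneg (by linarith)
  have hω1 : ω + 1 ≤ 2.4 * X := by linarith
  have e : C * (ω + 1) * s * X ^ 2 * Real.log (s + 1) =
      (C * X ^ 2 * (ω + 1)) * s * Real.log (s + 1) := by ring
  rw [e]
  have h1 : C * X ^ 2 * (ω + 1) ≤ 2.4 * (Y ^ 3 / 1000) := by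
    have h2 : 0 ≤ C * X ^ 2 := by positivity
    calc C * X ^ 2 * (ω + 1) ≤ C * X ^ 2 * (2.4 * X) := mul_le_mul_of_nonneg_left hω1 h2
      _ = 2.4 * (C * X ^ 3) := by ring
      _ ≤ _ := by linarith
  have h2 : (C * X ^ 2 * (ω + 1)) * s ≤ 2.4 * (Y ^ 3 / 1000) * Y ^ (5 * k) :=
    mul_le_mul h1 hs (by linarith) (by positivity)
  have h3 : (C * X ^ 2 * (ω + 1)) * s * Real.log (s + 1) ≤
      2.4 * (Y ^ 3 / 1000) * Y ^ (5 * k) * Y ^ 2 :=
    mul_le_mul h2 hlog hlog0 (by positivity)
  refine h3.trans ?_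
  have e2 : Y ^ (5 * (k + 1)) = Y ^ (5 * k) * Y ^ 5 := by rw [mul_add, mul_one, pow_add]
  rw [e2]
  have h4 : 0 ≤ Y ^ (5 * k) * Y ^ 5 := by positivity
  have e3 : 2.4 * (Y ^ 3 / 1000) * Y ^ (5 * k) * Y ^ 2 = 0.0024 * (Y ^ (5 * k) * Y ^ 5) := by ring
  rw [e3]
  linarith

/-- **Explicit bounds in the recursion.** -/
theorem hyp_bound {C : ℝ} (hC : 1 ≤ C) {I : ℕ → ℕ} {Z : ℕ → ℝ} {Bad : ℕ → Prop}
    (h : Hyp C I Z Bad) : ∀ m : ℕ, 1 ≤ m →
    (I m : ℝ) + 1 ≤ (10 * C * Real.log ((m : ℝ) + 2)) ^ (5 * m.primeFactors.card) ∧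
    Z m ≤ (10 * C * Real.log ((m : ℝ) + 2)) ^ (5 * (m.primeFactors.card + 1)) / 10 := by
  obtain ⟨h0, -, h2, h3⟩ := h
  have hX : ∀ m : ℕ, 1 ≤ m → (1.09 : ℝ) ≤ Real.log ((m : ℝ) + 2) := by
    intro m hm
    have hmr : (1 : ℝ) ≤ (m : ℝ) := by exact_mod_cast hm
    have h4 : Real.log 3 ≤ Real.log ((m : ℝ) + 2) := Real.log_le_log (by norm_num) (by linarith)
    have h5 : (1.09 : ℝ) ≤ Real.log 3 := by
      rw [Real.le_log_iff_exp_le (by norm_num)]
      have h6 : Real.exp 1.09 = Real.exp 1 * Real.exp 0.09 := by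
        rw [← Real.exp_add]; norm_num
      have h7 := Real.exp_one_lt_d9
      have h8 : Real.exp 0.09 ≤ 1.1 := by
        have h9 := Real.exp_bound' (x := (0.09 : ℝ)) (by norm_num) (by norm_num) (n := 3)
          (by norm_num)
        refine h9.trans ?_
        norm_num [Finset.sum_range_succ, Nat.factorial]
      rw [h6]
      have := Real.exp_pos (0.09 : ℝ)
      nlinarith
    linarith
  have hZ : ∀ m : ℕ, 1 ≤ m →
      (I m : ℝ) + 1 ≤ (10 * C * Real.log ((m : ℝ) + 2)) ^ (5 * m.primeFactors.card) →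
      Z m ≤ (10 * C * Real.log ((m : ℝ) + 2)) ^ (5 * (m.primeFactors.card + 1)) / 10 := by
    intro m hm hI
    have hir : (0 : ℝ) ≤ (I m : ℝ) := Nat.cast_nonneg _
    have h4 := zstep hC (hX m hm) (omega_le hm) rfl
      (by linarith : (1 : ℝ) ≤ (I m : ℝ) + 1) hI
    refine le_trans (h3 m hm) (le_trans (le_of_eq ?_) h4)
    have : (I m : ℝ) + 1 + 1 = (I m : ℝ) + 2 := by ring
    rw [this]
  intro m
  induction m using Nat.strong_induction_on with
  | _ m ih =>
    intro hm
    have hI : (I m : ℝ) + 1 ≤ (10 * C * Real.log ((m : ℝ) + 2)) ^ (5 * m.primeFactors.card) := by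
      rcases Nat.lt_or_ge 1 m with h1 | h1
      · obtain ⟨m', p, a, he, hp, hpm, ha, hm', hlt⟩ := split h1
        obtain ⟨-, hz⟩ := ih m' hlt hm'
        have h4 := h2 m' p a hm' hp hpm ha
        rw [he] at h4
        have hcard : m.primeFactors.card = m'.primeFactors.card + 1 := by
          rw [← he, Nat.Coprime.primeFactors_mul (by
            exact (Nat.Coprime.pow_right a ((Nat.coprime_comm).1
              ((Nat.Prime.coprime_iff_not_dvd hp).2 hpm)))),
            Nat.primeFactors_prime_pow (by omega) hp]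
          rw [Finset.card_union_of_disjoint, Finset.card_singleton]
          rw [Finset.disjoint_singleton_right]
          intro h
          exact hpm (Nat.dvd_of_mem_primeFactors h)
        have hlog2 : Real.log 2 ≤ Real.log p :=
          Real.log_le_log (by norm_num) (by exact_mod_cast hp.two_le)
        have h5 := Real.log_two_gt_d9
        have hir : (0 : ℝ) ≤ (I m : ℝ) := Nat.cast_nonneg _
        have h6 : (I m : ℝ) * 0.69 ≤ Z m' := by
          refine le_trans ?_ h4
          apply mul_le_mul_of_nonneg_left (by linarith) hir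
        have hXX : Real.log ((m' : ℝ) + 2) ≤ Real.log ((m : ℝ) + 2) := by
          have : (m' : ℝ) ≤ m := by exact_mod_cast hlt.le
          apply Real.log_le_log (by positivity) (by linarith)
        have hX' := hX m' hm'
        set Y := 10 * C * Real.log ((m : ℝ) + 2) with hY
        have hY1 : 10.9 ≤ Y := by
          have := hX m hm
          nlinarith
        have h7 : (10 * C * Real.log ((m' : ℝ) + 2)) ^ (5 * (m'.primeFactors.card + 1)) ≤
            Y ^ (5 * (m'.primeFactors.card + 1)) := by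
          apply pow_le_pow_left₀ (by positivity)
          rw [hY]
          exact mul_le_mul_of_nonneg_left hXX (by linarith)
        have h8 : (1 : ℝ) ≤ Y ^ (5 * (m'.primeFactors.card + 1)) / 10 := by
          have h9 : Y ^ 5 ≤ Y ^ (5 * (m'.primeFactors.card + 1)) :=
            pow_le_pow_right₀ (by linarith) (by omega)
          have h10 : (10 : ℝ) ^ 5 ≤ Y ^ 5 := pow_le_pow_left₀ (by norm_num) (by linarith) 5
          norm_num at h10
          linarith
        rw [hcard]
        set W := Y ^ (5 * (m'.primeFactors.card + 1)) with hW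
        linarith
      · have h4 : m = 1 := by omega
        subst h4
        rw [h0]
        simp
    exact ⟨hI, hZ m hm hI⟩

end Pool.Agent.Q79.KX
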