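import Mathlib
import Pool.Agent.Q79.KX.SysB

set_option autoImplicit false

open Finset Polynomial

namespace Pool.Agent.Q79.KX

open Pool.Agent.Q79.KV

/-! ### Sizes -/

/-- the value of the quotient at one root -/
theorem SH_bound {F : Fam} (hF : IsSys F) : ∃ A : ℝ, 0 ≤ A ∧ ∀ (m i : ℕ) (H : ℤ[X]) (v : ℂ)
    (D : ℝ), 1 ≤ m → sg hF (m * (i + 1)) = Ps m ^ i * H → IsPrimitiveRoot v (2 * m) →
    Fac m v D → aeval v H ≠ 0 →
    Real.log ‖aeval v H‖ ≤ A *
      (Real.log ((m * (i + 1) : ℕ) : ℝ) + 4 + 6 * D + 3 * (i + 1)) +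
      i * (Real.log 64 + 3 * Real.log ((m * (i + 1) : ℕ) : ℝ)) -
      i * Real.log ‖aeval v (derivative (cyclotomic (2 * m) ℤ))‖ := by
  obtain ⟨A, hA0, hA⟩ := hF.siz
  refine ⟨A, hA0, ?_⟩
  intro m i H v D hm hH hv hFac hne
  have hL : 1 ≤ m * (i + 1) := Nat.mul_pos hm (Nat.succ_pos i)
  set L := m * (i + 1) with hLd
  have hLr : (1 : ℝ) ≤ (L : ℝ) := by exact_mod_cast hL
  have hmr : (1 : ℝ) ≤ (m : ℝ) := by exact_mod_cast hm
  have hmL : (m : ℝ) ≤ L := by
    exact_mod_cast (Nat.le_mul_of_pos_right m (Nat.succ_pos i))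
  set ρ : ℝ := 1 / (16 * (L : ℝ) ^ 3) with hρ
  have hρ0 : 0 < ρ := by positivity
  have hρm : ρ ≤ 1 / (16 * (m : ℝ) ^ 2) := by
    rw [hρ]
    apply one_div_le_one_div_of_le (by positivity)
    have h1 : (m : ℝ) ^ 2 ≤ (L : ℝ) ^ 2 := by gcongr
    have h2 : (L : ℝ) ^ 2 ≤ (L : ℝ) ^ 3 := pow_le_pow_right₀ hLr (by norm_num)
    linarith
  have h1 := Pool.Agent.Q198.KX.mm m i (sK hF L) (sg hF L) H v ρ
    (Real.exp (A * (Real.log (L : ℝ) + 4 + 6 * D + 3 * (i + 1)))) hm hv hH hρ0 hρm (by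
    intro s hs
    have hv0 : v ≠ 0 := hv.ne_zero (by omega)
    have hx0 : v * Complex.exp s ≠ 0 := mul_ne_zero hv0 (Complex.exp_ne_zero s)
    have h2 := sg_spec hF L ℂ (Units.mk0 _ hx0)
    have h3 : aeval (v * Complex.exp s) (sg hF L) =
        (sg hF L).eval₂ (Int.castRingHom ℂ) ((Units.mk0 _ hx0 : ℂˣ) : ℂ) := rfl
    rw [h3, h2, norm_mul, norm_pow, Units.val_mk0, mul_comm]
    apply mul_le_mul_of_nonneg_right _ (by positivity)
    exact hA m i v s D (Units.mk0 _ hx0) hm hv hFac hs rfl)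
  have hpos : 0 < ‖aeval v H‖ := norm_pos_iff.2 hne
  have hd : 0 < ‖aeval v (derivative (cyclotomic (2 * m) ℤ))‖ := norm_pos_iff.2 (der_ne hm hv)
  have h2 := Real.log_le_log hpos h1
  rw [Real.log_mul (Real.exp_pos _).ne' (by positivity), Real.log_exp, Real.log_pow,
    Real.log_div (by norm_num) (by positivity), Real.log_mul hρ0.ne' hd.ne'] at h2
  have h3 : Real.log ρ = - (Real.log 16 + 3 * Real.log L) := by
    rw [hρ, one_div, Real.log_inv, Real.log_mul (by norm_num) (by positivity), Real.log_pow]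
    norm_num
  have h4 : Real.log 64 = Real.log 4 + Real.log 16 := by
    rw [← Real.log_mul (by norm_num) (by norm_num)]; norm_num
  rw [h3] at h2
  rw [h4]
  linarith

/-- the sum over the conjugates -/
theorem SZ_bound {F : Fam} (hF : IsSys F) : ∃ A : ℝ, 0 ≤ A ∧ ∀ (m i : ℕ) (H : ℤ[X]), 1 ≤ m →
    sg hF (m * (i + 1)) = Ps m ^ i * H → (∀ v : ℂ, IsPrimitiveRoot v (2 * m) → aeval v H ≠ 0) →
    Real.log (∏ v ∈ primitiveRoots (2 * m) ℂ, ‖aeval v H‖) / (Nat.totient (2 * m) : ℝ) ≤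
      (256 * (A + 1)) * ((m.primeFactors.card : ℝ) + 1) * ((i : ℝ) + 1) *
        Real.log ((m : ℝ) + 2) ^ 2 * Real.log ((i : ℝ) + 2) := by
  obtain ⟨A, hA0, hA⟩ := SH_bound hF
  refine ⟨A, hA0, ?_⟩
  intro m i H hm hH hne
  obtain ⟨D, hD1, hD2⟩ := exists_D hm
  have hφ : 0 < Nat.totient (2 * m) := Nat.totient_pos.2 (by omega)
  have hφr : (0 : ℝ) < (Nat.totient (2 * m) : ℝ) := by exact_mod_cast hφ
  have hcard : ((primitiveRoots (2 * m) ℂ).card : ℝ) = (Nat.totient (2 * m) : ℝ) := by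
    rw [Complex.card_primitiveRoots]
  have hv0 := Complex.isPrimitiveRoot_exp (2 * m) (by omega)
  have hder : 0 ≤ ∑ v ∈ primitiveRoots (2 * m) ℂ,
      Real.log ‖aeval v (derivative (cyclotomic (2 * m) ℤ))‖ := by
    rw [← Real.log_prod (fun v hv => norm_ne_zero_iff.2
      (der_ne hm ((mem_primitiveRoots (by omega)).1 hv)))]
    exact Real.log_nonneg (prod_norm_gen (by omega) hv0 (der_ne hm hv0))
  have hsum : Real.log (∏ v ∈ primitiveRoots (2 * m) ℂ, ‖aeval v H‖) ≤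
      (Nat.totient (2 * m) : ℝ) * (A *
      (Real.log ((m * (i + 1) : ℕ) : ℝ) + 4 + 3 * (i + 1)) +
      i * (Real.log 64 + 3 * Real.log ((m * (i + 1) : ℕ) : ℝ))) +
      162 * A * m * (Real.log m) ^ 2 := by
    rw [Real.log_prod (fun v hv => norm_ne_zero_iff.2
      (hne v ((mem_primitiveRoots (by omega)).1 hv)))]
    have h1 : ∀ v ∈ primitiveRoots (2 * m) ℂ, Real.log ‖aeval v H‖ ≤
        (A * (Real.log ((m * (i + 1) : ℕ) : ℝ) + 4 + 3 * (i + 1)) +
          i * (Real.log 64 + 3 * Real.log ((m * (i + 1) : ℕ) : ℝ))) +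
        (6 * A * D v -
          i * Real.log ‖aeval v (derivative (cyclotomic (2 * m) ℤ))‖) := by
      intro v hv
      rw [mem_primitiveRoots (by omega)] at hv
      have h2 := hA m i H v (D v) hm hH hv (hD1 v hv) (hne v hv)
      refine h2.trans (le_of_eq ?_)
      ring
    refine (Finset.sum_le_sum h1).trans ?_
    rw [Finset.sum_add_distrib, Finset.sum_const, nsmul_eq_mul, hcard, Finset.sum_sub_distrib,
      ← Finset.mul_sum, ← Finset.mul_sum]
    have h3 : 6 * A * ∑ v ∈ primitiveRoots (2 * m) ℂ, D v ≤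
        6 * A * (27 * m * (Real.log m) ^ 2) :=
      mul_le_mul_of_nonneg_left hD2 (by positivity)
    have h4 : 0 ≤ (i : ℝ) * ∑ v ∈ primitiveRoots (2 * m) ℂ,
        Real.log ‖aeval v (derivative (cyclotomic (2 * m) ℤ))‖ :=
      mul_nonneg (Nat.cast_nonneg i) hder
    linarith
  have hZ : Real.log (∏ v ∈ primitiveRoots (2 * m) ℂ, ‖aeval v H‖) /
      (Nat.totient (2 * m) : ℝ) ≤ A *
      (Real.log ((m * (i + 1) : ℕ) : ℝ) + 4 + 3 * (i + 1)) +
      i * (Real.log 64 + 3 * Real.log ((m * (i + 1) : ℕ) : ℝ)) +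
      162 * A * ((m.primeFactors.card : ℝ) + 1) * (Real.log m) ^ 2 := by
    rw [div_le_iff₀ hφr]
    refine hsum.trans ?_
    have h5 : (m : ℝ) ≤ ((m.primeFactors.card : ℝ) + 1) * (Nat.totient (2 * m) : ℝ) := by
      exact_mod_cast totient_two_ge m
    have h6 : 162 * A * m * (Real.log m) ^ 2 ≤
        162 * A * (((m.primeFactors.card : ℝ) + 1) *
          (Nat.totient (2 * m) : ℝ)) * (Real.log m) ^ 2 := by
      gcongr
    linarith
  have hmr : (1 : ℝ) ≤ (m : ℝ) := by exact_mod_cast hm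
  have hir : (0 : ℝ) ≤ (i : ℝ) := Nat.cast_nonneg i
  have hlogL : Real.log ((m * (i + 1) : ℕ) : ℝ) ≤
      Real.log ((m : ℝ) + 2) + Real.log ((i : ℝ) + 2) := by
    rw [← Real.log_mul (by positivity) (by positivity)]
    apply Real.log_le_log
    · push_cast; positivity
    · push_cast
      nlinarith
  have h3 : (1 : ℝ) ≤ Real.log ((m : ℝ) + 2) := by
    rw [Real.le_log_iff_exp_le (by linarith)]
    have := Real.exp_one_lt_d9
    linarith
  have h4 : (0.69 : ℝ) ≤ Real.log ((i : ℝ) + 2) := by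
    have h5 : Real.log 2 ≤ Real.log ((i : ℝ) + 2) := Real.log_le_log (by norm_num) (by linarith)
    have := Real.log_two_gt_d9
    linarith
  have h5 : Real.log 64 ≤ 4.2 := by
    have h6 : Real.log 64 = 6 * Real.log 2 := by
      have : (64 : ℝ) = 2 ^ 6 := by norm_num
      rw [this, Real.log_pow]; norm_num
    have := Real.log_two_lt_d9
    rw [h6]; linarith
  have h6 : Real.log m ≤ Real.log ((m : ℝ) + 2) := Real.log_le_log (by linarith) (by linarith)
  have h7 : 0 ≤ Real.log (m : ℝ) := Real.log_nonneg hmr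
  have h8 := numeric (c := A) (ω := (m.primeFactors.card : ℝ) + 1)
    (s := (i : ℝ) + 1) hA0 (by
      have : (0 : ℝ) ≤ (m.primeFactors.card : ℝ) := Nat.cast_nonneg _
      linarith) (by linarith) h3 h4 h7 h6
  refine hZ.trans (le_trans ?_ h8)
  have k1 : A * (Real.log ((m * (i + 1) : ℕ) : ℝ) + 4 + 3 * ((i : ℝ) + 1)) ≤
      A * (Real.log ((m : ℝ) + 2) + Real.log ((i : ℝ) + 2) + 4 + 3 * ((i : ℝ) + 1)) := by
    apply mul_le_mul_of_nonneg_left _ hA0
    linarith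
  have k2 : (i : ℝ) * (Real.log 64 + 3 * Real.log ((m * (i + 1) : ℕ) : ℝ)) ≤
      ((i : ℝ) + 1) * (4.2 + 3 * (Real.log ((m : ℝ) + 2) + Real.log ((i : ℝ) + 2))) := by
    have k3 : Real.log 64 + 3 * Real.log ((m * (i + 1) : ℕ) : ℝ) ≤
      4.2 + 3 * (Real.log ((m : ℝ) + 2) + Real.log ((i : ℝ) + 2)) := by linarith
    calc (i : ℝ) * (Real.log 64 + 3 * Real.log ((m * (i + 1) : ℕ) : ℝ)) ≤
        (i : ℝ) * (4.2 + 3 * (Real.log ((m : ℝ) + 2) + Real.log ((i : ℝ) + 2))) :=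
          mul_le_mul_of_nonneg_left k3 hir
      _ ≤ _ := by
          apply mul_le_mul_of_nonneg_right (by linarith)
          linarith
  linarith

/-! ### The counting theorem for systems -/

/-- a level at which a system vanishes -/
def SBad (F : Fam) (N : ℕ) : Prop :=
  1 ≤ N ∧ ∃ u : ℂˣ, IsPrimitiveRoot (u : ℂ) (2 * N) ∧ F N ℂ u = 0

theorem sval {F : Fam} (hF : IsSys F) {N : ℕ} (hN : 1 ≤ N) {u : ℂˣ}
    (hu : IsPrimitiveRoot (u : ℂ) (2 * N)) :
    ‖aeval (u : ℂ) (sg hF N)‖ = ‖F N ℂ u‖ := by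
  have h2 : aeval (u : ℂ) (sg hF N) = (sg hF N).eval₂ (Int.castRingHom ℂ) (u : ℂ) := rfl
  rw [h2, sg_spec hF N ℂ u, norm_mul, norm_pow, hu.norm'_eq_one (by omega), one_pow, one_mul]

theorem sbad_dvd {F : Fam} (hF : IsSys F) {N : ℕ} (h : SBad F N) : Ps N ∣ sg hF (N * (0 + 1)) := by
  obtain ⟨hN, u, hu, h0⟩ := h
  apply cyc_dvd (by omega) hu
  have e : N * (0 + 1) = N := by ring
  rw [e, ← norm_eq_zero, sval hF hN hu, h0, norm_zero]

theorem s_hyp {F : Fam} (hF : IsSys F) (hfin : ∀ m, 1 ≤ m → ∃ i, SOrd hF m i) :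
    ∃ (C : ℝ) (I : ℕ → ℕ) (Z : ℕ → ℝ), 1 ≤ C ∧ Hyp C I Z (SBad F) := by
  classical
  have hfin' : ∀ m, ∃ i, 1 ≤ m → SOrd hF m i := by
    intro m
    by_cases hm : 1 ≤ m
    · obtain ⟨i, hi⟩ := hfin m hm
      exact ⟨i, fun _ => hi⟩
    · exact ⟨0, fun h => absurd h hm⟩
  choose J hJ using hfin'
  have hH' : ∀ m, ∃ H : ℤ[X], 1 ≤ m → sg hF (m * (J m + 1)) = Ps m ^ J m * H := by
    intro m
    by_cases hm : 1 ≤ m
    · obtain ⟨H, hH⟩ := (hJ m hm).1
      exact ⟨H, fun _ => hH⟩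
    · exact ⟨0, fun h => absurd h hm⟩
  choose H hH using hH'
  have hne : ∀ m, 1 ≤ m → ∀ v : ℂ, IsPrimitiveRoot v (2 * m) → aeval v (H m) ≠ 0 := by
    intro m hm v hv h
    have h1 : Ps m ∣ H m := cyc_dvd (by omega) hv h
    apply (hJ m hm).2
    rw [hH m hm, pow_succ]
    exact mul_dvd_mul_left _ h1
  obtain ⟨A, hA0, hA⟩ := SZ_bound hF
  set Z : ℕ → ℝ := fun m => Real.log (∏ v ∈ primitiveRoots (2 * m) ℂ, ‖aeval v (H m)‖) /
    (Nat.totient (2 * m) : ℝ) with hZ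
  have hφ : ∀ m, 1 ≤ m → (0 : ℝ) < (Nat.totient (2 * m) : ℝ) := by
    intro m hm
    exact_mod_cast Nat.totient_pos.2 (by omega : 0 < 2 * m)
  refine ⟨256 * (A + 1) + 2 * |Z 1|, fun m => if m = 1 then 0 else J m, Z, ?_, ?_, ?_, ?_, ?_⟩
  · have := abs_nonneg (Z 1)
    linarith
  · simp
  · intro m hm T hT
    simp only [hZ]
    rw [le_div_iff₀ (hφ m hm), mul_comm]
    have h1 := skey hF hm (hJ m hm) (hH m hm)
      (L' := m * (J m + 1) + ∑ p ∈ T, m * p) (Nat.le_add_right _ _) T (fun _ => 1)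
      (fun _ => 1) (by
        intro p hp
        obtain ⟨h1, h2, h3⟩ := hT p hp
        refine ⟨h1, h2, le_rfl, ?_⟩
        rw [pow_one p, sdvd_up hF (Nat.mul_pos hm h1.pos) (D := 1) (e := 1) le_rfl _ le_rfl,
          pow_one]
        · exact sbad_dvd hF h3
        · rw [mul_one]
          refine le_trans ?_ (Nat.le_add_left _ _)
          exact Finset.single_le_sum (f := fun p => m * p) (fun _ _ => Nat.zero_le _) hp)
    simp only [Nat.cast_one, one_mul] at h1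
    exact h1
  · intro m l a hm hl hlm ha
    have hc : 1 ≤ m * l ^ a := Nat.mul_pos hm (pow_pos hl.pos _)
    have hc1 : m * l ^ a ≠ 1 := by
      intro h
      have h6 : 1 < l ^ a := Nat.one_lt_pow (by omega) hl.one_lt
      nlinarith
    simp only [hZ]
    rw [if_neg hc1, le_div_iff₀ (hφ m hm), mul_comm]
    have h1 := skey hF hm (hJ m hm) (hH m hm)
      (L' := m * (J m + 1) + m * l ^ a * (J (m * l ^ a) + 1)) (Nat.le_add_right _ _)
      {l} (fun _ => a) (fun _ => J (m * l ^ a)) (by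
        intro p hp
        rw [Finset.mem_singleton] at hp
        subst hp
        refine ⟨hl, hlm, ha, ?_⟩
        rw [sdvd_up hF hc (Nat.succ_pos _) (Nat.le_add_left _ _) (Nat.le_succ _)]
        exact (hJ _ hc).1)
    rw [Finset.sum_singleton] at h1
    exact h1
  · intro m hm
    have h1 := hA m (J m) (H m) hm (hH m hm) (hne m hm)
    have hmr : (1 : ℝ) ≤ (m : ℝ) := by exact_mod_cast hm
    have hlog1 : ∀ x : ℝ, 1 ≤ x → (1 : ℝ) ≤ Real.log (x + 2) := by
      intro x hx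
      rw [Real.le_log_iff_exp_le (by linarith)]
      have := Real.exp_one_lt_d9
      linarith
    have hlog2 : ∀ k : ℕ, (0.69 : ℝ) ≤ Real.log ((k : ℝ) + 2) := by
      intro k
      have h5 : Real.log 2 ≤ Real.log ((k : ℝ) + 2) :=
        Real.log_le_log (by norm_num) (by have : (0 : ℝ) ≤ k := Nat.cast_nonneg k; linarith)
      have := Real.log_two_gt_d9
      linarith
    by_cases h : m = 1
    · subst h
      beta_reduce
      rw [if_pos rfl]
      have h3 := hlog1 1 le_rfl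
      have h4 := hlog2 0
      have h5 : (1 : ℝ) ≤ Real.log ((1 : ℝ) + 2) ^ 2 := one_le_pow₀ h3
      simp only [Nat.cast_one, Nat.primeFactors_one, Finset.card_empty, Nat.cast_zero] at h4 ⊢
      have h6 : Z 1 ≤ |Z 1| := le_abs_self _
      have h7 : 0 ≤ |Z 1| := abs_nonneg _
      have h8 : (0.69 : ℝ) ≤ Real.log ((1 : ℝ) + 2) ^ 2 * Real.log ((0 : ℝ) + 2) := by
        calc (0.69 : ℝ) = 1 * 0.69 := by norm_num
          _ ≤ _ := mul_le_mul h5 h4 (by norm_num) (by positivity)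
      have e : (256 * (A + 1) + 2 * |Z 1|) * ((0 : ℝ) + 1) * ((0 : ℝ) + 1) *
          Real.log ((1 : ℝ) + 2) ^ 2 * Real.log ((0 : ℝ) + 2) =
          (256 * (A + 1) + 2 * |Z 1|) *
          (Real.log ((1 : ℝ) + 2) ^ 2 * Real.log ((0 : ℝ) + 2)) := by ring
      rw [e]
      have h9 : (256 * (A + 1) + 2 * |Z 1|) * 0.69 ≤ (256 * (A + 1) + 2 * |Z 1|) *
          (Real.log ((1 : ℝ) + 2) ^ 2 * Real.log ((0 : ℝ) + 2)) :=
        mul_le_mul_of_nonneg_left h8 (by linarith)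
      have h10 : Z 1 ≤ (256 * (A + 1) + 2 * |Z 1|) * 0.69 := by
        generalize |Z 1| = y at h6 h7
        linarith
      exact h10.trans h9
    · beta_reduce
      rw [if_neg h]
      refine h1.trans ?_
      have h3 := hlog1 m hmr
      have h4 := hlog2 (J m)
      have h5 : (0 : ℝ) ≤ ((m.primeFactors.card : ℝ) + 1) * ((J m : ℝ) + 1) *
        Real.log ((m : ℝ) + 2) ^ 2 * Real.log ((J m : ℝ) + 2) := by
        have : 0 ≤ Real.log ((J m : ℝ) + 2) := by linarith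
        positivity
      have h7 : 0 ≤ |Z 1| := abs_nonneg _
      nlinarith

/-- lower bounds at a level where the system does not vanish -/
theorem s_low {F : Fam} (hF : IsSys F) : ∃ C : ℝ, 0 ≤ C ∧ ∀ N : ℕ, 2 ≤ N → ¬ SBad F N →
    ∀ u : ℂˣ, IsPrimitiveRoot (u : ℂ) (2 * N) →
    Real.exp (-(C * N * (Real.log N) ^ 2)) ≤ ‖F N ℂ u‖ := by
  obtain ⟨A, hA0, hA⟩ := SH_bound hF
  refine ⟨180 * A, by positivity, ?_⟩
  intro N hN hbad u hu
  have hN1 : 1 ≤ N := by omega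
  have hNr : (0 : ℝ) < N := by exact_mod_cast (by omega : 0 < N)
  have hne : ∀ v : ℂ, IsPrimitiveRoot v (2 * N) → aeval v (sg hF (N * (0 + 1))) ≠ 0 := by
    intro v hv h
    have hv0 : v ≠ 0 := hv.ne_zero (by omega)
    apply hbad
    refine ⟨hN1, Units.mk0 v hv0, hv, ?_⟩
    have e : N * (0 + 1) = N := by ring
    rw [e] at h
    have h1 := sval hF hN1 (u := Units.mk0 v hv0) hv
    rw [Units.val_mk0, h, norm_zero] at h1
    exact norm_eq_zero.1 h1.symm
  obtain ⟨D, hD1, hD2⟩ := exists_D hN1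
  have hDn : ∀ v ∈ primitiveRoots (2 * N) ℂ, 0 ≤ D v := by
    intro v hv
    exact D_nonneg hN1 (hD1 v ((mem_primitiveRoots (by omega)).1 hv))
  have hlog := log_ge hN
  set f : ℂ → ℝ := fun v => Real.log ‖aeval v (sg hF (N * (0 + 1)))‖ with hf
  have h1 : ∀ v ∈ primitiveRoots (2 * N) ℂ, f v ≤ A * (Real.log N + 7) + 6 * A * D v := by
    intro v hv
    have hv' := (mem_primitiveRoots (by omega)).1 hv
    have h2 := hA N 0 (sg hF (N * (0 + 1))) v (D v) hN1 (by rw [pow_zero, one_mul]) hv'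
      (hD1 v hv') (hne v hv')
    have e : N * (0 + 1) = N := by ring
    simp only [e] at h2
    rw [hf]
    simp only [e]
    push_cast at h2
    refine h2.trans (le_of_eq ?_)
    ring
  have hprod : 0 ≤ ∑ v ∈ primitiveRoots (2 * N) ℂ, f v := by
    rw [hf, ← Real.log_prod (fun v hv => norm_ne_zero_iff.2
      (hne v ((mem_primitiveRoots (by omega)).1 hv)))]
    have hv0 := Complex.isPrimitiveRoot_exp (2 * N) (by omega)
    exact Real.log_nonneg (prod_norm_gen (by omega) hv0 (hne _ hv0))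
  have hu' : (u : ℂ) ∈ primitiveRoots (2 * N) ℂ := (mem_primitiveRoots (by omega)).2 hu
  have hcard : ((primitiveRoots (2 * N) ℂ).card : ℝ) ≤ N := by
    rw [Complex.card_primitiveRoots]
    exact_mod_cast totient_two_mul_le N
  -- the value at `u` is minus the sum of the others
  have h2 : -(f u) ≤ ∑ v ∈ primitiveRoots (2 * N) ℂ, (A * (Real.log N + 7) + 6 * A * D v) := by
    rw [← Finset.add_sum_erase _ _ hu'] at hprod ⊢
    have h3 : ∑ v ∈ (primitiveRoots (2 * N) ℂ).erase u, f v ≤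
        ∑ v ∈ (primitiveRoots (2 * N) ℂ).erase u, (A * (Real.log N + 7) + 6 * A * D v) :=
      Finset.sum_le_sum (fun v hv => h1 v (Finset.mem_of_mem_erase hv))
    have h4 : 0 ≤ A * (Real.log N + 7) + 6 * A * D (u : ℂ) := by
      have := hDn _ hu'
      positivity
    linarith
  have h3 : ∑ v ∈ primitiveRoots (2 * N) ℂ, (A * (Real.log N + 7) + 6 * A * D v) ≤
      180 * A * N * (Real.log N) ^ 2 := by
    rw [Finset.sum_add_distrib, Finset.sum_const, nsmul_eq_mul, ← Finset.mul_sum]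
    have h4 : ((primitiveRoots (2 * N) ℂ).card : ℝ) * (A * (Real.log N + 7)) ≤
        N * (A * (18 * (Real.log N) ^ 2)) := by
      apply mul_le_mul hcard _ (by positivity) hNr.le
      apply mul_le_mul_of_nonneg_left _ hA0
      nlinarith
    have h5 : 6 * A * ∑ v ∈ primitiveRoots (2 * N) ℂ, D v ≤
        6 * A * (27 * N * (Real.log N) ^ 2) := mul_le_mul_of_nonneg_left hD2 (by positivity)
    calc _ ≤ N * (A * (18 * (Real.log N) ^ 2)) + 6 * A * (27 * N * (Real.log N) ^ 2) :=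
          add_le_add h4 h5
      _ = _ := by ring
  have hpos : 0 < ‖F N ℂ u‖ := by
    rw [← sval hF hN1 hu]
    have := hne u hu
    have e : N * (0 + 1) = N := by ring
    rw [e] at this
    exact norm_pos_iff.2 this
  rw [← Real.le_log_iff_exp_le hpos]
  have h4 : Real.log ‖F N ℂ u‖ = f u := by
    rw [hf]
    have e : N * (0 + 1) = N := by ring
    simp only [e]
    rw [sval hF hN1 hu]
  rw [h4]
  linarith

/-- **The main theorem on systems.** -/
theorem sys_main {F : Fam} (hF : IsSys F) :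
    (∀ N : ℕ, 1 ≤ N → ∀ u : ℂˣ, IsPrimitiveRoot (u : ℂ) (2 * N) → F N ℂ u = 0) ∨
    ((∃ x₀ : ℕ, ∀ x : ℕ, x₀ ≤ x → (Nat.card {N : ℕ // 1 ≤ N ∧ N ≤ x ∧ SBad F N} : ℝ) ≤
      x * Real.exp (-(1 / 100) * Real.sqrt (Real.log x * Real.log (Real.log x)))) ∧
    ∃ C : ℝ, 0 ≤ C ∧ ∀ N : ℕ, 2 ≤ N → ¬ SBad F N → ∀ u : ℂˣ, IsPrimitiveRoot (u : ℂ) (2 * N) →
      Real.exp (-(C * N * (Real.log N) ^ 2)) ≤ ‖F N ℂ u‖) := by
  rcases alternative hF with h | h
  · left
    intro N hN u hu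
    have h1 := inf_dvd hF hN (h N hN) 1 (L' := N * (1 + 1)) le_rfl
    rw [sdvd_up hF hN (D := 1) (e := 1) le_rfl (by rw [mul_one]; omega) le_rfl, pow_one] at h1
    obtain ⟨Q, hQ⟩ := h1
    have h2 := congrArg (aeval (u : ℂ)) hQ
    rw [map_mul, Ps_root hN hu, zero_mul, mul_one] at h2
    have h3 := sval hF hN hu
    rw [h2, norm_zero] at h3
    exact norm_eq_zero.1 h3.symm
  · right
    obtain ⟨C, I, Z, hC, hhyp⟩ := s_hyp hF h
    obtain ⟨x₀, hx₀⟩ := nt C hC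
    exact ⟨⟨x₀, fun x hx => hx₀ I Z (SBad F) hhyp x hx⟩, s_low hF⟩

end Pool.Agent.Q79.KX
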