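import Mathlib
import Pool.Agent.Q79.KX.EvA
import Pool.Agent.Q79.KX.SysC

set_option autoImplicit false

open Finset Polynomial

namespace Pool.Agent.Q79.KX

open Pool.Agent.Q79.KV ArithmeticFunction

/-! ### Norms and cyclotomic factors, all prime powers -/

/-- the congruence modulo `p` -/
theorem cyc_congr2 {m p a : ℕ} (hp : p.Prime) (ha : 1 ≤ a) :
    ∃ (k : ℕ) (R : ℤ[X]), 1 ≤ k ∧
      cyclotomic (2 * (m * p ^ a)) ℤ = cyclotomic (2 * m) ℤ ^ k + C (p : ℤ) * R := by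
  have hF : Fact p.Prime := ⟨hp⟩
  have hgen : ∀ a : ℕ, ∃ k : ℕ, 1 ≤ k ∧ cyclotomic (2 * m * p ^ (a + 1)) (ZMod p) =
      cyclotomic (2 * m) (ZMod p) ^ k := by
    intro a
    induction a with
    | zero =>
      rw [zero_add, pow_one]
      by_cases h : p ∣ 2 * m
      · exact ⟨p, hp.one_le, cyclotomic_mul_prime_dvd_eq_pow (ZMod p) h⟩
      · exact ⟨p - 1, Nat.sub_pos_of_lt hp.one_lt,
          cyclotomic_mul_prime_eq_pow_of_not_dvd (ZMod p) h⟩
    | succ a ih =>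
      obtain ⟨k, hk, h⟩ := ih
      refine ⟨k * p, Nat.mul_pos hk hp.pos, ?_⟩
      rw [pow_succ, ← mul_assoc, cyclotomic_mul_prime_dvd_eq_pow (ZMod p)
        (Dvd.dvd.mul_left (dvd_pow_self p (Nat.succ_ne_zero a)) _), h, ← pow_mul]
  obtain ⟨b, rfl⟩ : ∃ b, a = b + 1 := ⟨a - 1, by omega⟩
  obtain ⟨k, hk, hkc⟩ := hgen b
  rw [mul_assoc] at hkc
  have hdvd : C (p : ℤ) ∣ cyclotomic (2 * (m * p ^ (b + 1))) ℤ - cyclotomic (2 * m) ℤ ^ k := by
    rw [C_dvd_iff_dvd_coeff]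
    intro i
    rw [← ZMod.intCast_zmod_eq_zero_iff_dvd]
    have h1 : (cyclotomic (2 * (m * p ^ (b + 1))) ℤ - cyclotomic (2 * m) ℤ ^ k).map
        (Int.castRingHom (ZMod p)) = 0 := by
      rw [Polynomial.map_sub, Polynomial.map_pow, map_cyclotomic_int, map_cyclotomic_int, hkc,
        sub_self]
    have h2 : ((cyclotomic (2 * (m * p ^ (b + 1))) ℤ - cyclotomic (2 * m) ℤ ^ k).map
        (Int.castRingHom (ZMod p))).coeff i = 0 := by rw [h1, coeff_zero]
    rw [coeff_map] at h2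
    exact h2
  obtain ⟨R, hR⟩ := hdvd
  exact ⟨k, R, hk, by rw [← hR]; ring⟩

/-- the norm of one factor -/
theorem norm_cyc2 {m p a : ℕ} (hm : 1 ≤ m) (hp : p.Prime) (ha : 1 ≤ a) (v : ℂ)
    (hv : IsPrimitiveRoot v (2 * m)) : (p : ℝ) ^ Nat.totient (2 * m) ≤
      ∏ v ∈ primitiveRoots (2 * m) ℂ, ‖aeval v (cyclotomic (2 * (m * p ^ a)) ℤ)‖ := by
  obtain ⟨k, R, hk, hR⟩ := cyc_congr2 (m := m) hp ha
  have hval : ∀ w ∈ primitiveRoots (2 * m) ℂ,
      aeval w (cyclotomic (2 * (m * p ^ a)) ℤ) = p * aeval w R := by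
    intro w hw
    have hw' : IsPrimitiveRoot w (2 * m) := isPrimitiveRoot_of_mem_primitiveRoots hw
    have h1 : aeval w (cyclotomic (2 * m) ℤ) = 0 := by
      have h2 := hw'.isRoot_cyclotomic (by omega)
      rw [IsRoot.def, ← map_cyclotomic_int, eval_map] at h2
      rw [aeval_def, algebraMap_int_eq]
      exact h2
    rw [hR, map_add, map_pow, h1, zero_pow (by omega), zero_add, map_mul, aeval_C]
    simp
  have hR0 : aeval v R ≠ 0 := by
    intro h
    have h1 := hval v ((mem_primitiveRoots (by omega)).2 hv)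
    rw [h, mul_zero] at h1
    have h2 : (cyclotomic (2 * (m * p ^ a)) ℂ).IsRoot v := by
      rw [IsRoot.def, ← map_cyclotomic_int, eval_map]
      rw [aeval_def, algebraMap_int_eq] at h1
      exact h1
    have hpos : 0 < 2 * (m * p ^ a) := by
      have := pow_pos hp.pos a
      positivity
    have hne : NeZero ((2 * (m * p ^ a) : ℕ) : ℂ) := ⟨Nat.cast_ne_zero.2 hpos.ne'⟩
    rw [isRoot_cyclotomic_iff] at h2
    have h3 := h2.unique hv
    have h4 : 1 < p ^ a := Nat.one_lt_pow (by omega) hp.one_lt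
    have h5 : 2 * m * p ^ a = 2 * m * 1 := by
      rw [mul_one, mul_assoc]
      exact h3
    have h6 := Nat.eq_of_mul_eq_mul_left (by omega : 0 < 2 * m) h5
    omega
  have h1 := prod_norm_gen (m := 2 * m) (by omega) hv hR0
  rw [Finset.prod_congr rfl fun w hw => by rw [hval w hw, norm_mul, Complex.norm_natCast]]
  rw [Finset.prod_mul_distrib, Finset.prod_const, Complex.card_primitiveRoots]
  exact le_mul_of_one_le_right (by positivity) h1

theorem norm_cyc3 {m r : ℕ} (hm : 1 ≤ m) (hr : IsPrimePow r) (v : ℂ)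
    (hv : IsPrimitiveRoot v (2 * m)) : Real.exp (Λ r) ^ Nat.totient (2 * m) ≤
      ∏ v ∈ primitiveRoots (2 * m) ℂ, ‖aeval v (cyclotomic (2 * (m * r)) ℤ)‖ := by
  obtain ⟨p, a, hp, ha, rfl⟩ := (isPrimePow_nat_iff r).1 hr
  rw [vonMangoldt_apply_pow (by omega), vonMangoldt_apply_prime hp,
    Real.exp_log (by exact_mod_cast hp.pos)]
  exact norm_cyc2 hm hp ha v hv

/-- norms and cyclotomic factors -/
theorem nl2 {m : ℕ} (hm : 1 ≤ m) (A : ℤ[X]) (v : ℂ) (hv : IsPrimitiveRoot v (2 * m))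
    (hA : aeval v A ≠ 0) (T : Finset ℕ) (hT : ∀ r ∈ T, IsPrimePow r ∧
      cyclotomic (2 * (m * r)) ℤ ∣ A) :
    (Nat.totient (2 * m) : ℝ) * ∑ r ∈ T, Λ r ≤
      Real.log (∏ v ∈ primitiveRoots (2 * m) ℂ, ‖aeval v A‖) := by
  have hirr : ∀ r ∈ T, Irreducible (cyclotomic (2 * (m * r)) ℤ) := by
    intro r hr
    refine cyclotomic.irreducible ?_
    have := (hT r hr).1.pos
    positivity
  have hdvd : ∏ r ∈ T, cyclotomic (2 * (m * r)) ℤ ∣ A := by
    refine Finset.prod_dvd_of_isRelPrime ?_ fun p hp => (hT p hp).2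
    intro p hp q hq hpq
    change IsRelPrime (cyclotomic (2 * (m * p)) ℤ) (cyclotomic (2 * (m * q)) ℤ)
    rw [(hirr p hp).isRelPrime_iff_not_dvd]
    intro hd
    have h1 : Associated (cyclotomic (2 * (m * p)) ℤ) (cyclotomic (2 * (m * q)) ℤ) :=
      (hirr p hp).associated_of_dvd (hirr q hq) hd
    have h2 := eq_of_monic_of_associated (cyclotomic.monic _ ℤ) (cyclotomic.monic _ ℤ) h1
    have h3 := cyclotomic_injective h2
    apply hpq
    have h5 : 2 * m * p = 2 * m * q := by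
      calc 2 * m * p = 2 * (m * p) := by ring
        _ = 2 * (m * q) := h3
        _ = 2 * m * q := by ring
    exact Nat.eq_of_mul_eq_mul_left (by omega : 0 < 2 * m) h5
  obtain ⟨Q, hQ⟩ := hdvd
  have hQ0 : aeval v Q ≠ 0 := by
    intro h
    apply hA
    rw [hQ, map_mul, h, mul_zero]
  have h1 := prod_norm_gen (m := 2 * m) (by omega) hv hQ0
  have h2 : ∏ w ∈ primitiveRoots (2 * m) ℂ, ‖aeval w A‖ =
      (∏ r ∈ T, (∏ w ∈ primitiveRoots (2 * m) ℂ,
        ‖aeval w (cyclotomic (2 * (m * r)) ℤ)‖)) *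
      ∏ w ∈ primitiveRoots (2 * m) ℂ, ‖aeval w Q‖ := by
    have h3 : ∀ w ∈ primitiveRoots (2 * m) ℂ, ‖aeval w A‖ =
        (∏ r ∈ T, ‖aeval w (cyclotomic (2 * (m * r)) ℤ)‖) * ‖aeval w Q‖ := by
      intro w _
      rw [hQ, map_mul, norm_mul, map_prod, norm_prod]
    rw [Finset.prod_congr rfl h3, Finset.prod_mul_distrib, Finset.prod_comm]
  have h4 : ∏ r ∈ T, (Real.exp (Λ r) ^ Nat.totient (2 * m)) ≤
      ∏ w ∈ primitiveRoots (2 * m) ℂ, ‖aeval w A‖ := by
    rw [h2]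
    have h5 : ∏ r ∈ T, (Real.exp (Λ r) ^ Nat.totient (2 * m)) ≤
        ∏ r ∈ T, (∏ w ∈ primitiveRoots (2 * m) ℂ,
          ‖aeval w (cyclotomic (2 * (m * r)) ℤ)‖) :=
      Finset.prod_le_prod (fun p _ => by positivity) fun r hr => norm_cyc3 hm (hT r hr).1 v hv
    refine h5.trans (le_mul_of_one_le_right ?_ h1)
    exact Finset.prod_nonneg fun p _ => Finset.prod_nonneg fun w _ => norm_nonneg _
  have h5 : 0 < ∏ r ∈ T, (Real.exp (Λ r) ^ Nat.totient (2 * m)) :=
    Finset.prod_pos fun p _ => by positivity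
  have h6 := Real.log_le_log h5 h4
  refine le_trans (le_of_eq ?_) h6
  rw [Real.log_prod (fun p _ => by positivity), Finset.mul_sum]
  refine Finset.sum_congr rfl fun p _ => ?_
  rw [Real.log_pow, Real.log_exp]

/-- the sum over all bad levels in a tower, for a system -/
theorem stower {F : Fam} (hF : IsSys F) {m i : ℕ} (hm : 1 ≤ m) (ho : SOrd hF m i) {H : ℤ[X]}
    (hH : sg hF (m * (i + 1)) = Ps m ^ i * H) (T : Finset ℕ)
    (hT : ∀ r ∈ T, SBad F (m * r)) :
    (Nat.totient (2 * m) : ℝ) * ∑ r ∈ T, Λ r ≤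
      Real.log (∏ v ∈ primitiveRoots (2 * m) ℂ, ‖aeval v H‖) := by
  classical
  set T' := T.filter IsPrimePow with hT'
  have hsum : ∑ r ∈ T, Λ r = ∑ r ∈ T', Λ r := by
    rw [hT', Finset.sum_filter]
    apply Finset.sum_congr rfl
    intro r _
    by_cases h : IsPrimePow r
    · rw [if_pos h]
    · rw [if_neg h, vonMangoldt_eq_zero_iff.2 h]
  rw [hsum]
  set L' := m * (i + 1) + ∑ r ∈ T', m * r with hL'
  obtain ⟨H', hH', hnorm, hne⟩ := squot hF hm ho hH (L' := L') (Nat.le_add_right _ _)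
  have hv0 := Complex.isPrimitiveRoot_exp (2 * m) (by omega)
  have h1 := nl2 hm H' _ hv0 (hne _ hv0) T' (fun r hr => by
    rw [hT', Finset.mem_filter] at hr
    refine ⟨hr.2, ?_⟩
    have hr1 : 1 < r := hr.2.one_lt
    have hc1 : 1 ≤ m * r := Nat.mul_pos hm (by omega)
    have hcne : m * r ≠ m := by
      intro h
      nlinarith
    have h5 : Ps (m * r) ∣ sg hF L' := by
      have h6 := sbad_dvd hF (hT r hr.1)
      have h7 := (sdvd_up hF hc1 (D := 1) (e := 1) (L' := L') le_rfl (by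
        rw [mul_one, hL']
        refine le_trans ?_ (Nat.le_add_left _ _)
        exact Finset.single_le_sum (f := fun r => m * r) (fun _ _ => Nat.zero_le _)
          (Finset.mem_filter.2 hr)) le_rfl).2 (by
          rw [pow_one]
          exact h6)
      rwa [pow_one] at h7
    rw [hH'] at h5
    rcases (Ps_prime hc1).dvd_or_dvd h5 with h6 | h6
    · exact absurd ((Ps_prime hc1).dvd_of_dvd_pow h6) (Ps_not_dvd hc1 hm hcne)
    · exact h6)
  refine h1.trans (le_of_eq ?_)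
  congr 1
  apply Finset.prod_congr rfl
  intro v hv
  rw [mem_primitiveRoots (by omega)] at hv
  exact hnorm v hv

end Pool.Agent.Q79.KX
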