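import Mathlib
import Pool.Agent.Q79.KX.EvB

set_option autoImplicit false

open Finset Polynomial

namespace Pool.Agent.Q79.KX

open Pool.Agent.Q79.KV ArithmeticFunction

/-- the recursion, and the sum over all bad levels in a tower -/
theorem s_hyp2 {F : Fam} (hF : IsSys F) (hfin : ∀ m, 1 ≤ m → ∃ i, SOrd hF m i) :
    ∃ (C : ℝ) (I : ℕ → ℕ) (Z : ℕ → ℝ), 1 ≤ C ∧ Hyp C I Z (SBad F) ∧
      ∀ m : ℕ, 1 ≤ m → ∀ T : Finset ℕ, (∀ r ∈ T, SBad F (m * r)) → ∑ r ∈ T, Λ r ≤ Z m := by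
  classical
  have hfin' : ∀ m, ∃ i, 1 ≤ m → SOrd hF m i := by
    intro m
    by_cases hm : 1 ≤ m
    · obtain ⟨i, hi⟩ := hfin m hm
      exact ⟨i, fun _ => hi⟩
    · exact ⟨0, fun h => absurd h hm⟩
  choose J hJ using hfin'
  have hH' : ∀ m, ∃ H : ℤ[X], 1 ≤ m → sg hF (m * (J m + 1)) = Ps m ^ J m * H := by
    intro m
    by_cases hm : 1 ≤ m
    · obtain ⟨H, hH⟩ := (hJ m hm).1
      exact ⟨H, fun _ => hH⟩
    · exact ⟨0, fun h => absurd h hm⟩
  choose H hH using hH'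
  have hne : ∀ m, 1 ≤ m → ∀ v : ℂ, IsPrimitiveRoot v (2 * m) → aeval v (H m) ≠ 0 := by
    intro m hm v hv h
    have h1 : Ps m ∣ H m := cyc_dvd (by omega) hv h
    apply (hJ m hm).2
    rw [hH m hm, pow_succ]
    exact mul_dvd_mul_left _ h1
  obtain ⟨A, hA0, hA⟩ := SZ_bound hF
  set Z : ℕ → ℝ := fun m => Real.log (∏ v ∈ primitiveRoots (2 * m) ℂ, ‖aeval v (H m)‖) /
    (Nat.totient (2 * m) : ℝ) with hZ
  have hφ : ∀ m, 1 ≤ m → (0 : ℝ) < (Nat.totient (2 * m) : ℝ) := by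
    intro m hm
    exact_mod_cast Nat.totient_pos.2 (by omega : 0 < 2 * m)
  refine ⟨256 * (A + 1) + 2 * |Z 1|, fun m => if m = 1 then 0 else J m, Z, ?_,
    ⟨?_, ?_, ?_, ?_⟩, ?_⟩
  · have := abs_nonneg (Z 1)
    linarith
  · simp
  · intro m hm T hT
    simp only [hZ]
    rw [le_div_iff₀ (hφ m hm), mul_comm]
    have h1 := skey hF hm (hJ m hm) (hH m hm)
      (L' := m * (J m + 1) + ∑ p ∈ T, m * p) (Nat.le_add_right _ _) T (fun _ => 1)
      (fun _ => 1) (by
        intro p hp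
        obtain ⟨h1, h2, h3⟩ := hT p hp
        refine ⟨h1, h2, le_rfl, ?_⟩
        rw [pow_one p, sdvd_up hF (Nat.mul_pos hm h1.pos) (D := 1) (e := 1) le_rfl _ le_rfl,
          pow_one]
        · exact sbad_dvd hF h3
        · rw [mul_one]
          refine le_trans ?_ (Nat.le_add_left _ _)
          exact Finset.single_le_sum (f := fun p => m * p) (fun _ _ => Nat.zero_le _) hp)
    simp only [Nat.cast_one, one_mul] at h1
    exact h1
  · intro m l a hm hl hlm ha
    have hc : 1 ≤ m * l ^ a := Nat.mul_pos hm (pow_pos hl.pos _)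
    have hc1 : m * l ^ a ≠ 1 := by
      intro h
      have h6 : 1 < l ^ a := Nat.one_lt_pow (by omega) hl.one_lt
      nlinarith
    simp only [hZ]
    rw [if_neg hc1, le_div_iff₀ (hφ m hm), mul_comm]
    have h1 := skey hF hm (hJ m hm) (hH m hm)
      (L' := m * (J m + 1) + m * l ^ a * (J (m * l ^ a) + 1)) (Nat.le_add_right _ _)
      {l} (fun _ => a) (fun _ => J (m * l ^ a)) (by
        intro p hp
        rw [Finset.mem_singleton] at hp
        subst hp
        refine ⟨hl, hlm, ha, ?_⟩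
        rw [sdvd_up hF hc (Nat.succ_pos _) (Nat.le_add_left _ _) (Nat.le_succ _)]
        exact (hJ _ hc).1)
    rw [Finset.sum_singleton] at h1
    exact h1
  · intro m hm
    have h1 := hA m (J m) (H m) hm (hH m hm) (hne m hm)
    have hmr : (1 : ℝ) ≤ (m : ℝ) := by exact_mod_cast hm
    have hlog1 : ∀ x : ℝ, 1 ≤ x → (1 : ℝ) ≤ Real.log (x + 2) := by
      intro x hx
      rw [Real.le_log_iff_exp_le (by linarith)]
      have := Real.exp_one_lt_d9
      linarith
    have hlog2 : ∀ k : ℕ, (0.69 : ℝ) ≤ Real.log ((k : ℝ) + 2) := by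
      intro k
      have h5 : Real.log 2 ≤ Real.log ((k : ℝ) + 2) :=
        Real.log_le_log (by norm_num) (by have : (0 : ℝ) ≤ k := Nat.cast_nonneg k; linarith)
      have := Real.log_two_gt_d9
      linarith
    by_cases h : m = 1
    · subst h
      beta_reduce
      rw [if_pos rfl]
      have h3 := hlog1 1 le_rfl
      have h4 := hlog2 0
      have h5 : (1 : ℝ) ≤ Real.log ((1 : ℝ) + 2) ^ 2 := one_le_pow₀ h3
      simp only [Nat.cast_one, Nat.primeFactors_one, Finset.card_empty, Nat.cast_zero] at h4 ⊢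
      have h6 : Z 1 ≤ |Z 1| := le_abs_self _
      have h7 : 0 ≤ |Z 1| := abs_nonneg _
      have h8 : (0.69 : ℝ) ≤ Real.log ((1 : ℝ) + 2) ^ 2 * Real.log ((0 : ℝ) + 2) := by
        calc (0.69 : ℝ) = 1 * 0.69 := by norm_num
          _ ≤ _ := mul_le_mul h5 h4 (by norm_num) (by positivity)
      have e : (256 * (A + 1) + 2 * |Z 1|) * ((0 : ℝ) + 1) * ((0 : ℝ) + 1) *
          Real.log ((1 : ℝ) + 2) ^ 2 * Real.log ((0 : ℝ) + 2) =
          (256 * (A + 1) + 2 * |Z 1|) *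
          (Real.log ((1 : ℝ) + 2) ^ 2 * Real.log ((0 : ℝ) + 2)) := by ring
      rw [e]
      have h9 : (256 * (A + 1) + 2 * |Z 1|) * 0.69 ≤ (256 * (A + 1) + 2 * |Z 1|) *
          (Real.log ((1 : ℝ) + 2) ^ 2 * Real.log ((0 : ℝ) + 2)) :=
        mul_le_mul_of_nonneg_left h8 (by linarith)
      have h10 : Z 1 ≤ (256 * (A + 1) + 2 * |Z 1|) * 0.69 := by
        generalize |Z 1| = y at h6 h7
        linarith
      exact h10.trans h9
    · beta_reduce
      rw [if_neg h]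
      refine h1.trans ?_
      have h3 := hlog1 m hmr
      have h4 := hlog2 (J m)
      have h5 : (0 : ℝ) ≤ ((m.primeFactors.card : ℝ) + 1) * ((J m : ℝ) + 1) *
        Real.log ((m : ℝ) + 2) ^ 2 * Real.log ((J m : ℝ) + 2) := by
        have : 0 ≤ Real.log ((J m : ℝ) + 2) := by linarith
        positivity
      have h7 : 0 ≤ |Z 1| := abs_nonneg _
      nlinarith
  · intro m hm T hT
    simp only [hZ]
    rw [le_div_iff₀ (hφ m hm), mul_comm]
    exact stower hF hm (hJ m hm) (hH m hm) T hT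

/-- **Towers of levels, for systems.** -/
theorem sys_tower {F : Fam} (hF : IsSys F) :
    (∀ N : ℕ, 1 ≤ N → ∀ u : ℂˣ, IsPrimitiveRoot (u : ℂ) (2 * N) → F N ℂ u = 0) ∨
    ∃ C : ℝ, 1 ≤ C ∧ ∀ m : ℕ, 1 ≤ m → ∀ T : Finset ℕ, (∀ r ∈ T, SBad F (m * r)) →
      ∑ r ∈ T, Λ r ≤ (C * Real.log ((m : ℝ) + 2)) ^ (5 * (m.primeFactors.card + 1)) := by
  rcases alternative hF with h | h
  · left
    intro N hN u hu
    have h1 := inf_dvd hF hN (h N hN) 1 (L' := N * (1 + 1)) le_rfl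
    rw [sdvd_up hF hN (D := 1) (e := 1) le_rfl (by rw [mul_one]; omega) le_rfl, pow_one] at h1
    obtain ⟨Q, hQ⟩ := h1
    have h2 := congrArg (aeval (u : ℂ)) hQ
    rw [map_mul, Ps_root hN hu, zero_mul, mul_one] at h2
    have h3 := sval hF hN hu
    rw [h2, norm_zero] at h3
    exact norm_eq_zero.1 h3.symm
  · right
    obtain ⟨C, I, Z, hC, hhyp, htow⟩ := s_hyp2 hF h
    refine ⟨10 * C, by linarith, fun m hm T hT => ?_⟩
    have h1 := (hyp_bound hC hhyp m hm).2
    have h2 := htow m hm T hT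
    have h3 : 0 ≤ (10 * C * Real.log ((m : ℝ) + 2)) ^ (5 * (m.primeFactors.card + 1)) := by
      have h4 : 0 ≤ Real.log ((m : ℝ) + 2) := Real.log_nonneg (by
        have : (0 : ℝ) ≤ m := Nat.cast_nonneg m
        linarith)
      positivity
    linarith

/-- the sum over all bad levels in a tower, for a knot -/
theorem ktower {n : ℕ} {w : List (ℕ × Bool)} (hw : IsKnot n w) {m : ℕ} (hm : 1 ≤ m)
    (T : Finset ℕ) (hT : ∀ r ∈ T, Bad n w (m * r)) : ∑ r ∈ T, Λ r ≤ ZZ n w m := by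
  classical
  have hTH := Pool.Agent.Q198.KX.th
  have hEN := Pool.Agent.Q84.KX.en
  have hNL := Pool.Agent.Q128.KX.nl
  have hφ : (0 : ℝ) < (Nat.totient (2 * m) : ℝ) := by
    exact_mod_cast Nat.totient_pos.2 (by omega : 0 < 2 * m)
  unfold ZZ
  rw [le_div_iff₀ hφ, mul_comm]
  have ho := II_spec hTH hEN hNL hw hm
  have hH := HH_spec hTH hEN hNL hw hm
  set i := II n w m with hi
  set H := HH n w m with hHd
  set T' := T.filter IsPrimePow with hT'
  have hsum : ∑ r ∈ T, Λ r = ∑ r ∈ T', Λ r := by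
    rw [hT', Finset.sum_filter]
    apply Finset.sum_congr rfl
    intro r _
    by_cases h : IsPrimePow r
    · rw [if_pos h]
    · rw [if_neg h, vonMangoldt_eq_zero_iff.2 h]
  rw [hsum]
  set L' := m * (i + 1) + ∑ r ∈ T', m * r with hL'
  have hL : m * (i + 1) ≤ L' := Nat.le_add_right _ _
  have hΨ0 : Ps m ^ i ≠ 0 := pow_ne_zero _ (Ps_prime hm).ne_zero
  have hnd : ¬ Ps m ∣ H := by
    intro h
    apply ho.2
    rw [hH, pow_succ]
    exact mul_dvd_mul_left _ h
  obtain ⟨H', hH'⟩ := (dvd_up hTH hEN hm (Nat.succ_pos i) hL (Nat.le_succ i) hw).2 ho.1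
  have hcong : Ps m ∣ X ^ gK n w (m * (i + 1)) * H' - X ^ gK n w L' * H := by
    have h1 := filt_poly hTH hEN hm (Nat.succ_pos i) hL hw
    rw [Nat.succ_eq_add_one, hH, hH', pow_succ] at h1
    have e1 : X ^ gK n w (m * (i + 1)) * (Ps m ^ i * H') - X ^ gK n w L' * (Ps m ^ i * H) =
        Ps m ^ i * (X ^ gK n w (m * (i + 1)) * H' - X ^ gK n w L' * H) := by ring
    rw [e1] at h1
    exact (mul_dvd_mul_iff_left hΨ0).1 h1
  have hnorm : ∀ v : ℂ, IsPrimitiveRoot v (2 * m) → ‖aeval v H'‖ = ‖aeval v H‖ := by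
    intro v hv
    obtain ⟨Q, hQ⟩ := hcong
    have h1 := congrArg (aeval v) hQ
    rw [map_mul, Ps_root hm hv, zero_mul, map_sub, map_mul, map_mul, map_pow, map_pow, aeval_X,
      sub_eq_zero] at h1
    have h2 := congrArg (fun z : ℂ => ‖z‖) h1
    simp only [norm_mul, norm_pow] at h2
    have hvn : ‖v‖ = 1 := hv.norm'_eq_one (by omega)
    rwa [hvn, one_pow, one_pow, one_mul, one_mul] at h2
  have hv0 := Complex.isPrimitiveRoot_exp (2 * m) (by omega)
  set v0 : ℂ := Complex.exp (2 * Real.pi * Complex.I / ((2 * m : ℕ) : ℂ)) with hv0d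
  have hne : aeval v0 H' ≠ 0 := by
    rw [← norm_ne_zero_iff, hnorm v0 hv0, norm_ne_zero_iff]
    intro h
    exact hnd (cyc_dvd (by omega) hv0 h)
  have h1 := nl2 hm H' v0 hv0 hne T' (fun r hr => by
    rw [hT', Finset.mem_filter] at hr
    refine ⟨hr.2, ?_⟩
    have hr1 : 1 < r := hr.2.one_lt
    have hc1 : 1 ≤ m * r := Nat.mul_pos hm (by omega)
    have hcne : m * r ≠ m := by
      intro h
      nlinarith
    have h5 : Ps (m * r) ∣ gp n w L' := by
      have h6 := bad_dvd (hT r hr.1)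
      have h7 := (dvd_up hTH hEN hc1 (D := 1) (e := 1) (L' := L') le_rfl (by
        rw [mul_one, hL']
        refine le_trans ?_ (Nat.le_add_left _ _)
        exact Finset.single_le_sum (f := fun r => m * r) (fun _ _ => Nat.zero_le _)
          (Finset.mem_filter.2 hr)) le_rfl hw).2 (by
          rw [pow_one]
          exact h6)
      rwa [pow_one] at h7
    rw [hH'] at h5
    rcases (Ps_prime hc1).dvd_or_dvd h5 with h6 | h6
    · exact absurd ((Ps_prime hc1).dvd_of_dvd_pow h6) (Ps_not_dvd hc1 hm hcne)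
    · exact h6)
  refine h1.trans (le_of_eq ?_)
  congr 1
  apply Finset.prod_congr rfl
  intro v hv
  rw [mem_primitiveRoots (by omega)] at hv
  exact hnorm v hv

/-- **Towers of levels, for a knot.** -/
theorem knot_tower {n : ℕ} {w : List (ℕ × Bool)} (hw : IsKnot n w) {m : ℕ} (hm : 1 ≤ m)
    (T : Finset ℕ) (hT : ∀ r ∈ T, Bad n w (m * r)) :
    ∑ r ∈ T, Λ r ≤ (2560 * ((n : ℝ) + w.length + 1) * Real.log ((m : ℝ) + 2)) ^
      (5 * (m.primeFactors.card + 1)) := by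
  have hhyp := hyp Pool.Agent.Q198.KX.th Pool.Agent.Q84.KX.en Pool.Agent.Q128.KX.nl
    Pool.Agent.Q198.KX.mm Pool.Agent.Q128.KX.sz1 hw
  have hC : (1 : ℝ) ≤ 256 * ((n : ℝ) + w.length + 1) := by
    have h1 : (0 : ℝ) ≤ n := Nat.cast_nonneg n
    have h2 : (0 : ℝ) ≤ w.length := Nat.cast_nonneg _
    linarith
  have h1 := (hyp_bound hC hhyp m hm).2
  have h2 := ktower hw hm T hT
  have e : 10 * (256 * ((n : ℝ) + w.length + 1)) * Real.log ((m : ℝ) + 2) =
      2560 * ((n : ℝ) + w.length + 1) * Real.log ((m : ℝ) + 2) := by ring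
  rw [e] at h1
  have h3 : 0 ≤ (2560 * ((n : ℝ) + w.length + 1) * Real.log ((m : ℝ) + 2)) ^
      (5 * (m.primeFactors.card + 1)) := by
    have h4 : 0 ≤ Real.log ((m : ℝ) + 2) := Real.log_nonneg (by
      have : (0 : ℝ) ≤ m := Nat.cast_nonneg m
      linarith)
    positivity
  linarith

end Pool.Agent.Q79.KX
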