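import Mathlib
import Pool.Agent.Q79.KX.SysC

set_option autoImplicit false

open Finset Polynomial

namespace Pool.Agent.Q79.KX

open Pool.Agent.Q79.KV

/-! ### The inversion of the unit -/

/-- `Φ_m(x)` divides `Φ_m(x⁻¹)` -/
theorem cyc_inv {R : Type} [CommRing R] (x : Rˣ) {m : ℕ} (hm : 1 ≤ m) :
    (cyclotomic m ℤ).eval₂ (Int.castRingHom R) (x : R) ∣
      (cyclotomic m ℤ).eval₂ (Int.castRingHom R) ((x⁻¹ : Rˣ) : R) := by
  have hv := Complex.isPrimitiveRoot_exp m (by omega)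
  set v := Complex.exp (2 * Real.pi * Complex.I / m) with hvd
  have hv0 : v ≠ 0 := hv.ne_zero (by omega)
  have h1 : cyclotomic m ℤ ∣ (cyclotomic m ℤ).reverse := by
    apply cyc_dvd (by omega) hv
    let _ : Invertible v⁻¹ := invertibleOfNonzero (inv_ne_zero hv0)
    have h2 := (eval₂_reverse_eq_zero_iff (algebraMap ℤ ℂ) v⁻¹ (cyclotomic m ℤ)).2 (by
      have h3 : IsPrimitiveRoot v⁻¹ m := hv.inv
      have h4 := h3.isRoot_cyclotomic (R := ℂ) (by omega)
      rw [← map_cyclotomic m (algebraMap ℤ ℂ), IsRoot.def, eval_map] at h4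
      exact h4)
    have h5 : ⅟ (v⁻¹) = v := by
      rw [invOf_eq_inv, inv_inv]
    rw [h5] at h2
    exact h2
  obtain ⟨Q, hQ⟩ := h1
  let _ : Invertible ((x⁻¹ : Rˣ) : R) := (x⁻¹).invertible
  have h6 := eval₂_reverse_mul_pow (Int.castRingHom R) ((x⁻¹ : Rˣ) : R) (cyclotomic m ℤ)
  have h7 : ⅟ ((x⁻¹ : Rˣ) : R) = (x : R) := by
    rw [invOf_units, inv_inv]
  rw [h7, hQ, eval₂_mul] at h6
  rw [← h6, mul_assoc]
  exact dvd_mul_right _ _

theorem fac_inv {m : ℕ} {v : ℂ} {D : ℝ} (h : Fac m v D) : Fac m v⁻¹ D := by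
  refine ⟨by rw [norm_inv, h.1, inv_one], fun k hk => ?_⟩
  have e : ‖brf v⁻¹ k‖ = ‖brf v k‖ := by
    unfold brf
    rw [norm_prod, norm_prod]
    apply Finset.prod_congr rfl
    intro j _
    unfold br
    rw [inv_zpow', inv_zpow', neg_neg, norm_sub_rev]
  rw [e]
  exact h.2 k hk

theorem IsSys.inv {F : Fam} (h : IsSys F) : IsSys (fun L R _ u => F L R u⁻¹) where
  nat := fun L R S _ _ f u => by
    rw [h.nat, map_inv]
  fil := fun R _ u m D L' hm hD hL => by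
    refine dvd_trans (pow_dvd_pow_of_dvd ?_ D) (h.fil R u⁻¹ m D L' hm hD hL)
    have h1 := cyc_inv (u ^ 2) hm
    rw [← inv_pow] at h1
    rw [Units.val_pow_eq_pow_val, Units.val_pow_eq_pow_val] at h1
    exact h1
  siz := by
    obtain ⟨A, hA0, hA⟩ := h.siz
    refine ⟨A, hA0, fun m i v s D u hm hv hF hs hu => ?_⟩
    apply hA m i v⁻¹ (-s) D u⁻¹ hm hv.inv (fac_inv hF) (by rw [norm_neg]; exact hs)
    rw [Units.val_inv_eq_inv_val, hu, mul_inv, Complex.exp_neg]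

/-- the state sum at the inverse is the complex conjugate -/
theorem conj_G (L n : ℕ) (w : List (ℕ × Bool)) {u : ℂˣ} (hu : ‖(u : ℂ)‖ = 1) :
    G L n w u⁻¹ = (starRingEnd ℂ) (G L n w u) := by
  rw [map_G (starRingEnd ℂ) u L n w]
  congr 1
  apply Units.ext
  rw [Units.val_inv_eq_inv_val, Units.coe_map, MonoidHom.coe_coe]
  exact Complex.inv_eq_conj hu

end Pool.Agent.Q79.KX
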